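import Pool.Agent.W_7d29a1_PA.DefsPA

/-!
Theorem PLA, from the points to almost every tilt at all large times (Borel - Cantelli).
-/

namespace Pool.Agent.W_7d29a1_PA

open MeasureTheory ProbabilityTheory Filter Topology Pool.Agent.W_MP_7d29a1_pr
  Pool.Agent.W_7d29a1_h46 Pool.Agent.W_7d29a1_h46u Pool.Agent.W_7d29a1_D2.B35
  Pool.Agent.W_7d29a1_Q29 Pool.Agent.W_7d29a1_R34 Pool.Agent.W_7d29a1_SP Pool.Agent.W_7d29a1_PL

namespace A18

/-- The number of scales at the time `2 ^ l`. -/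
noncomputable def Kn (a : ℝ) (l : ℕ) : ℕ := ⌊a * l / 6⌋₊

lemma pow64_le {a : ℝ} (ha : 0 < a) (l : ℕ) : (64 : ℝ) ^ Kn a l ≤ ((2 ^ l : ℕ) : ℝ) ^ a := by
  have h1 : ((Kn a l : ℕ) : ℝ) ≤ a * l / 6 := Nat.floor_le (by positivity)
  have h2 : (64 : ℝ) ^ Kn a l = (2 : ℝ) ^ (6 * (Kn a l : ℝ)) := by
    have h3 : (64 : ℝ) = (2 : ℝ) ^ (6 : ℝ) := by norm_num
    rw [Real.rpow_mul (by norm_num), ← h3, Real.rpow_natCast]
  have h4 : ((2 ^ l : ℕ) : ℝ) ^ a = (2 : ℝ) ^ ((l : ℝ) * a) := by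
    push_cast
    rw [Real.rpow_mul (by norm_num), Real.rpow_natCast]
  rw [h2, h4]
  exact Real.rpow_le_rpow_of_exponent_le (by norm_num) (by linarith)

lemma sum18 {a θ C : ℝ} (ha : 0 < a) (h0 : 0 < θ) (h1 : θ < 1) :
    Summable fun l : ℕ => C * θ ^ Kn a l := by
  have hq0 : 0 < θ ^ (a / 6) := Real.rpow_pos_of_pos h0 _
  have hq1 : θ ^ (a / 6) < 1 := Real.rpow_lt_one h0.le h1 (by positivity)
  have hs : Summable fun l : ℕ => θ⁻¹ * (θ ^ (a / 6)) ^ l :=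
    (summable_geometric_of_lt_one hq0.le hq1).mul_left _
  have h2 : Summable fun l : ℕ => θ ^ Kn a l := by
    refine Summable.of_nonneg_of_le (fun l => by positivity) (fun l => ?_) hs
    have h3 : a * l / 6 - 1 ≤ (Kn a l : ℝ) := by
      have := Nat.lt_floor_add_one (a * l / 6)
      unfold Kn
      linarith
    have h4 : θ ^ Kn a l ≤ θ ^ (a * l / 6 - 1) := by
      rw [← Real.rpow_natCast]
      exact Real.rpow_le_rpow_of_exponent_ge h0 h1.le h3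
    refine h4.trans (le_of_eq ?_)
    have h5 : a * l / 6 - 1 = (-1 : ℝ) + a / 6 * l := by ring
    rw [h5, Real.rpow_add h0, Real.rpow_neg_one, Real.rpow_mul h0.le, Real.rpow_natCast]
  exact h2.mul_left C

end A18

open A18

theorem allN18 {ρ : Measure ℝ} {β : ℝ} (hPor : PorP) (hPnt : PntN ρ β) (hC : CurvP ρ β) :
    AllN ρ β := by
  obtain ⟨θ, hθ0, hθ1, hPor⟩ := hPor
  have hP : ∀ j : ℕ, ∃ a c : ℝ, 0 < a ∧ a ≤ 1 / 8 ∧ 0 < c ∧ ∀ (h : Vec 2) (δ : ℝ), 0 < δ →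
      lam ρ β h + 1 / ((j : ℝ) + 1) ≤ Real.log (Phi h) +
        Real.log (∫ t, Real.exp (β * t) ∂ρ) →
      (∀ r : ℝ, 0 < r → r ≤ δ → ∀ k : Fin 2,
        lam ρ β (h + r • ej k) + lam ρ β (h - r • ej k) - 2 * lam ρ β h ≤
          ((j : ℝ) + 1) * r ^ 2) →
      ∃ N₀ : ℕ, ∀ N : ℕ, N₀ ≤ N → ∀ r : ℝ, (N : ℝ) ^ (-(1 / 2) + a) ≤ r →
        r ≤ (N : ℝ) ^ (-(1 / 2) + 2 * a) → h ∈ Lw ρ β c N → ¬ Nb (Lw ρ β c N) h r :=
    fun j => hPnt _ _ (by positivity) (by positivity)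
  choose a c ha ha8 hc hP using hP
  choose CR hCR hPor using fun i : ℕ => hPor ((i : ℝ) + 1) (by positivity)
  have hBC : ∀ᵐ h : Vec 2, ∀ j i : ℕ, ∀ᶠ l : ℕ in atTop, h ∉ {h : Vec 2 |
      h ∈ Lw ρ β (c j) (2 ^ l) ∧ ‖h‖ ≤ (i : ℝ) + 1 ∧ ∀ k : ℕ, k < Kn (a j) l →
        ¬ Nb (Lw ρ β (c j) (2 ^ l)) h (64 ^ k * ((2 ^ l : ℕ) : ℝ) ^ (-(1 / 2) + a j))} := by
    rw [ae_all_iff]
    intro j
    rw [ae_all_iff]
    intro i
    refine ae_eventually_notMem ?_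
    refine ne_top_of_le_ne_top ((sum18 (C := CR i) (ha j) hθ0 hθ1).tsum_ofReal_ne_top)
      (ENNReal.tsum_le_tsum fun l => ?_)
    have hN1 : (1 : ℝ) ≤ ((2 ^ l : ℕ) : ℝ) := by
      exact_mod_cast Nat.one_le_two_pow
    have hN0 : (0 : ℝ) < ((2 ^ l : ℕ) : ℝ) := by linarith
    refine hPor i _ _ _ (Real.rpow_pos_of_pos hN0 _) ?_
    calc (64 : ℝ) ^ Kn (a j) l * ((2 ^ l : ℕ) : ℝ) ^ (-(1 / 2) + a j)
        ≤ ((2 ^ l : ℕ) : ℝ) ^ (a j) * ((2 ^ l : ℕ) : ℝ) ^ (-(1 / 2) + a j) :=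
          mul_le_mul_of_nonneg_right (pow64_le (ha j) l) (Real.rpow_nonneg hN0.le _)
      _ = ((2 ^ l : ℕ) : ℝ) ^ (a j + (-(1 / 2) + a j)) := (Real.rpow_add hN0 _ _).symm
      _ ≤ 1 := Real.rpow_le_one_of_one_le_of_nonpos hN1 (by have := ha8 j; linarith)
  unfold CurvP at hC
  unfold AllN
  filter_upwards [hBC, hC] with h hB hCh hV
  obtain ⟨M, δ, hδ, hCh⟩ := hCh
  obtain ⟨g, hg⟩ : ∃ g : ℝ, g = Real.log (Phi h) + Real.log (∫ t, Real.exp (β * t) ∂ρ) -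
    lam ρ β h := ⟨_, rfl⟩
  have hg0 : 0 < g := by
    unfold VSD at hV
    linarith
  obtain ⟨j1, hj1⟩ := exists_nat_one_div_lt hg0
  obtain ⟨j3, hj3⟩ := exists_nat_ge M
  obtain ⟨i, hi⟩ := exists_nat_ge ‖h‖
  obtain ⟨j, hj⟩ : ∃ j, j = max j1 j3 := ⟨_, rfl⟩
  have e1 : j1 ≤ j := by
    rw [hj]
    exact le_max_left _ _
  have e3 : j3 ≤ j := by
    rw [hj]
    exact le_max_right _ _
  have e1' : (j1 : ℝ) ≤ j := by exact_mod_cast e1
  have e3' : (j3 : ℝ) ≤ j := by exact_mod_cast e3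
  have hgj : 1 / ((j : ℝ) + 1) ≤ g :=
    (one_div_le_one_div_of_le (by positivity) (by linarith)).trans hj1.le
  obtain ⟨N₀, hN₀⟩ := hP j h δ hδ (by linarith) (fun r hr0 hr k =>
    (hCh r hr0 hr k).trans (mul_le_mul_of_nonneg_right (by linarith) (sq_nonneg r)))
  obtain ⟨l₀, hl₀⟩ := eventually_atTop.1 (hB j i)
  have hnot : ∀ l : ℕ, l₀ ≤ l → N₀ ≤ l → h ∉ Lw ρ β (c j) (2 ^ l) := by
    intro l hl hlN hmem
    refine hl₀ l hl ⟨hmem, by linarith, fun k hk => ?_⟩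
    have hN1 : (1 : ℝ) ≤ ((2 ^ l : ℕ) : ℝ) := by
      exact_mod_cast Nat.one_le_two_pow
    have hN0 : (0 : ℝ) < ((2 ^ l : ℕ) : ℝ) := by linarith
    have hNN : N₀ ≤ 2 ^ l := hlN.trans Nat.lt_two_pow_self.le
    have hr0 : 0 < ((2 ^ l : ℕ) : ℝ) ^ (-(1 / 2) + a j) := Real.rpow_pos_of_pos hN0 _
    refine hN₀ (2 ^ l) hNN _ ?_ ?_ hmem
    · have : (1 : ℝ) ≤ 64 ^ k := one_le_pow₀ (by norm_num)
      nlinarith
    · calc (64 : ℝ) ^ k * ((2 ^ l : ℕ) : ℝ) ^ (-(1 / 2) + a j)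
          ≤ (64 : ℝ) ^ Kn (a j) l * ((2 ^ l : ℕ) : ℝ) ^ (-(1 / 2) + a j) :=
            mul_le_mul_of_nonneg_right (pow_le_pow_right₀ (by norm_num) hk.le) hr0.le
        _ ≤ ((2 ^ l : ℕ) : ℝ) ^ (a j) * ((2 ^ l : ℕ) : ℝ) ^ (-(1 / 2) + a j) :=
            mul_le_mul_of_nonneg_right (pow64_le (ha j) l) hr0.le
        _ = ((2 ^ l : ℕ) : ℝ) ^ (-(1 / 2) + 2 * a j) := by
            rw [← Real.rpow_add hN0]
            congr 1
            ring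
  refine ⟨c j / 6, by have := hc j; positivity, ?_⟩
  refine eventually_atTop.2 ⟨64 * 8 ^ (max (max l₀ N₀) 3), fun n hn => ?_⟩
  set l : ℕ := Nat.log 8 (n / 64) with hl
  have hn64 : 8 ^ (max (max l₀ N₀) 3) ≤ n / 64 := by
    rw [Nat.le_div_iff_mul_le (by norm_num)]
    linarith
  have hpos : n / 64 ≠ 0 := by
    have : 0 < 8 ^ (max (max l₀ N₀) 3) := by positivity
    omega
  have hlge : max (max l₀ N₀) 3 ≤ l := Nat.le_log_of_pow_le (by norm_num) hn64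
  have hl1 : l₀ ≤ l := ((le_max_left _ _).trans (le_max_left _ _)).trans hlge
  have hl2 : N₀ ≤ l := ((le_max_right _ _).trans (le_max_left _ _)).trans hlge
  have hl3 : 3 ≤ l := (le_max_right _ _).trans hlge
  have hlo : 8 ^ l ≤ n / 64 := Nat.pow_log_le_self 8 hpos
  have hhi : n / 64 < 8 ^ (l + 1) := Nat.lt_pow_succ_log_self (by norm_num) _
  have h1 := hnot l hl1 hl2
  unfold Lw at h1
  simp only [Set.mem_setOf_eq, not_forall, not_le] at h1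
  obtain ⟨m, hm, hVm⟩ := h1
  have h8 : (2 ^ l) ^ 3 = 8 ^ l := by
    rw [← pow_mul, mul_comm, pow_mul]
    norm_num
  refine ⟨m, ?_, ?_⟩
  · have h2 : 64 * (2 ^ l) ^ 3 ≤ n := by
      rw [h8]
      have := (Nat.le_div_iff_mul_le (by norm_num)).1 hlo
      linarith
    exact hm.trans h2
  · refine le_trans ?_ hVm.le
    have h2 : n < 8 ^ (l + 1) * 64 := (Nat.div_lt_iff_lt_mul (by norm_num)).1 hhi
    have h3 : (n : ℝ) ≤ 512 * ((2 ^ l : ℕ) : ℝ) ^ 3 := by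
      have h4 : n ≤ 512 * (2 ^ l) ^ 3 := by
        rw [h8]
        rw [pow_succ] at h2
        omega
      exact_mod_cast h4
    have h5 : (8 : ℝ) ≤ ((2 ^ l : ℕ) : ℝ) := by
      have h6 : 2 ^ 3 ≤ 2 ^ l := Nat.pow_le_pow_right (by norm_num) hl3
      have h7 : (((2 ^ 3 : ℕ)) : ℝ) ≤ ((2 ^ l : ℕ) : ℝ) := by exact_mod_cast h6
      norm_num at h7 ⊢
      linarith
    set P : ℝ := ((2 ^ l : ℕ) : ℝ) with hPd
    have hP0 : 0 < P := by linarith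
    have h9 : (n : ℝ) ≤ P ^ (6 : ℕ) := by
      have h10 : (512 : ℝ) ≤ P ^ 3 := by
        have := pow_le_pow_left₀ (by norm_num) h5 3
        norm_num at this
        linarith
      calc (n : ℝ) ≤ 512 * P ^ 3 := h3
        _ ≤ P ^ 3 * P ^ 3 := mul_le_mul_of_nonneg_right h10 (by positivity)
        _ = P ^ 6 := by ring
    calc (n : ℝ) ^ (c j / 6) ≤ (P ^ (6 : ℕ)) ^ (c j / 6) :=
          Real.rpow_le_rpow (by positivity) h9 (by have := hc j; positivity)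
      _ = P ^ (c j) := by
          rw [← Real.rpow_natCast, ← Real.rpow_mul hP0.le]
          congr 1
          push_cast
          ring

end Pool.Agent.W_7d29a1_PA
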