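import Pool.Agent.W_7d29a1_PA.Leak67

/-!
The budget at one time (helper67): the leaf BUDN.
-/

namespace Pool.Agent.W_7d29a1_PA

open MeasureTheory ProbabilityTheory Filter Topology Pool.Agent.W_MP_7d29a1_pr
  Pool.Agent.W_7d29a1_h46 Pool.Agent.W_7d29a1_h46u Pool.Agent.W_7d29a1_D2.B35
  Pool.Agent.W_7d29a1_Q29 Pool.Agent.W_7d29a1_R34 Pool.Agent.W_7d29a1_SP Pool.Agent.W_7d29a1_PL
open Pool.Agent.W_7d29a1_PL.B67

namespace N67

/-- The logarithm is at most a small power. -/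
lemma logs (κ p : ℝ) (hκ : 0 < κ) (hp : 0 < p) :
    ∀ᶠ n : ℕ in atTop, Real.log (n : ℝ) + 2 ≤ κ * (n : ℝ) ^ p := by
  have h1 : ∀ᶠ x : ℝ in atTop, ‖Real.log x‖ ≤ κ / 2 * ‖x ^ p‖ :=
    (isLittleO_log_rpow_atTop hp).def (by positivity)
  have h2 : Tendsto (fun n : ℕ => (n : ℝ) ^ p) atTop atTop :=
    (tendsto_rpow_atTop hp).comp tendsto_natCast_atTop_atTop
  filter_upwards [tendsto_natCast_atTop_atTop.eventually h1, h2.eventually_ge_atTop (4 / κ)]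
    with n hn hn2
  have h3 : 0 ≤ (n : ℝ) ^ p := Real.rpow_nonneg (Nat.cast_nonneg n) _
  rw [Real.norm_eq_abs, Real.norm_eq_abs, abs_of_nonneg h3] at hn
  have h4 := le_abs_self (Real.log (n : ℝ))
  have h5 : 4 ≤ (n : ℝ) ^ p * κ := by rwa [div_le_iff₀ hκ] at hn2
  linarith

/-- The numbers of BUDN. -/
lemma num {C₁ L δ a c : ℝ} (hC₁ : 1 ≤ C₁) (hL : 1 ≤ L) (hδ : 0 < δ) (ha : 0 < a)
    (ha8 : a ≤ 1 / 8) (hc : 0 < c) (hca : 8 * c ≤ a) : ∃ N₀ : ℕ, 1000 ≤ N₀ ∧ ∀ N : ℕ, N₀ ≤ N →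
      ∀ r : ℝ, (N : ℝ) ^ (-(1 / 2) + a) ≤ r → r ≤ (N : ℝ) ^ (-(1 / 2) + 2 * a) →
        0 < r ∧ 2 * r ≤ δ ∧ 1 ≤ L * r * N ∧ (N : ℝ) ^ a ≤ r ^ 2 * N ∧
        (Real.log N + 2) * (3328 * (N : ℝ) ^ c / (r * (L * r * N)) ^ 2 +
          1536 * Real.sqrt ((N : ℝ) ^ c * (200 * C₁ * (N : ℝ) ^ c / N)) / r) ≤ 1 / 8 ∧
        Real.log (2 + 2 * (9 * (L * r * N) ^ 2 * (200 * C₁ * (N : ℝ) ^ c / N))) ≤
          6 * a * Real.log N := by
  obtain ⟨s₁, hs₁⟩ : ∃ s₁, s₁ = Real.sqrt (200 * C₁) := ⟨_, rfl⟩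
  have hs₁0 : 0 ≤ s₁ := by rw [hs₁]; exact Real.sqrt_nonneg _
  obtain ⟨G₁, hG₁⟩ : ∃ G₁, G₁ = 3328 + 1536 * s₁ := ⟨_, rfl⟩
  have hG₁0 : 0 < G₁ := by rw [hG₁]; positivity
  obtain ⟨G₂, hG₂⟩ : ∃ G₂, G₂ = 2 + 3600 * C₁ * L ^ 2 := ⟨_, rfl⟩
  have hG₂0 : 1 ≤ G₂ := by
    rw [hG₂]
    have : 0 ≤ 3600 * C₁ * L ^ 2 := by positivity
    linarith
  have l1 : Tendsto (fun n : ℕ => (n : ℝ) ^ (1 / 4 : ℝ)) atTop atTop :=
    (tendsto_rpow_atTop (by norm_num : (0 : ℝ) < 1 / 4)).comp tendsto_natCast_atTop_atTop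
  have l2 : Tendsto (fun n : ℕ => a * Real.log (n : ℝ)) atTop atTop :=
    (Real.tendsto_log_atTop.comp tendsto_natCast_atTop_atTop).const_mul_atTop ha
  obtain ⟨n₁, hn₁⟩ := eventually_atTop.1 (((l1.eventually_ge_atTop (2 / δ)).and
    (l2.eventually_ge_atTop (Real.log G₂))).and
      (logs (1 / (8 * G₁)) (7 / 8 * a) (by positivity) (by positivity)))
  refine ⟨max 1000 n₁, le_max_left _ _, fun N hN r hr1 hr2 => ?_⟩
  obtain ⟨⟨h1, h2⟩, h3⟩ := hn₁ N (le_trans (le_max_right _ _) hN)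
  have hN1000 : 1000 ≤ N := le_trans (le_max_left _ _) hN
  have hN1 : (1 : ℝ) ≤ N := by exact_mod_cast (by omega : 1 ≤ N)
  have hN0 : (0 : ℝ) < N := by linarith
  have hr0 : 0 < r := lt_of_lt_of_le (by positivity) hr1
  -- the square
  obtain ⟨R, hR⟩ : ∃ R, R = r ^ 2 * N := ⟨_, rfl⟩
  have e1 : ((N : ℝ) ^ (-(1 / 2) + a)) ^ 2 * N = (N : ℝ) ^ (2 * a) := by
    rw [← Real.rpow_natCast, ← Real.rpow_mul hN0.le]
    nth_rewrite 2 [← Real.rpow_one (N : ℝ)]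
    rw [← Real.rpow_add hN0]
    congr 1
    push_cast
    ring
  have e2 : ((N : ℝ) ^ (-(1 / 2) + 2 * a)) ^ 2 * N = (N : ℝ) ^ (4 * a) := by
    rw [← Real.rpow_natCast, ← Real.rpow_mul hN0.le]
    nth_rewrite 2 [← Real.rpow_one (N : ℝ)]
    rw [← Real.rpow_add hN0]
    congr 1
    push_cast
    ring
  have hR1 : (N : ℝ) ^ (2 * a) ≤ R := by
    rw [hR, ← e1]
    exact mul_le_mul_of_nonneg_right (pow_le_pow_left₀ (by positivity) hr1 2) hN0.le
  have hR2 : R ≤ (N : ℝ) ^ (4 * a) := by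
    rw [hR, ← e2]
    exact mul_le_mul_of_nonneg_right (pow_le_pow_left₀ hr0.le hr2 2) hN0.le
  have hR0 : 0 < R := by rw [hR]; positivity
  have hR1' : 1 ≤ R := le_trans (Real.one_le_rpow hN1 (by linarith)) hR1
  refine ⟨hr0, ?_, ?_, ?_, ?_, ?_⟩
  · -- small tilt
    have h4 : r ≤ (N : ℝ) ^ (-(1 / 4) : ℝ) :=
      hr2.trans (Real.rpow_le_rpow_of_exponent_le hN1 (by linarith))
    have h5 : (N : ℝ) ^ (-(1 / 4) : ℝ) * (N : ℝ) ^ (1 / 4 : ℝ) = 1 := by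
      rw [← Real.rpow_add hN0]
      norm_num
    have h6 : 2 ≤ (N : ℝ) ^ (1 / 4 : ℝ) * δ := by rwa [div_le_iff₀ hδ] at h1
    have h7 : 0 < (N : ℝ) ^ (-(1 / 4) : ℝ) := by positivity
    have h8 : 2 * (N : ℝ) ^ (-(1 / 4) : ℝ) ≤ δ := by
      calc 2 * (N : ℝ) ^ (-(1 / 4) : ℝ) ≤
          ((N : ℝ) ^ (1 / 4 : ℝ) * δ) * (N : ℝ) ^ (-(1 / 4) : ℝ) :=
            mul_le_mul_of_nonneg_right h6 h7.le
        _ = δ * ((N : ℝ) ^ (-(1 / 4) : ℝ) * (N : ℝ) ^ (1 / 4 : ℝ)) := by ring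
        _ = δ := by rw [h5, mul_one]
    linarith
  · -- the window is large
    have h4 : 1 ≤ (r * N) ^ 2 := by
      have h5 : (r * N) ^ 2 = R * N := by rw [hR]; ring
      rw [h5]
      nlinarith
    have h5 : 1 ≤ r * N := by
      by_contra hcon
      push Not at hcon
      have h6 : 0 < r * N := by positivity
      nlinarith
    nlinarith
  · rw [← hR]
    exact le_trans (Real.rpow_le_rpow_of_exponent_le hN1 (by linarith)) hR1
  · -- the leak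
    obtain ⟨P, hP⟩ : ∃ P, P = (N : ℝ) ^ (c - a) := ⟨_, rfl⟩
    have hP0 : 0 < P := by rw [hP]; positivity
    have t1 : 3328 * (N : ℝ) ^ c / (r * (L * r * N)) ^ 2 ≤ 3328 * P := by
      have h4 : (r * (L * r * N)) ^ 2 = L ^ 2 * R ^ 2 := by rw [hR]; ring
      rw [h4]
      have h5 : (N : ℝ) ^ a ≤ L ^ 2 * R ^ 2 := by
        have h6 : (N : ℝ) ^ a ≤ (N : ℝ) ^ (2 * a) :=
          Real.rpow_le_rpow_of_exponent_le hN1 (by linarith)
        have h7 : 1 ≤ L ^ 2 := one_le_pow₀ hL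
        have h8 : R ≤ R ^ 2 := by nlinarith
        have h9 : R ^ 2 ≤ L ^ 2 * R ^ 2 := le_mul_of_one_le_left (sq_nonneg _) h7
        linarith
      rw [div_le_iff₀ (by positivity)]
      have h6 : P * (N : ℝ) ^ a = (N : ℝ) ^ c := by
        rw [hP, ← Real.rpow_add hN0]
        congr 1
        ring
      have h7 := mul_le_mul_of_nonneg_left h5 hP0.le
      nlinarith
    have t2 : 1536 * Real.sqrt ((N : ℝ) ^ c * (200 * C₁ * (N : ℝ) ^ c / N)) / r ≤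
        1536 * s₁ * P := by
      rw [div_le_iff₀ hr0]
      have h4 : Real.sqrt ((N : ℝ) ^ c * (200 * C₁ * (N : ℝ) ^ c / N)) ≤ s₁ * P * r := by
        refine Real.sqrt_le_iff.2 ⟨by positivity, ?_⟩
        have h5 : (s₁ * P * r) ^ 2 = 200 * C₁ * (P ^ 2 * r ^ 2) := by
          have h6 : s₁ ^ 2 = 200 * C₁ := by rw [hs₁]; exact Real.sq_sqrt (by positivity)
          rw [mul_pow, mul_pow, h6]
          ring
        rw [h5]
        have h6 : (N : ℝ) ^ c * (200 * C₁ * (N : ℝ) ^ c / N) =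
            200 * C₁ * (((N : ℝ) ^ c) ^ 2 / N) := by ring
        rw [h6]
        refine mul_le_mul_of_nonneg_left ?_ (by positivity)
        rw [div_le_iff₀ hN0]
        have h7 : ((N : ℝ) ^ c) ^ 2 = P ^ 2 * (N : ℝ) ^ (2 * a) := by
          rw [hP, ← Real.rpow_natCast, ← Real.rpow_natCast, ← Real.rpow_mul hN0.le,
            ← Real.rpow_mul hN0.le, ← Real.rpow_add hN0]
          congr 1
          push_cast
          ring
        rw [h7]
        have h8 : P ^ 2 * (N : ℝ) ^ (2 * a) ≤ P ^ 2 * R :=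
          mul_le_mul_of_nonneg_left hR1 (sq_nonneg _)
        refine h8.trans (le_of_eq ?_)
        rw [hR]
        ring
      nlinarith
    have t3 : 3328 * (N : ℝ) ^ c / (r * (L * r * N)) ^ 2 +
        1536 * Real.sqrt ((N : ℝ) ^ c * (200 * C₁ * (N : ℝ) ^ c / N)) / r ≤ G₁ * P := by
      rw [hG₁]
      linarith
    have hl0 : 0 ≤ Real.log N + 2 := by
      have := Real.log_nonneg hN1
      linarith
    have t4 : P ≤ ((N : ℝ) ^ (7 / 8 * a))⁻¹ := by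
      rw [hP, ← Real.rpow_neg hN0.le]
      exact Real.rpow_le_rpow_of_exponent_le hN1 (by linarith)
    have hq0 : 0 < (N : ℝ) ^ (7 / 8 * a) := by positivity
    calc (Real.log N + 2) * (3328 * (N : ℝ) ^ c / (r * (L * r * N)) ^ 2 +
        1536 * Real.sqrt ((N : ℝ) ^ c * (200 * C₁ * (N : ℝ) ^ c / N)) / r)
        ≤ (Real.log N + 2) * (G₁ * P) := mul_le_mul_of_nonneg_left t3 hl0
      _ ≤ (1 / (8 * G₁) * (N : ℝ) ^ (7 / 8 * a)) * (G₁ * ((N : ℝ) ^ (7 / 8 * a))⁻¹) := by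
          refine mul_le_mul h3 (mul_le_mul_of_nonneg_left t4 hG₁0.le) (by positivity)
            (by positivity)
      _ = 1 / 8 := by
          field_simp
  · -- the logarithm
    have h4 : 9 * (L * r * N) ^ 2 * (200 * C₁ * (N : ℝ) ^ c / N) =
        1800 * C₁ * L ^ 2 * (R * (N : ℝ) ^ c) := by
      rw [hR]
      field_simp
      ring
    have h5 : R * (N : ℝ) ^ c ≤ (N : ℝ) ^ (5 * a) := by
      calc R * (N : ℝ) ^ c ≤ (N : ℝ) ^ (4 * a) * (N : ℝ) ^ c :=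
            mul_le_mul_of_nonneg_right hR2 (by positivity)
        _ = (N : ℝ) ^ (4 * a + c) := by rw [← Real.rpow_add hN0]
        _ ≤ (N : ℝ) ^ (5 * a) := Real.rpow_le_rpow_of_exponent_le hN1 (by linarith)
    have h6 : 1 ≤ (N : ℝ) ^ (5 * a) := Real.one_le_rpow hN1 (by linarith)
    have h7 : 2 + 2 * (9 * (L * r * N) ^ 2 * (200 * C₁ * (N : ℝ) ^ c / N)) ≤
        G₂ * (N : ℝ) ^ (5 * a) := by
      rw [h4, hG₂]
      have h8 := mul_le_mul_of_nonneg_left h5 (show 0 ≤ 3600 * C₁ * L ^ 2 by positivity)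
      nlinarith
    have h8 : 0 < 2 + 2 * (9 * (L * r * N) ^ 2 * (200 * C₁ * (N : ℝ) ^ c / N)) := by positivity
    refine (Real.log_le_log h8 h7).trans ?_
    rw [Real.log_mul (by positivity) (by positivity), Real.log_rpow hN0]
    linarith

end N67

/-- **BUDN.** The budget at one time. -/
theorem budN67 {ρ : Measure ℝ} [IsProbabilityMeasure ρ] (hρ : EM ρ) {β : ℝ} (hBox : BoxR 2 ρ β)
    (hTail : TailR 2 ρ β) (hNP : NPB 2 ρ β) : BudN ρ β := by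
  classical
  intro M hM
  obtain ⟨C₀, hC₀, hNP⟩ := hNP
  obtain ⟨C₁, hC₁def⟩ : ∃ C₁, C₁ = C₀ + 1 := ⟨_, rfl⟩
  have hC₁ : 1 ≤ C₁ := by linarith
  obtain ⟨L, hLdef⟩ : ∃ L, L = 8 * (4 * M + 2) := ⟨_, rfl⟩
  have hL1 : 1 ≤ L := by linarith
  refine ⟨6, by norm_num, ?_⟩
  intro h δ a c hδ ha ha8 hc hca hcurv
  obtain ⟨N₀, hN₀, hnum⟩ := N67.num hC₁ hL1 hδ ha ha8 hc hca
  refine ⟨N₀, fun N hN r hr1 hr2 hVa hEn hNb => ?_⟩
  obtain ⟨hr0, hrδ, hw1, hNa, hleak8, hlog6⟩ := hnum N hN r hr1 hr2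
  have hN1000 : 1000 ≤ N := hN₀.trans hN
  have hNR : (1000 : ℝ) ≤ N := by exact_mod_cast hN1000
  have hN0 : (0 : ℝ) < N := by linarith
  obtain ⟨K, hK⟩ : ∃ K, K = (N : ℝ) ^ c := ⟨_, rfl⟩
  have hK1 : 1 ≤ K := by
    rw [hK]
    exact Real.one_le_rpow (by linarith) hc.le
  obtain ⟨w, hw⟩ : ∃ w, w = L * r * N := ⟨_, rfl⟩
  obtain ⟨x, hx⟩ : ∃ x, x = 200 * C₁ * K / N := ⟨_, rfl⟩
  rw [← hK, ← hw, ← hx] at hleak8 hlog6
  rw [← hw] at hw1
  have hx0 : 0 < x := by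
    rw [hx]
    positivity
  intro I B θ D hB hD hJ
  obtain ⟨Θ, hΘ⟩ : ∃ Θ, Θ = ∑ p ∈ I, θ p := ⟨_, rfl⟩
  have hθ0 : ∀ p ∈ I, 0 ≤ θ p := fun p hp => (hB p hp).2.2
  have hΘ0 : 0 ≤ Θ := hΘ ▸ Finset.sum_nonneg hθ0
  have hSt0 : ∀ t : ℕ, 0 ≤ St ρ β h N t := fun t => by
    unfold St
    exact integral_nonneg fun η => Finset.sum_nonneg fun y _ => sq_nonneg _
  obtain ⟨V, hV⟩ : ∃ V, V = (D + 1) * I.card + 6 * a * Real.log N := ⟨_, rfl⟩
  have hlog0 : 0 ≤ Real.log N := Real.log_nonneg (by linarith)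
  have hV0 : 0 ≤ V := by
    rw [hV]
    positivity
  have hVa' : ∀ t : ℕ, t ≤ N → Va ρ β h t ≤ K := fun t ht => by
    rw [hK]
    exact hVa t ht
  -- a good time
  have hgood : ∀ t ∈ Finset.range N, N ≤ 10 * t → St ρ β h N t ≤ x →
      ∑ p ∈ I, θ p * us ρ β h N t (B p) ≤ V + 1 / 8 * Θ := by
    intro t htr h10 hStx
    have htn : t ≤ N := (Finset.mem_range.1 htr).le
    have htn' : (t : ℝ) ≤ N := by exact_mod_cast htn
    obtain ⟨v, -, hv⟩ := sub94 (d := 2) (by norm_num) hρ β h t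
    have hv' : ∀ g : Vec 2, A ρ β h t + inner ℝ v (g - h) ≤ A ρ β g t := by
      intro g
      have := hv (g - h)
      rwa [add_sub_cancel] at this
    have hden : ∀ (j : Fin 2) (s : ℝ), (s = 1 ∨ s = -1) →
        ∃ g : Vec 2, ‖g - h - (s * r) • ej j‖ ≤ r / 9 ∧ Va ρ β g t ≤ K := by
      intro j s hs
      obtain ⟨g, hg1, hg2⟩ := hNb j s hs
      refine ⟨g, hg2, ?_⟩
      rw [hK]
      refine hg1 t ?_
      have h1 : N ≤ 64 * N ^ 3 := by
        have h2 : N ≤ N ^ 3 := Nat.le_self_pow (by norm_num) N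
        omega
      exact htn.trans h1
    have hsd : ∀ j : Fin 2, A ρ β (h + (2 * r) • ej j) t + A ρ β (h - (2 * r) • ej j) t -
        2 * A ρ β h t ≤ r * w / 8 := by
      intro j
      have h1 := hcurv (2 * r) (by linarith) hrδ j
      have h2 := A_le_lam (d := 2) (by norm_num) hρ β (h + (2 * r) • ej j) t
      have h3 := A_le_lam (d := 2) (by norm_num) hρ β (h - (2 * r) • ej j) t
      have h4 := hEn t htn
      unfold En at h4
      have h5 : (t : ℝ) * (lam ρ β (h + (2 * r) • ej j) + lam ρ β (h - (2 * r) • ej j) -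
          2 * lam ρ β h) ≤ t * (M * (2 * r) ^ 2) :=
        mul_le_mul_of_nonneg_left h1 (Nat.cast_nonneg t)
      have h6 : (t : ℝ) * (M * (2 * r) ^ 2) ≤ N * (M * (2 * r) ^ 2) :=
        mul_le_mul_of_nonneg_right htn' (by positivity)
      have h7 : r * w / 8 = (4 * M + 2) * (r ^ 2 * N) := by
        rw [hw, hLdef]
        ring
      have h8 : (N : ℝ) * (M * (2 * r) ^ 2) = 4 * M * (r ^ 2 * N) := by ring
      have h9 : (t : ℝ) * (lam ρ β (h + (2 * r) • ej j) + lam ρ β (h - (2 * r) • ej j) -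
        2 * lam ρ β h) = t * lam ρ β (h + (2 * r) • ej j) + t * lam ρ β (h - (2 * r) • ej j) -
          2 * (t * lam ρ β h) := by ring
      rw [h7]
      linarith
    -- the number of the shells
    obtain ⟨k1, hk1⟩ : ∃ k1 : ℕ, k1 = ⌈Real.log N⌉₊ + 1 := ⟨_, rfl⟩
    have hk1a : (k1 : ℝ) ≤ Real.log N + 2 := by
      rw [hk1]
      have := Nat.ceil_lt_add_one hlog0
      push_cast
      linarith
    have hk1b : 2 * (t : ℝ) < 16 ^ k1 * w := by
      have h1 : (N : ℝ) ≤ 16 ^ ⌈Real.log N⌉₊ := by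
        have h2 : Real.exp 1 ≤ 16 := by
          have := Real.exp_one_lt_d9
          linarith
        have h3 : (Real.exp 1) ^ ⌈Real.log N⌉₊ ≤ 16 ^ ⌈Real.log N⌉₊ :=
          pow_le_pow_left₀ (Real.exp_pos 1).le h2 _
        have h4 : (Real.exp 1) ^ ⌈Real.log N⌉₊ = Real.exp (⌈Real.log N⌉₊ : ℝ) := by
          rw [← Real.exp_nat_mul, mul_one]
        have h5 : (N : ℝ) = Real.exp (Real.log N) := (Real.exp_log hN0).symm
        have h6 : Real.exp (Real.log N) ≤ Real.exp (⌈Real.log N⌉₊ : ℝ) :=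
          Real.exp_le_exp.2 (Nat.le_ceil _)
        linarith
      have h2 : (16 : ℝ) ^ k1 = 16 ^ ⌈Real.log N⌉₊ * 16 := by
        rw [hk1, pow_succ]
      have h3 : (16 : ℝ) * N ≤ 16 ^ k1 := by
        rw [h2]
        linarith
      have h4 : (16 : ℝ) ^ k1 ≤ 16 ^ k1 * w := le_mul_of_one_le_right (by positivity) hw1
      linarith
    have hlk := leakOne67 hρ hBox hTail (K := K) (r1 := r) (w := w) (h := h) (v := v) htn hK1 hr0
      hw1 hk1b (hVa' N le_rfl) (hVa' (N - t) (by omega)) hden hsd hv'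
    have h1 : ∫ η, (1 - ∑ y ∈ (boxF 2 t).filter (fun y => ∀ j, |(emb y - v) j| < w),
        Qt β h N t y η) ∂(law 2 ρ) ≤ 1 / 8 := by
      refine hlk.trans (le_trans ?_ hleak8)
      have h2 : Real.sqrt (K * St ρ β h N t) ≤ Real.sqrt (K * x) :=
        Real.sqrt_le_sqrt (mul_le_mul_of_nonneg_left hStx (by linarith))
      have h3 : 1536 * Real.sqrt (K * St ρ β h N t) / r ≤ 1536 * Real.sqrt (K * x) / r :=
        div_le_div_of_nonneg_right (mul_le_mul_of_nonneg_left h2 (by norm_num)) hr0.le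
      refine mul_le_mul hk1a (by linarith) (by positivity) (by linarith)
    obtain ⟨Rr, hRdef⟩ : ∃ Rr, Rr = (boxF 2 t).filter
        (fun y => ∀ j, |(emb y - v) j| < w) := ⟨_, rfl⟩
    rw [← hRdef] at h1
    have hR : Rr ⊆ boxF 2 t := by
      rw [hRdef]
      exact Finset.filter_subset _ _
    have hcard : (Rr.card : ℝ) ≤ 9 * w ^ 2 := by
      refine card94 (v := v) hw1 _ fun y hy => ?_
      rw [hRdef, Finset.mem_filter] at hy
      exact hy.2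
    have h2 := one67 (ρ := ρ) (d := 2) (by norm_num) (β := β) (h := h) htn hR hcard h1 I B θ
      (D := D) hB hJ
    rw [← hΘ] at h2
    have h3 := log67 (D := D) (Y := 9 * w ^ 2 * St ρ β h N t) hD
      (mul_nonneg (by positivity) (hSt0 t)) I.card
    rw [← mul_assoc] at h3
    have h4 : 9 * w ^ 2 * St ρ β h N t ≤ 9 * w ^ 2 * x :=
      mul_le_mul_of_nonneg_left hStx (by positivity)
    have h5 : Real.log (2 + 2 * (9 * w ^ 2 * St ρ β h N t)) ≤ 6 * a * Real.log N := by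
      refine le_trans (Real.log_le_log ?_ (by linarith)) hlog6
      have : 0 ≤ 9 * w ^ 2 * St ρ β h N t := mul_nonneg (by positivity) (hSt0 t)
      linarith
    rw [hV]
    linarith
  -- a bad time
  have hbad : ∀ t ∈ Finset.range N, ∑ p ∈ I, θ p * us ρ β h N t (B p) ≤ Θ := by
    intro t htr
    rw [hΘ]
    exact Finset.sum_le_sum fun p hp => mul_le_of_le_one_right (hθ0 p hp)
      (us_le_one (by norm_num) (Finset.mem_range.1 htr).le (hB p hp).1)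
  have hSum : ∑ t ∈ Finset.Icc 1 N, St ρ β h N t ≤ C₁ * K := by
    refine (hNP h N).trans ?_
    calc C₀ * Va ρ β h N ≤ C₀ * K := mul_le_mul_of_nonneg_left (hVa' N le_rfl) hC₀
      _ ≤ C₁ * K := mul_le_mul_of_nonneg_right (by linarith) (by linarith)
  have h6 : C₁ * K ≤ (N : ℝ) / 200 * x := by
    rw [hx]
    refine le_of_eq ?_
    field_simp
  have hav := cnt67 hN1000 (fun t => ∑ p ∈ I, θ p * us ρ β h N t (B p)) (St ρ β h N) hSt0 hSum
    hx0 h6 hV0 hΘ0 hgood hbad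
  have hfin : ∑ p ∈ I, θ p * ((∑ t ∈ Finset.range N, us ρ β h N t (B p)) / N - 3 / 10) =
      (∑ t ∈ Finset.range N, ∑ p ∈ I, θ p * us ρ β h N t (B p)) / N - 3 / 10 * Θ := by
    rw [Finset.sum_comm, Finset.sum_div, hΘ, Finset.mul_sum, ← Finset.sum_sub_distrib]
    refine Finset.sum_congr rfl fun p _ => ?_
    rw [← Finset.mul_sum]
    ring
  rw [hfin]
  have h2 : V ≤ 6 * a * Real.log N + 6 * (D + 1) * I.card := by
    rw [hV]
    have : 0 ≤ (D + 1) * (I.card : ℝ) := by positivity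
    nlinarith
  linarith

end Pool.Agent.W_7d29a1_PA
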