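import Pool.Agent.W_7d29a1_PA.DefsPA
import Pool.Agent.W_7d29a1_UC.LogB92

/-!
CORN from COR and the superlogarithmic lower bound of the fluctuations (helper43).
-/

namespace Pool.Agent.W_7d29a1_PA

open MeasureTheory ProbabilityTheory Filter Topology Pool.Agent.W_MP_7d29a1_pr
  Pool.Agent.W_7d29a1_h46 Pool.Agent.W_7d29a1_h46u Pool.Agent.W_7d29a1_D2.B35
  Pool.Agent.W_7d29a1_Q29 Pool.Agent.W_7d29a1_R34 Pool.Agent.W_7d29a1_SP Pool.Agent.W_7d29a1_PL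

variable {d : ℕ} {ρ : Measure ℝ} [IsProbabilityMeasure ρ] {β : ℝ}

/-- The distance to the linear part is at most twice the larger of the two fluctuations. -/
lemma dist43 (hd : 0 < d) (hρ : EM ρ) (h : Vec d) (m : ℕ) :
    ∫ η, |X β h η m - m * lam ρ β h| ∂(law d ρ) ≤ 2 * fM ρ β h m := by
  have hc := (concU hd hρ β h m).1
  have h1 : ∫ η, |X β h η m - m * lam ρ β h| ∂(law d ρ) ≤
      ∫ η, (|X β h η m - A ρ β h m| + En ρ β h m) ∂(law d ρ) := by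
    refine integral_mono_ae (hc.sub (integrable_const _)).abs
      ((hc.sub (integrable_const _)).abs.add (integrable_const _)) (Eventually.of_forall
        fun η => ?_)
    have h2 := A_le_lam hd hρ β h m
    have h3 : |X β h η m - m * lam ρ β h| ≤
        |X β h η m - A ρ β h m| + |A ρ β h m - m * lam ρ β h| := abs_sub_le _ _ _
    have h4 : |A ρ β h m - m * lam ρ β h| = En ρ β h m := by
      rw [abs_of_nonpos (by linarith)]
      unfold En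
      ring
    show |X β h η m - m * lam ρ β h| ≤ |X β h η m - A ρ β h m| + En ρ β h m
    linarith
  have h0 : Integrable (fun η : Env d => |X β h η m - A ρ β h m|) (law d ρ) :=
    (hc.sub (integrable_const _)).abs
  rw [integral_add h0 (integrable_const _)] at h1
  have h5 : ∫ η, |X β h η m - A ρ β h m| ∂(law d ρ) = Fn ρ β h m := rfl
  have h6 : ∫ _η : Env d, En ρ β h m ∂(law d ρ) = En ρ β h m := by simp
  have h7 : En ρ β h m ≤ fM ρ β h m := le_max_left _ _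
  have h8 : Fn ρ β h m ≤ fM ρ β h m := le_max_right _ _
  linarith

/-- The core at one scale without a lower bound of the fluctuations. -/
theorem corE43 (hd : 0 < d) (hρ : EM ρ) (hC : CorP d ρ β) : ∀ g C₀ : ℝ, 0 < g → 0 ≤ C₀ →
    ∃ c : ℝ, 0 < c ∧ ∀ h : Vec d,
      lam ρ β h + g ≤ Real.log (Phi h) + Real.log (∫ t, Real.exp (β * t) ∂ρ) →
        ∃ n₀ : ℕ, ∀ n : ℕ, n₀ ≤ n →
          (∀ k : ℕ, k ≤ 4 * n → Va ρ β h k ≤ (n : ℝ) ^ c ∧ En ρ β h k ≤ (n : ℝ) ^ c) →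
            ¬ Bd ρ β h n (c * Real.log n) C₀ := by
  intro g C₀ hg hC₀
  obtain ⟨c, B, hc, H⟩ := hC g C₀ hg hC₀
  refine ⟨c, hc, fun h hgap => ?_⟩
  obtain ⟨n₀, hn₀⟩ := H h hgap
  have hV : VSD ρ β h := by
    unfold VSD
    linarith
  have hlog := Pool.Agent.W_7d29a1_UC.logB92 hd hρ β h hV (32 * |B| + 1)
  have ht : Tendsto (fun n : ℕ => ⌊(n : ℝ) ^ (1 / 8 : ℝ)⌋₊) atTop atTop :=
    tendsto_nat_floor_atTop.comp
      ((tendsto_rpow_atTop (by norm_num)).comp tendsto_natCast_atTop_atTop)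
  have h2 := ht.eventually hlog
  have h3 : Tendsto (fun n : ℕ => (n : ℝ) ^ (1 / 16 : ℝ)) atTop atTop :=
    (tendsto_rpow_atTop (by norm_num)).comp tendsto_natCast_atTop_atTop
  obtain ⟨n₁, hn₁⟩ := eventually_atTop.1
    (((h2.and (h3.eventually_ge_atTop 2)).and (eventually_ge_atTop n₀)).and
      (eventually_ge_atTop 1))
  refine ⟨n₁, fun n hn hK => ?_⟩
  obtain ⟨⟨⟨⟨m, hm, hmB⟩, h16⟩, hnn⟩, h1n⟩ := hn₁ n hn
  refine hn₀ n hnn hK ⟨m, ?_, ?_⟩
  · have h4 : (m : ℝ) ≤ (n : ℝ) ^ (1 / 8 : ℝ) :=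
      (Nat.cast_le.2 hm).trans (Nat.floor_le (by positivity))
    have h5 : (m : ℝ) ^ 8 ≤ (n : ℝ) := by
      calc (m : ℝ) ^ 8 ≤ ((n : ℝ) ^ (1 / 8 : ℝ)) ^ 8 :=
            pow_le_pow_left₀ (Nat.cast_nonneg m) h4 8
        _ = n := by
            rw [← Real.rpow_natCast, ← Real.rpow_mul (Nat.cast_nonneg n)]
            norm_num
    exact_mod_cast h5
  · have hn0 : (0 : ℝ) < n := by exact_mod_cast h1n
    have h6 : (n : ℝ) ^ (1 / 16 : ℝ) ≤ (⌊(n : ℝ) ^ (1 / 8 : ℝ)⌋₊ : ℝ) := by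
      have h7 : (n : ℝ) ^ (1 / 8 : ℝ) = (n : ℝ) ^ (1 / 16 : ℝ) * (n : ℝ) ^ (1 / 16 : ℝ) := by
        rw [← Real.rpow_add hn0]
        norm_num
      have h8 := Nat.lt_floor_add_one ((n : ℝ) ^ (1 / 8 : ℝ))
      have h9 : 2 * (n : ℝ) ^ (1 / 16 : ℝ) ≤ (n : ℝ) ^ (1 / 8 : ℝ) := by
        rw [h7]
        exact mul_le_mul_of_nonneg_right h16 (by linarith)
      linarith
    have h10 : Real.log n ≤ 16 * Real.log (⌊(n : ℝ) ^ (1 / 8 : ℝ)⌋₊ : ℝ) := by
      have h11 := Real.log_le_log (by positivity) h6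
      rw [Real.log_rpow hn0] at h11
      linarith
    have hl0 : 0 ≤ Real.log n := Real.log_nonneg (by exact_mod_cast h1n)
    have h12 : B * Real.log n ≤ |B| * (16 * Real.log (⌊(n : ℝ) ^ (1 / 8 : ℝ)⌋₊ : ℝ)) :=
      mul_le_mul (le_abs_self B) h10 hl0 (abs_nonneg B)
    have h13 := dist43 (β := β) hd hρ h m
    have h14 : 0 ≤ Real.log (⌊(n : ℝ) ^ (1 / 8 : ℝ)⌋₊ : ℝ) := by linarith
    nlinarith

/-- CORN from COR. -/
theorem corN43 {ρ : Measure ℝ} [IsProbabilityMeasure ρ] {β : ℝ} (hρ : EM ρ)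
    (hC : CorP 2 ρ β) : CorN ρ β := corE43 (by norm_num) hρ hC

end Pool.Agent.W_7d29a1_PA
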