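import Pool.Agent.W_7d29a1_NR.Cor11

/-!
The nonrandom fluctuation at one scale, from theorem NR (helper33).
-/

set_option autoImplicit false

namespace Pool.Agent.W_7d29a1_PA.P33

open MeasureTheory ProbabilityTheory Filter Topology Pool.Agent.W_MP_7d29a1_pr
  Pool.Agent.W_7d29a1_h46 Pool.Agent.W_7d29a1_h46u Pool.Agent.W_7d29a1_D2.B35
  Pool.Agent.W_7d29a1_Q29 Pool.Agent.W_7d29a1_R34 Pool.Agent.W_7d29a1_SP Pool.Agent.W_7d29a1_NR

/-- The nonrandom fluctuation up to `4 N`, from the variances up to `64 N ^ 3`. -/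
theorem ener33 {d : ℕ} (hd : 0 < d) {ρ : Measure ℝ} [IsProbabilityMeasure ρ] (hρ : EM ρ) {β : ℝ}
    (hN : NrS d ρ β) (h : Vec d) {c c₁ : ℝ} (hcc : c ≤ c₁) (hc1 : 0 < c₁) :
    ∀ᶠ N : ℕ in atTop, (∀ m : ℕ, m ≤ 64 * N ^ 3 → Va ρ β h m ≤ (N : ℝ) ^ c) →
      ∀ k : ℕ, k ≤ 4 * N → En ρ β h k ≤ (N : ℝ) ^ c₁ := by
  obtain ⟨θ, hθ, hL⟩ := corL11 hd hρ hN
  obtain ⟨C, hC⟩ := hL h
  set t : ℝ := max θ 0 with ht
  have ht0 : 0 ≤ t := le_max_right _ _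
  have ht1 : t < 1 := max_lt hθ one_pos
  set ε : ℝ := c₁ / 4 with hε
  have hε0 : 0 < ε := by positivity
  have h4 : Tendsto (fun N : ℕ => 4 * N) atTop atTop :=
    tendsto_id.const_mul_atTop' (by norm_num)
  have hb : Tendsto (fun N : ℕ => (N : ℝ) ^ ε) atTop atTop :=
    (tendsto_rpow_atTop hε0).comp tendsto_natCast_atTop_atTop
  filter_upwards [h4.eventually (WT41.subT41 ht1 |C| hε0),
    hb.eventually_ge_atTop (2 * Real.exp |C| * 4 ^ ε), hb.eventually_ge_atTop (En ρ β h 0),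
    eventually_ge_atTop 1] with N h1 h2 h3 hN1 hV k hk
  have hN1' : (1 : ℝ) ≤ N := by exact_mod_cast hN1
  have hN0 : (0 : ℝ) < N := by linarith
  rcases Nat.eq_zero_or_pos k with hk0 | hk0
  · rw [hk0]
    exact h3.trans (Real.rpow_le_rpow_of_exponent_le hN1' (by rw [hε]; linarith))
  have hM0 : (0 : ℝ) ≤ (N : ℝ) ^ (c₁ / 2) := by positivity
  have hk3 : k ^ 3 ≤ 64 * N ^ 3 := by
    calc k ^ 3 ≤ (4 * N) ^ 3 := Nat.pow_le_pow_left hk 3
      _ = 64 * N ^ 3 := by ring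
  have h5 := hC k ((N : ℝ) ^ (c₁ / 2)) hk0 (fun n hn => by
    refine (hV n (hn.trans hk3)).trans ?_
    rw [← Real.rpow_natCast, ← Real.rpow_mul hN0.le]
    exact Real.rpow_le_rpow_of_exponent_le hN1' (by push_cast; linarith)) hM0
  refine h5.trans ?_
  have hkR : (k : ℝ) ≤ 4 * N := by exact_mod_cast hk
  have hk1 : (1 : ℝ) ≤ k := by exact_mod_cast hk0
  have hl1 : 1 ≤ Real.log ((k : ℝ) + 2) := by
    rw [Real.le_log_iff_exp_le (by linarith)]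
    have := Real.exp_one_lt_d9
    linarith
  have h6 : Real.log ((k : ℝ) + 2) ^ θ ≤ Real.log (((4 * N : ℕ) : ℝ) + 2) ^ t := by
    refine (Real.rpow_le_rpow_of_exponent_le hl1 (le_max_left θ 0)).trans ?_
    refine Real.rpow_le_rpow (by linarith) (Real.log_le_log (by linarith) ?_) ht0
    push_cast
    linarith
  have h7 : 0 ≤ Real.log ((k : ℝ) + 2) ^ θ := Real.rpow_nonneg (by linarith) _
  have h8 : Real.exp (C * (1 + Real.log (k + 2) ^ θ)) ≤ Real.exp |C| * (4 ^ ε * (N : ℝ) ^ ε) := by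
    have h9 : C * (1 + Real.log (k + 2) ^ θ) ≤
        |C| + |C| * Real.log (((4 * N : ℕ) : ℝ) + 2) ^ t := by
      have e1 : C * (1 + Real.log (k + 2) ^ θ) ≤ |C| * (1 + Real.log (k + 2) ^ θ) :=
        mul_le_mul_of_nonneg_right (le_abs_self C) (by linarith)
      have e2 := mul_le_mul_of_nonneg_left h6 (abs_nonneg C)
      linarith
    refine (Real.exp_le_exp.2 h9).trans ?_
    rw [Real.exp_add]
    refine mul_le_mul_of_nonneg_left ?_ (Real.exp_pos _).le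
    refine h1.trans (le_of_eq ?_)
    push_cast
    rw [Real.mul_rpow (by norm_num) hN0.le]
  have h10 : 1 ≤ (N : ℝ) ^ (c₁ / 2) := Real.one_le_rpow hN1' (by linarith)
  have h11 : (1 + (N : ℝ) ^ (c₁ / 2)) * Real.exp (C * (1 + Real.log (k + 2) ^ θ)) ≤
      (2 * (N : ℝ) ^ (c₁ / 2)) * (Real.exp |C| * (4 ^ ε * (N : ℝ) ^ ε)) :=
    mul_le_mul (by linarith) h8 (Real.exp_pos _).le (by linarith)
  refine h11.trans ?_
  have e3 : (N : ℝ) ^ c₁ = (N : ℝ) ^ (c₁ / 2) * ((N : ℝ) ^ ε * (N : ℝ) ^ ε) := by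
    rw [← Real.rpow_add hN0, ← Real.rpow_add hN0]
    congr 1
    rw [hε]
    ring
  have h12 := mul_le_mul_of_nonneg_right h2 (show 0 ≤ (N : ℝ) ^ ε by positivity)
  have h13 := mul_le_mul_of_nonneg_left h12 hM0
  rw [e3]
  calc 2 * (N : ℝ) ^ (c₁ / 2) * (Real.exp |C| * (4 ^ ε * (N : ℝ) ^ ε))
      = (N : ℝ) ^ (c₁ / 2) * (2 * Real.exp |C| * 4 ^ ε * (N : ℝ) ^ ε) := by ring
    _ ≤ _ := h13

end Pool.Agent.W_7d29a1_PA.P33
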