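import Pool.Agent.W_7d29a1_PA.DefsPA
import Pool.Agent.W_7d29a1_PA.Ener33
import Pool.Agent.W_7d29a1_PL.CorL63

/-!
ENN from theorem NR and CORN from the core at one scale (helper33).
-/

set_option autoImplicit false

namespace Pool.Agent.W_7d29a1_PA

open MeasureTheory ProbabilityTheory Filter Topology Pool.Agent.W_MP_7d29a1_pr
  Pool.Agent.W_7d29a1_h46 Pool.Agent.W_7d29a1_h46u Pool.Agent.W_7d29a1_D2.B35
  Pool.Agent.W_7d29a1_Q29 Pool.Agent.W_7d29a1_R34 Pool.Agent.W_7d29a1_SP Pool.Agent.W_7d29a1_PL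

/-- ENN, from the gap bound of theorem NR (every law for which it holds). -/
theorem enN33 {ρ : Measure ℝ} [IsProbabilityMeasure ρ] (hρ : EM ρ) {β : ℝ}
    (hN : Pool.Agent.W_7d29a1_NR.NrS 2 ρ β) : EnN ρ β := by
  intro h c a hc hca
  obtain ⟨N₀, H⟩ := eventually_atTop.1 (P33.ener33 (d := 2) two_pos hρ hN h hca.le (hc.trans hca))
  exact ⟨N₀, H⟩

/-- CORN is the core at one scale in two transversal dimensions. -/
theorem corN33 {ρ : Measure ℝ} {β : ℝ} (h : CorL 2 ρ β) : CorN ρ β := h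

end Pool.Agent.W_7d29a1_PA
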