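import Pool.Agent.W_7d29a1_PA.DefsPA

/-!
A tilt with a small variance has a hole of small variance at every scale (helper33).
-/

set_option autoImplicit false

namespace Pool.Agent.W_7d29a1_PA

open MeasureTheory ProbabilityTheory Filter Topology Pool.Agent.W_MP_7d29a1_pr
  Pool.Agent.W_7d29a1_h46 Pool.Agent.W_7d29a1_h46u Pool.Agent.W_7d29a1_D2.B35
  Pool.Agent.W_7d29a1_Q29 Pool.Agent.W_7d29a1_R34 Pool.Agent.W_7d29a1_SP Pool.Agent.W_7d29a1_PL

/-- The budget is monotone in its value. -/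
lemma bdMono33 {d : ℕ} {ρ : Measure ℝ} {β : ℝ} {h : Vec d} {n : ℕ} {V V' C : ℝ} (hV : V ≤ V')
    (hb : Bd ρ β h n V C) : Bd ρ β h n V' C := fun I B θ D h1 h2 h3 =>
  (hb I B θ D h1 h2 h3).trans (by linarith)

/-- PNTN from BUDN, ENN and CORN. -/
theorem pntN33 {ρ : Measure ℝ} {β : ℝ} (hB : BudN ρ β) (hE : EnN ρ β) (hC : CorN ρ β) :
    PntN ρ β := by
  intro g M hg hM
  obtain ⟨C, hC0, hBC⟩ := hB M hM
  obtain ⟨c₁, hc₁, hCor⟩ := hC g C hg hC0
  set a : ℝ := min (1 / 8) (c₁ / (C + 1)) with ha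
  have ha0 : 0 < a := lt_min (by norm_num) (by positivity)
  have ha8 : a ≤ 1 / 8 := min_le_left _ _
  have ha1 : a * (C + 1) ≤ c₁ := by
    have h1 : a ≤ c₁ / (C + 1) := min_le_right _ _
    rwa [le_div_iff₀ (by linarith)] at h1
  have hac : a ≤ c₁ := by nlinarith
  have hCa : C * a ≤ c₁ := by nlinarith
  refine ⟨a, a / 16, ha0, ha8, by positivity, fun h δ hδ hgap hcurv => ?_⟩
  obtain ⟨N₁, h1⟩ := hBC h δ a (a / 16) hδ ha0 ha8 (by positivity) (by linarith) hcurv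
  obtain ⟨N₂, h2⟩ := hE h (a / 16) a (by positivity) (by linarith)
  obtain ⟨N₃, h3⟩ := hCor h hgap
  refine ⟨max (max N₁ N₂) (max N₃ 1), fun N hN r hr1 hr2 hL hNb => ?_⟩
  have hN1 : N₁ ≤ N := (le_max_left _ _).trans ((le_max_left _ _).trans hN)
  have hN2 : N₂ ≤ N := (le_max_right _ _).trans ((le_max_left _ _).trans hN)
  have hN3 : N₃ ≤ N := (le_max_left _ _).trans ((le_max_right _ _).trans hN)
  have hN4 : 1 ≤ N := (le_max_right _ _).trans ((le_max_right _ _).trans hN)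
  have hNR : (1 : ℝ) ≤ N := by exact_mod_cast hN4
  have hNN : N ≤ N ^ 3 := Nat.le_self_pow (by norm_num) N
  have hEn : ∀ m : ℕ, m ≤ 4 * N → En ρ β h m ≤ (N : ℝ) ^ a := h2 N hN2 hL
  have hbd : Bd ρ β h N (C * a * Real.log N) C :=
    h1 N hN1 r hr1 hr2 (fun m hm => hL m (by omega)) (fun m hm => hEn m (by omega)) hNb
  refine h3 N hN3 (fun k hk => ⟨?_, ?_⟩)
    (bdMono33 (mul_le_mul_of_nonneg_right hCa (Real.log_nonneg hNR)) hbd)
  · refine (hL k (by omega)).trans (Real.rpow_le_rpow_of_exponent_le hNR ?_)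
    linarith
  · exact (hEn k hk).trans (Real.rpow_le_rpow_of_exponent_le hNR hac)

end Pool.Agent.W_7d29a1_PA
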