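import Pool.Agent.W_7d29a1_PA.DefsPA
import Pool.Agent.W_7d29a1_NR.MonG43

/-!
Theorem PLA, from the largest variance up to `n` to the variance at `n` (monotonicity of the
variance up to a subpolynomial factor), helper43.
-/

namespace Pool.Agent.W_7d29a1_PA

open MeasureTheory ProbabilityTheory Filter Topology Pool.Agent.W_MP_7d29a1_pr
  Pool.Agent.W_7d29a1_h46 Pool.Agent.W_7d29a1_h46u Pool.Agent.W_7d29a1_D2.B35
  Pool.Agent.W_7d29a1_Q29 Pool.Agent.W_7d29a1_R34 Pool.Agent.W_7d29a1_SP Pool.Agent.W_7d29a1_PL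

/-- The plug: every law of `MonP`. -/
theorem mainPA43 {ρ : Measure ℝ} [IsProbabilityMeasure ρ] {β t : ℝ} (ht0 : 0 < t) (ht1 : t < 1)
    (hM : Pool.Agent.W_7d29a1_NR.MonP 2 ρ β t) (hA : AllN ρ β) : MainPA ρ β := by
  filter_upwards [hA] with h hh hV
  obtain ⟨c, hc, hn⟩ := hh hV
  exact ⟨c / 2, by linarith,
    Pool.Agent.W_7d29a1_NR.monAll43 ht0 ht1 hM h (by linarith) (by linarith) hn⟩

end Pool.Agent.W_7d29a1_PA
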