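import Pool.Agent.W_7d29a1_PA.PorP8
import Pool.Agent.W_7d29a1_PA.Pnt33
import Pool.Agent.W_7d29a1_PA.EnN33
import Pool.Agent.W_7d29a1_PA.BudN67
import Pool.Agent.W_7d29a1_PA.CorN43
import Pool.Agent.W_7d29a1_PA.AllN18
import Pool.Agent.W_7d29a1_PA.VarA43
import Pool.Agent.W_7d29a1_NR.MonU44
import Pool.Agent.W_7d29a1_NR.NrAll86
import Pool.Agent.W_7d29a1_PL.FinX73

/-!
Theorem PLA: a power law for the variance at all large times, at almost every tilt, in two
transversal dimensions, every law with exponential moments (helper81): assembly.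
-/

namespace Pool.Agent.W_7d29a1_PA

open MeasureTheory ProbabilityTheory Filter Topology Pool.Agent.W_MP_7d29a1_pr
  Pool.Agent.W_7d29a1_h46 Pool.Agent.W_7d29a1_h46u Pool.Agent.W_7d29a1_D2.B35
  Pool.Agent.W_7d29a1_Q29 Pool.Agent.W_7d29a1_R34 Pool.Agent.W_7d29a1_SP Pool.Agent.W_7d29a1_PL
  Pool.Agent.W_7d29a1_NR

variable {ρ : Measure ℝ} [IsProbabilityMeasure ρ]

/-- A tilt with a small variance has a hole of small variance at every scale, every law. -/
theorem pntNU81 (hρ : EM ρ) (hnc : ∀ c : ℝ, ρ {c} ≠ 1) {β : ℝ} (hβ : 0 < β) : PntN ρ β := by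
  have hd : 0 < 2 := by norm_num
  exact pntN33 (budN67 hρ (box34 hd hρ β) (tail13 hd hρ β) (npb98 hd hρ hnc hβ))
    (enN33 hρ (nrAll86 hd hρ hnc hβ)) (corN43 hρ (corU73 hd hρ hnc hβ))

/-- The largest variance is at least a power, at all large times, every law. -/
theorem allNU81 (hρ : EM ρ) (hnc : ∀ c : ℝ, ρ {c} ≠ 1) {β : ℝ} (hβ : 0 < β) : AllN ρ β :=
  allN18 porP8 (pntNU81 hρ hnc hβ) (curv13 hρ)

/-- **Theorem PLA**, every law with exponential moments. In dimension two, for almost every tilt of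
very strong disorder there is `c > 0` such that the variance of the logarithm of the partition
function is at least `n ^ c` for all large `n`. -/
theorem mainPAU81 (hρ : EM ρ) (hnc : ∀ c : ℝ, ρ {c} ≠ 1) {β : ℝ} (hβ : 0 < β) : MainPA ρ β := by
  obtain ⟨t, ht0, ht1, hM⟩ := monU44 (d := 2) (by norm_num) hρ hnc hβ
  exact mainPA43 ht0 ht1 hM (allNU81 hρ hnc hβ)

end Pool.Agent.W_7d29a1_PA
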