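import Pool.Agent.W_7d29a1_PA.DefsPA
import Pool.Agent.W_7d29a1_WP.ExpWP52

/-!
Theorem PLA in the letters of the problem: `χ(h) > 0` for the exponent of the problem.
-/

namespace Pool.Agent.W_7d29a1_PA

open MeasureTheory ProbabilityTheory Filter Topology Pool.Agent.W_MP_7d29a1_pr
  Pool.Agent.W_7d29a1_h46 Pool.Agent.W_7d29a1_h46u Pool.Agent.W_7d29a1_D2
  Pool.Agent.W_7d29a1_D2.B35 Pool.Agent.W_7d29a1_V Pool.Agent.W_7d29a1_VT
  Pool.Agent.W_7d29a1_Q29 Pool.Agent.W_7d29a1_SD Pool.Agent.W_7d29a1_PL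
  Pool.Agent.W_7d29a1_WP

variable {Ω : Type*} [MeasurableSpace Ω] {μ : Measure Ω} [IsProbabilityMeasure μ] {d : ℕ}
  {ρ : Measure ℝ} [IsProbabilityMeasure ρ] {ω : ℕ × Site d → Ω → ℝ} {β : ℝ}

/-- The variance of the problem is `Va`. -/
lemma varZ52 (hd : 0 < d) (hω : IID μ ρ ω) (hρ : EM ρ) (h : Vec d) (n : ℕ) :
    Var[fun y => Real.log (Zn β h (fun p => ω p y) n); μ] = Va ρ β h n := by
  rw [var_eq53 hd hω hρ]
  unfold Va
  simp only [sq_abs]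

/-- The set of the exponent `χ(h)` is bounded above. -/
lemma chiT_bdd52 (hd : 0 < d) (hω : IID μ ρ ω) (hρ : EM ρ) (h : Vec d) :
    BddAbove {x : ℝ | 0 < x ∧ ∀ᶠ n : ℕ in atTop,
      (n : ℝ) ^ (2 * x) ≤ Var[fun y => Real.log (Zn β h (fun p => ω p y) n); μ]} := by
  obtain ⟨-, hF⟩ := (mem_chiSetF (μ := μ) (β := β) hd hω hρ h (1 / 2)).1
    (half_mem_chiSetF hd hω hρ h)
  obtain ⟨C, hC⟩ := hF 2
  refine ⟨1, fun x hx => ?_⟩
  by_contra hcon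
  have hx1 : 1 < x := not_le.1 hcon
  refine pow_fr52 (a := 2 * x - 1) (C := C) (by linarith) ?_
  refine Eventually.frequently ?_
  filter_upwards [hx.2, eventually_ge_atTop 1] with n hn hn1
  have hn0 : (0 : ℝ) < n := by exact_mod_cast hn1
  have h2 := hC n hn1
  rw [var_eq53 hd hω hρ] at hn
  have e1 : (n : ℝ) ^ ((1 / 2 : ℝ) * ((2 : ℕ) : ℝ)) = n := by
    rw [show ((1 / 2 : ℝ) * ((2 : ℕ) : ℝ)) = 1 by norm_num, Real.rpow_one]
  rw [e1] at h2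
  have e2 : (n : ℝ) ^ (2 * x) = (n : ℝ) ^ (2 * x - 1) * n := by
    rw [← Real.rpow_add_one hn0.ne']
    congr 1
    ring
  rw [e2] at hn
  exact le_of_mul_le_mul_right (hn.trans h2) hn0

/-- The variance is `≥ n ^ c` for all large `n`: the exponent of the problem is at least `c / 2`. -/
theorem chiT_ev52 (hd : 0 < d) (hω : IID μ ρ ω) (hρ : EM ρ) {h : Vec d} {c : ℝ} (hc : 0 < c)
    (H : ∀ᶠ n : ℕ in atTop, (n : ℝ) ^ c ≤ Va ρ β h n) : c / 2 ≤ chiT μ β ω h := by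
  refine le_csSup (chiT_bdd52 hd hω hρ h) ⟨by linarith, ?_⟩
  filter_upwards [H] with n hn
  rw [varZ52 hd hω hρ]
  rw [show 2 * (c / 2) = c by ring]
  exact hn

/-- **`d = 2`, every `β > 0`: `χ(h) > 0` for the exponent of the problem, at almost every
tilt.** -/
theorem trPA52 (hω : IID μ ρ ω) (hρ : EM ρ) (hnc : ∀ c : ℝ, ρ {c} ≠ 1) (hβ : 0 < β)
    (hd : d = 2) (hM : MainPA ρ β) : ∀ᵐ h : Vec d, 0 < chiT μ β ω h := by
  subst hd
  filter_upwards [hM] with h hh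
  obtain ⟨c, hc, H⟩ := hh (W_7d29a1_L2.vsd2 hρ hnc hβ h)
  have := chiT_ev52 two_pos hω hρ hc H
  linarith

/-- The same in the letters of `Lit29`. -/
theorem trPAL52 (hω : IID μ ρ ω) (hρ : EM ρ) (hnc : ∀ c : ℝ, ρ {c} ≠ 1) (hβ : 0 < β)
    (hd : d = 2) (hM : MainPA ρ β) : ∀ᵐ h : Vec d, ∃ c : ℝ, 0 < c ∧ ∀ᶠ n : ℕ in atTop,
      (n : ℝ) ^ c ≤ Var[Lit29.X ω β h n; μ] := by
  subst hd
  filter_upwards [hM] with h hh
  obtain ⟨c, hc, H⟩ := hh (W_7d29a1_L2.vsd2 hρ hnc hβ h)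
  refine ⟨c, hc, H.mono fun n hn => ?_⟩
  rw [lvar52 two_pos hω hρ]
  exact hn

end Pool.Agent.W_7d29a1_PA
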