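import Pool.Agent.W_7d29a1_PA.DefsPA
import Pool.Agent.W_7d29a1_Q29.Fin29
import Pool.Agent.W_7d29a1_D2.ChiF80

/-!
Theorem PLA in the letters of the problem: the fluctuation exponent of the problem is positive at
almost every tilt of very strong disorder, in two transversal dimensions (helper43).
-/

namespace Pool.Agent.W_7d29a1_PA

open MeasureTheory ProbabilityTheory Filter Topology Pool.Agent.W_MP_7d29a1_pr
  Pool.Agent.W_7d29a1_h46 Pool.Agent.W_7d29a1_h46u Pool.Agent.W_7d29a1_D2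
  Pool.Agent.W_7d29a1_D2.B35
  Pool.Agent.W_7d29a1_Q29 Pool.Agent.W_7d29a1_R34 Pool.Agent.W_7d29a1_SP Pool.Agent.W_7d29a1_PL

variable {d : ℕ} {Ω : Type*} [MeasurableSpace Ω] {μ : Measure Ω} [IsProbabilityMeasure μ]
  {ρ : Measure ℝ} [IsProbabilityMeasure ρ] {ω : ℕ × Site d → Ω → ℝ} {β : ℝ}

/-- The exponents of the lower bounds of the variance are at most `1 / 2`. -/
lemma le_half43 (hd : 0 < d) (hω : IID μ ρ ω) (hρ : EM ρ) (h : Vec d) {y : ℝ}
    (hy : ∀ᶠ n : ℕ in atTop,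
      (n : ℝ) ^ (2 * y) ≤ Var[fun y => Real.log (Zn β h (fun p => ω p y) n); μ]) : y ≤ 1 / 2 := by
  by_contra hcon
  have hxy : 1 / 2 < y := not_le.1 hcon
  obtain ⟨C, hC⟩ := (chiSetS_sub80 h (half_mem_chiSetS80 hd hω hρ h)).2 2
  have h1 : ∀ n : ℕ, 1 ≤ n →
      Var[fun y => Real.log (Zn β h (fun p => ω p y) n); μ] ≤ C * (n : ℝ) ^ (2 * (1 / 2) : ℝ) := by
    intro n hn
    have h2 := hC n hn
    rw [variance_eq_integral (VarU_measurable β h n hω).aemeasurable]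
    simp only [sq_abs] at h2
    have h3 : 1 / 2 * ((2 : ℕ) : ℝ) = (2 * (1 / 2) : ℝ) := by
      push_cast
      ring
    rw [h3] at h2
    exact h2
  have h2 : ∀ᶠ n : ℕ in atTop, (n : ℝ) ^ (2 * (y - 1 / 2)) ≤ C := by
    filter_upwards [hy, eventually_ge_atTop 1] with n hn hn1
    have h3 := hn.trans (h1 n hn1)
    have hn0 : (0 : ℝ) < n := by exact_mod_cast hn1
    have h4 : (n : ℝ) ^ (2 * y) = (n : ℝ) ^ (2 * (y - 1 / 2)) * (n : ℝ) ^ (2 * (1 / 2) : ℝ) := by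
      rw [← Real.rpow_add hn0]
      congr 1
      ring
    rw [h4] at h3
    exact le_of_mul_le_mul_right h3 (Real.rpow_pos_of_pos hn0 _)
  have h4 : Tendsto (fun n : ℕ => (n : ℝ) ^ (2 * (y - 1 / 2))) atTop atTop :=
    (tendsto_rpow_atTop (by linarith)).comp tendsto_natCast_atTop_atTop
  obtain ⟨n, hn, hn'⟩ := (h2.and (h4.eventually_gt_atTop C)).exists
  linarith

/-- A power law for the variance at all large times is a lower bound of the exponent. -/
lemma le_chi43 (hd : 0 < d) (hω : IID μ ρ ω) (hρ : EM ρ) (h : Vec d) {c : ℝ} (hc : 0 < c)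
    (hV : ∀ᶠ n : ℕ in atTop, (n : ℝ) ^ c ≤ Va ρ β h n) : c / 2 ≤ chiT μ β ω h := by
  unfold chiT
  refine le_csSup ⟨1 / 2, fun y hy => le_half43 hd hω hρ h hy.2⟩ ⟨by linarith, ?_⟩
  filter_upwards [hV] with n hn
  rw [var29 hd hω hρ h n]
  have h3 : 2 * (c / 2) = c := by ring
  rw [h3]
  exact hn

variable {ω : ℕ × Site 2 → Ω → ℝ}

/-- The theorem in the letters of the problem: the exponent. -/
theorem chiPos43 (hω : IID μ ρ ω) (hρ : EM ρ) (hM : MainPA ρ β) :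
    ∀ᵐ h : Vec 2, lamN ρ β h < annN ρ β h → 0 < chiT μ β ω h := by
  filter_upwards [hM] with h hh hV
  obtain ⟨c, hc, hn⟩ := hh ((vsd29 h).1 hV)
  have := le_chi43 (by norm_num) hω hρ h hc hn
  linarith

/-- The theorem in the letters of the problem: the variance. -/
theorem varPos43 (hω : IID μ ρ ω) (hρ : EM ρ) (hM : MainPA ρ β) :
    ∀ᵐ h : Vec 2, lamN ρ β h < annN ρ β h → ∃ c : ℝ, 0 < c ∧ ∀ᶠ n : ℕ in atTop,
      (n : ℝ) ^ c ≤ Var[fun x => Real.log (Zn β h (fun p => ω p x) n); μ] := by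
  filter_upwards [hM] with h hh hV
  obtain ⟨c, hc, hn⟩ := hh ((vsd29 h).1 hV)
  refine ⟨c, hc, ?_⟩
  filter_upwards [hn] with n hn'
  rw [var29 (by norm_num) hω hρ h n]
  exact hn'

end Pool.Agent.W_7d29a1_PA
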