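import Pool.Agent.W_7d29a1_PL.CorL63
import Pool.Agent.W_7d29a1_PL.Pnt73
import Pool.Agent.W_7d29a1_NR.Cor11

/-!
The core at one tilt and one scale from a bound of the variance alone (helper24).
-/

set_option autoImplicit false

namespace Pool.Agent.W_7d29a1_PA

open MeasureTheory ProbabilityTheory Filter Topology Pool.Agent.W_MP_7d29a1_pr
  Pool.Agent.W_7d29a1_h46 Pool.Agent.W_7d29a1_h46u Pool.Agent.W_7d29a1_D2.B35
  Pool.Agent.W_7d29a1_Q29 Pool.Agent.W_7d29a1_R34 Pool.Agent.W_7d29a1_SP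
  Pool.Agent.W_7d29a1_PL Pool.Agent.W_7d29a1_NR

/-- A power of the logarithm below one is small. -/
lemma logpow24 {θ C ε : ℝ} (hθ : θ < 1) (hε : 0 < ε) :
    ∀ᶠ n : ℕ in atTop, C * (1 + Real.log (4 * n + 2) ^ θ) ≤ ε * Real.log n := by
  have hT1 : Tendsto (fun n : ℕ => Real.log n) atTop atTop :=
    Real.tendsto_log_atTop.comp tendsto_natCast_atTop_atTop
  have hT2 : Tendsto (fun n : ℕ => Real.log (4 * n + 2)) atTop atTop := by
    refine tendsto_atTop_mono' _ ?_ hT1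
    filter_upwards [eventually_ge_atTop 1] with n hn
    have : (1 : ℝ) ≤ n := by exact_mod_cast hn
    exact Real.log_le_log (by linarith) (by linarith)
  -- `x ^ θ ≤ δ x` for large `x`
  have key : ∀ δ : ℝ, 0 < δ → ∀ᶠ x : ℝ in atTop, x ^ θ ≤ δ * x := by
    intro δ hδ
    have h1 : Tendsto (fun x : ℝ => x ^ (-(1 - θ))) atTop (𝓝 0) :=
      tendsto_rpow_neg_atTop (by linarith)
    filter_upwards [h1.eventually (gt_mem_nhds hδ), eventually_gt_atTop 0] with x hx hx0
    have e : x ^ θ = x ^ (-(1 - θ)) * x := by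
      have : x ^ (-(1 - θ)) * x ^ (1 : ℝ) = x ^ θ := by
        rw [← Real.rpow_add hx0]
        congr 1
        ring
      rw [Real.rpow_one] at this
      exact this.symm
    rw [e]
    exact mul_le_mul_of_nonneg_right hx.le hx0.le
  have hδ : 0 < ε / (4 * (|C| + 1)) := by positivity
  filter_upwards [hT2.eventually (key _ hδ), hT1.eventually_ge_atTop (2 * |C| / ε),
    eventually_ge_atTop 6] with n h1 h2 hn
  have hn' : (6 : ℝ) ≤ n := by exact_mod_cast hn
  have hl0 : 0 ≤ Real.log n := Real.log_nonneg (by linarith)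
  have h3 : Real.log (4 * n + 2) ≤ 2 * Real.log n := by
    have : (2 : ℝ) * Real.log n = Real.log ((n : ℝ) ^ 2) := by
      rw [Real.log_pow]
      norm_num
    rw [this]
    refine Real.log_le_log (by linarith) (by nlinarith)
  have hP : 0 ≤ Real.log (4 * (n : ℝ) + 2) ^ θ :=
    Real.rpow_nonneg (Real.log_nonneg (by linarith)) _
  have h4 : Real.log (4 * (n : ℝ) + 2) ^ θ ≤ ε / (4 * (|C| + 1)) * (2 * Real.log n) :=
    h1.trans (mul_le_mul_of_nonneg_left h3 hδ.le)
  have hC : C ≤ |C| := le_abs_self C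
  have hC0 : 0 ≤ |C| := abs_nonneg C
  have h5 : C * (1 + Real.log (4 * (n : ℝ) + 2) ^ θ) ≤
      |C| * (1 + Real.log (4 * (n : ℝ) + 2) ^ θ) := mul_le_mul_of_nonneg_right hC (by linarith)
  have h6 : 2 * |C| ≤ ε * Real.log n := by
    rw [div_le_iff₀ hε] at h2
    linarith
  have h7 : |C| * Real.log (4 * (n : ℝ) + 2) ^ θ ≤ ε / 2 * Real.log n := by
    have e1 : |C| * Real.log (4 * (n : ℝ) + 2) ^ θ ≤
        |C| * (ε / (4 * (|C| + 1)) * (2 * Real.log n)) := mul_le_mul_of_nonneg_left h4 hC0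
    have e2 : |C| * (ε / (4 * (|C| + 1)) * (2 * Real.log n)) =
        |C| / (|C| + 1) * (ε / 2 * Real.log n) := by
      field_simp
      ring
    have e3 : |C| / (|C| + 1) ≤ 1 := by
      rw [div_le_one (by linarith)]
      linarith
    have e4 : |C| / (|C| + 1) * (ε / 2 * Real.log n) ≤ 1 * (ε / 2 * Real.log n) :=
      mul_le_mul_of_nonneg_right e3 (by positivity)
    linarith
  linarith

/-- The core at one tilt and one scale, from the variance alone. -/
theorem coreN24 {d : ℕ} {ρ : Measure ℝ} [IsProbabilityMeasure ρ] (hd : 0 < d) (hρ : EM ρ) {β : ℝ}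
    (hN : NrS d ρ β) (hC : CorL d ρ β) : ∀ g C₀ : ℝ, 0 < g → 0 ≤ C₀ →
    ∃ c₁ : ℝ, 0 < c₁ ∧ ∀ c : ℝ, 0 < c → c ≤ c₁ → ∀ h : Vec d,
      lam ρ β h + g ≤ Real.log (Phi h) + Real.log (∫ t, Real.exp (β * t) ∂ρ) →
      ∃ n₀ : ℕ, ∀ n : ℕ, n₀ ≤ n → (∀ k : ℕ, k ≤ 64 * n ^ 3 → Va ρ β h k ≤ (n : ℝ) ^ c) →
        ∀ V : ℝ, V ≤ c₁ * Real.log n → ¬ Bd ρ β h n V C₀ := by
  obtain ⟨θ, hθ, hL⟩ := corL11 hd hρ hN
  intro g C₀ hg hC₀
  obtain ⟨c₁, hc₁, hcor⟩ := hC g C₀ hg hC₀
  refine ⟨c₁, hc₁, fun c hc0 hc1 h hgap => ?_⟩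
  obtain ⟨C, hLh⟩ := hL h
  obtain ⟨n₁, hn₁⟩ := hcor h hgap
  have E1 := logpow24 (θ := θ) (C := max C 0) (ε := c₁ / 8) hθ (by linarith)
  have hT1 : Tendsto (fun n : ℕ => Real.log n) atTop atTop :=
    Real.tendsto_log_atTop.comp tendsto_natCast_atTop_atTop
  have E2 : ∀ᶠ n : ℕ in atTop, 4 / c₁ ≤ Real.log n := hT1.eventually_ge_atTop _
  obtain ⟨n₂, hn₂⟩ := eventually_atTop.1 (E1.and E2)
  refine ⟨max n₁ (max n₂ 1), fun n hn hV V hVc hB => ?_⟩
  have hn1 : n₁ ≤ n := (le_max_left _ _).trans hn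
  have hn2 : n₂ ≤ n := (le_max_left _ _).trans ((le_max_right _ _).trans hn)
  have hn3 : 1 ≤ n := (le_max_right _ _).trans ((le_max_right _ _).trans hn)
  obtain ⟨e1, e2⟩ := hn₂ n hn2
  have hn1' : (1 : ℝ) ≤ n := by exact_mod_cast hn3
  have hn0 : (0 : ℝ) < n := by linarith
  have hl0 : 0 ≤ Real.log n := Real.log_nonneg hn1'
  rw [div_le_iff₀ hc₁] at e2
  have hcc : (n : ℝ) ^ c ≤ (n : ℝ) ^ c₁ := Real.rpow_le_rpow_of_exponent_le hn1' hc1
  refine hn₁ n hn1 (fun k hk => ?_) (bd_mono73 hVc hB)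
  have hk64 : k ≤ 64 * n ^ 3 := by
    have : n ≤ n ^ 3 := Nat.le_self_pow (by norm_num) n
    omega
  refine ⟨(hV k hk64).trans hcc, ?_⟩
  rcases Nat.eq_zero_or_pos k with hk0 | hk0
  · rw [hk0, En_zero15]
    positivity
  · have h1 := hLh k ((n : ℝ) ^ (c / 2)) hk0 (fun j hj => ?_) (by positivity)
    · refine h1.trans ?_
      have hθl : Real.log (k + 2) ^ θ ≤ 1 + Real.log (4 * n + 2) ^ θ := by
        have hk4 : (k : ℝ) + 2 ≤ 4 * n + 2 := by
          have : (k : ℝ) ≤ 4 * n := by exact_mod_cast hk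
          linarith
        have hkl : 1 ≤ Real.log ((k : ℝ) + 2) := by
          have h3 : (3 : ℝ) ≤ (k : ℝ) + 2 := by
            have : (1 : ℝ) ≤ k := by exact_mod_cast hk0
            linarith
          have h4 : Real.exp 1 ≤ (k : ℝ) + 2 := by
            have := Real.exp_one_lt_d9
            linarith
          exact (Real.le_log_iff_exp_le (by linarith)).2 h4
        rcases le_total 0 θ with h0 | h0
        · have : Real.log (k + 2) ^ θ ≤ Real.log (4 * n + 2) ^ θ :=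
            Real.rpow_le_rpow (by linarith)
              (Real.log_le_log (by linarith [(Nat.cast_nonneg k : (0 : ℝ) ≤ k)]) hk4) h0
          linarith
        · have h5 : Real.log (k + 2) ^ θ ≤ 1 := Real.rpow_le_one_of_one_le_of_nonpos hkl h0
          have h6 : 0 ≤ Real.log (4 * (n : ℝ) + 2) ^ θ :=
            Real.rpow_nonneg (Real.log_nonneg (by linarith)) _
          linarith
      have hlk0 : 0 ≤ Real.log ((k : ℝ) + 2) ^ θ :=
        Real.rpow_nonneg (Real.log_nonneg (by linarith [(Nat.cast_nonneg k : (0 : ℝ) ≤ k)])) _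
      have hC1 : C * (1 + Real.log (k + 2) ^ θ) ≤ c₁ / 8 * Real.log n + max C 0 := by
        have e3 : C * (1 + Real.log (k + 2) ^ θ) ≤ max C 0 * (1 + Real.log (k + 2) ^ θ) :=
          mul_le_mul_of_nonneg_right (le_max_left _ _) (by linarith)
        have e4 : max C 0 * (1 + Real.log (k + 2) ^ θ) ≤
            max C 0 * (1 + (1 + Real.log (4 * n + 2) ^ θ)) :=
          mul_le_mul_of_nonneg_left (by linarith) (le_max_right _ _)
        have e5 : max C 0 * (1 + (1 + Real.log (4 * (n : ℝ) + 2) ^ θ)) =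
            max C 0 * (1 + Real.log (4 * (n : ℝ) + 2) ^ θ) + max C 0 := by ring
        linarith
      have hC2 : max C 0 ≤ c₁ / 8 * Real.log n := by
        refine le_trans ?_ e1
        have h6 : 0 ≤ Real.log (4 * (n : ℝ) + 2) ^ θ :=
          Real.rpow_nonneg (Real.log_nonneg (by linarith)) _
        have h7 : 0 ≤ max C 0 := le_max_right _ _
        nlinarith
      have hlog2 : Real.log 2 ≤ 1 := by
        have := Real.log_two_lt_d9
        linarith
      have hexp : 2 * Real.exp (C * (1 + Real.log (k + 2) ^ θ)) ≤ (n : ℝ) ^ (c₁ / 2) := by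
        have e3 : 2 * Real.exp (C * (1 + Real.log (k + 2) ^ θ)) =
            Real.exp (Real.log 2 + C * (1 + Real.log (k + 2) ^ θ)) := by
          rw [Real.exp_add, Real.exp_log (by norm_num)]
        rw [e3, Real.rpow_def_of_pos hn0, Real.exp_le_exp]
        linarith
      have hone : 1 ≤ (n : ℝ) ^ (c₁ / 2) := Real.one_le_rpow hn1' (by linarith)
      have hc2 : (n : ℝ) ^ (c / 2) ≤ (n : ℝ) ^ (c₁ / 2) :=
        Real.rpow_le_rpow_of_exponent_le hn1' (by linarith)
      have hsq : (n : ℝ) ^ c₁ = (n : ℝ) ^ (c₁ / 2) * (n : ℝ) ^ (c₁ / 2) := by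
        rw [← Real.rpow_add hn0]
        congr 1
        ring
      rw [hsq]
      have hE0 := Real.exp_pos (C * (1 + Real.log (k + 2) ^ θ))
      calc (1 + (n : ℝ) ^ (c / 2)) * Real.exp (C * (1 + Real.log (k + 2) ^ θ))
          ≤ (2 * (n : ℝ) ^ (c₁ / 2)) * Real.exp (C * (1 + Real.log (k + 2) ^ θ)) :=
            mul_le_mul_of_nonneg_right (by linarith) hE0.le
        _ = (n : ℝ) ^ (c₁ / 2) * (2 * Real.exp (C * (1 + Real.log (k + 2) ^ θ))) := by ring
        _ ≤ (n : ℝ) ^ (c₁ / 2) * (n : ℝ) ^ (c₁ / 2) :=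
            mul_le_mul_of_nonneg_left hexp (by linarith)
    · have hj64 : j ≤ 64 * n ^ 3 := by
        have h2 : k ^ 3 ≤ (4 * n) ^ 3 := Nat.pow_le_pow_left hk 3
        have h3 : (4 * n) ^ 3 = 64 * n ^ 3 := by ring
        omega
      refine (hV j hj64).trans (le_of_eq ?_)
      rw [← Real.rpow_natCast, ← Real.rpow_mul hn0.le]
      congr 1
      push_cast
      ring

end Pool.Agent.W_7d29a1_PA
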