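import Pool.Agent.W_7d29a1_PL.DefsPL

/-!
A power law for the variance at all large times in two transversal dimensions: definitions and
frozen statements of the leaves (helper67).
-/

namespace Pool.Agent.W_7d29a1_PA

open MeasureTheory ProbabilityTheory Filter Topology Pool.Agent.W_MP_7d29a1_pr
  Pool.Agent.W_7d29a1_h46 Pool.Agent.W_7d29a1_h46u Pool.Agent.W_7d29a1_D2.B35
  Pool.Agent.W_7d29a1_Q29 Pool.Agent.W_7d29a1_R34 Pool.Agent.W_7d29a1_SP Pool.Agent.W_7d29a1_PL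

/-- The tilts with a small variance up to the time `64 N ^ 3`. -/
def Lw (ρ : Measure ℝ) (β c : ℝ) (N : ℕ) : Set (Vec 2) :=
  {g | ∀ m : ℕ, m ≤ 64 * N ^ 3 → Va ρ β g m ≤ (N : ℝ) ^ c}

/-- The four neighbours of `h` at the distance `r` are close to `G`. -/
def Nb (G : Set (Vec 2)) (h : Vec 2) (r : ℝ) : Prop :=
  ∀ (j : Fin 2) (s : ℝ), (s = 1 ∨ s = -1) → ∃ g : Vec 2, g ∈ G ∧ ‖g - h - (s * r) • ej j‖ ≤ r / 9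

/-- POR (pure): the points of `G` with a hole at every scale are rare. -/
def PorP : Prop := ∃ θ : ℝ, 0 < θ ∧ θ < 1 ∧ ∀ R : ℝ, 0 < R → ∃ C : ℝ, 0 ≤ C ∧
  ∀ (G : Set (Vec 2)) (r : ℝ) (K : ℕ), 0 < r → (64 : ℝ) ^ K * r ≤ 1 →
    volume {h : Vec 2 | h ∈ G ∧ ‖h‖ ≤ R ∧ ∀ k : ℕ, k < K → ¬ Nb G h (64 ^ k * r)} ≤
      ENNReal.ofReal (C * θ ^ K)

section Leaves

variable (ρ : Measure ℝ) (β : ℝ)

/-- BUDN: the budget at one time, from neighbours at one scale. -/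
def BudN : Prop := ∀ M : ℝ, 0 < M → ∃ C : ℝ, 0 ≤ C ∧ ∀ (h : Vec 2) (δ a c : ℝ), 0 < δ →
  0 < a → a ≤ 1 / 8 → 0 < c → 8 * c ≤ a →
  (∀ r : ℝ, 0 < r → r ≤ δ → ∀ j : Fin 2,
    lam ρ β (h + r • ej j) + lam ρ β (h - r • ej j) - 2 * lam ρ β h ≤ M * r ^ 2) →
  ∃ N₀ : ℕ, ∀ N : ℕ, N₀ ≤ N → ∀ r : ℝ, (N : ℝ) ^ (-(1 / 2) + a) ≤ r →
    r ≤ (N : ℝ) ^ (-(1 / 2) + 2 * a) → (∀ m : ℕ, m ≤ N → Va ρ β h m ≤ (N : ℝ) ^ c) →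
    (∀ m : ℕ, m ≤ N → En ρ β h m ≤ (N : ℝ) ^ a) → Nb (Lw ρ β c N) h r →
      Bd ρ β h N (C * a * Real.log N) C

/-- ENN: the nonrandom fluctuation at one time (every tilt), from NR. -/
def EnN : Prop := ∀ (h : Vec 2) (c a : ℝ), 0 < c → c < a → ∃ N₀ : ℕ, ∀ N : ℕ, N₀ ≤ N →
  (∀ m : ℕ, m ≤ 64 * N ^ 3 → Va ρ β h m ≤ (N : ℝ) ^ c) →
    ∀ m : ℕ, m ≤ 4 * N → En ρ β h m ≤ (N : ℝ) ^ a

/-- CORL: the core at one tilt and one time, no lower bound of the fluctuations. -/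
def CorN : Prop := ∀ g C₀ : ℝ, 0 < g → 0 ≤ C₀ → ∃ c : ℝ, 0 < c ∧ ∀ h : Vec 2,
  lam ρ β h + g ≤ Real.log (Phi h) + Real.log (∫ t, Real.exp (β * t) ∂ρ) →
    ∃ n₀ : ℕ, ∀ n : ℕ, n₀ ≤ n →
      (∀ k : ℕ, k ≤ 4 * n → Va ρ β h k ≤ (n : ℝ) ^ c ∧ En ρ β h k ≤ (n : ℝ) ^ c) →
        ¬ Bd ρ β h n (c * Real.log n) C₀

/-- PNTN: a tilt with a small variance has a hole of small variance at every scale. -/
def PntN : Prop := ∀ g M : ℝ, 0 < g → 0 < M → ∃ a c : ℝ, 0 < a ∧ a ≤ 1 / 8 ∧ 0 < c ∧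
  ∀ (h : Vec 2) (δ : ℝ), 0 < δ →
  lam ρ β h + g ≤ Real.log (Phi h) + Real.log (∫ t, Real.exp (β * t) ∂ρ) →
  (∀ r : ℝ, 0 < r → r ≤ δ → ∀ j : Fin 2,
    lam ρ β (h + r • ej j) + lam ρ β (h - r • ej j) - 2 * lam ρ β h ≤ M * r ^ 2) →
  ∃ N₀ : ℕ, ∀ N : ℕ, N₀ ≤ N → ∀ r : ℝ, (N : ℝ) ^ (-(1 / 2) + a) ≤ r →
    r ≤ (N : ℝ) ^ (-(1 / 2) + 2 * a) → h ∈ Lw ρ β c N → ¬ Nb (Lw ρ β c N) h r

/-- The theorem, with the largest variance. -/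
def AllN : Prop := ∀ᵐ h : Vec 2, VSD ρ β h → ∃ c : ℝ, 0 < c ∧ ∀ᶠ n : ℕ in atTop,
  ∃ m : ℕ, m ≤ n ∧ (n : ℝ) ^ c ≤ Va ρ β h m

/-- The theorem: almost every tilt, every large time. -/
def MainPA : Prop := ∀ᵐ h : Vec 2, VSD ρ β h → ∃ c : ℝ, 0 < c ∧ ∀ᶠ n : ℕ in atTop,
  (n : ℝ) ^ c ≤ Va ρ β h n

end Leaves

end Pool.Agent.W_7d29a1_PA
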