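import Pool.Agent.W_7d29a1_PA.CoreN24
import Pool.Agent.W_7d29a1_PA.DefsPA

/-!
Leaves EnN, CorN and PntN of the power law at all large times (helper24).
-/

set_option autoImplicit false

namespace Pool.Agent.W_7d29a1_PA

open MeasureTheory ProbabilityTheory Filter Topology Pool.Agent.W_MP_7d29a1_pr
  Pool.Agent.W_7d29a1_h46 Pool.Agent.W_7d29a1_h46u Pool.Agent.W_7d29a1_D2.B35
  Pool.Agent.W_7d29a1_Q29 Pool.Agent.W_7d29a1_R34 Pool.Agent.W_7d29a1_SP
  Pool.Agent.W_7d29a1_PL Pool.Agent.W_7d29a1_NR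

/-- ENN. -/
theorem enN24 {ρ : Measure ℝ} [IsProbabilityMeasure ρ] (hρ : EM ρ) {β : ℝ}
    (hN : NrS 2 ρ β) : EnN ρ β := by
  obtain ⟨θ, hθ, hL⟩ := corL11 (d := 2) (by norm_num) hρ hN
  intro h c a hc0 hca
  obtain ⟨C, hLh⟩ := hL h
  set b : ℝ := a - c / 2 with hb
  have hb0 : 0 < b := by rw [hb]; linarith
  have E1 := logpow24 (θ := θ) (C := max C 0) (ε := b / 4) hθ (by linarith)
  have hT1 : Tendsto (fun n : ℕ => Real.log n) atTop atTop :=
    Real.tendsto_log_atTop.comp tendsto_natCast_atTop_atTop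
  have E2 : ∀ᶠ n : ℕ in atTop, 2 / b ≤ Real.log n := hT1.eventually_ge_atTop _
  obtain ⟨n₂, hn₂⟩ := eventually_atTop.1 (E1.and E2)
  refine ⟨max n₂ 1, fun n hn hV k hk => ?_⟩
  have hn2 : n₂ ≤ n := (le_max_left _ _).trans hn
  have hn3 : 1 ≤ n := (le_max_right _ _).trans hn
  obtain ⟨e1, e2⟩ := hn₂ n hn2
  have hn1' : (1 : ℝ) ≤ n := by exact_mod_cast hn3
  have hn0 : (0 : ℝ) < n := by linarith
  have hl0 : 0 ≤ Real.log n := Real.log_nonneg hn1'
  rw [div_le_iff₀ hb0] at e2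
  rcases Nat.eq_zero_or_pos k with hk0 | hk0
  · rw [hk0, En_zero15]
    positivity
  have h1 := hLh k ((n : ℝ) ^ (c / 2)) hk0 (fun j hj => ?_) (by positivity)
  · refine h1.trans ?_
    have hθl : Real.log (k + 2) ^ θ ≤ 1 + Real.log (4 * n + 2) ^ θ := by
      have hk4 : (k : ℝ) + 2 ≤ 4 * n + 2 := by
        have : (k : ℝ) ≤ 4 * n := by exact_mod_cast hk
        linarith
      have hkl : 1 ≤ Real.log ((k : ℝ) + 2) := by
        have h3 : (3 : ℝ) ≤ (k : ℝ) + 2 := by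
          have : (1 : ℝ) ≤ k := by exact_mod_cast hk0
          linarith
        have h4 : Real.exp 1 ≤ (k : ℝ) + 2 := by
          have := Real.exp_one_lt_d9
          linarith
        exact (Real.le_log_iff_exp_le (by linarith)).2 h4
      have h6 : 0 ≤ Real.log (4 * (n : ℝ) + 2) ^ θ :=
        Real.rpow_nonneg (Real.log_nonneg (by linarith)) _
      rcases le_total 0 θ with h0 | h0
      · have : Real.log (k + 2) ^ θ ≤ Real.log (4 * n + 2) ^ θ :=
          Real.rpow_le_rpow (by linarith)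
            (Real.log_le_log (by linarith [(Nat.cast_nonneg k : (0 : ℝ) ≤ k)]) hk4) h0
        linarith
      · have h5 : Real.log (k + 2) ^ θ ≤ 1 := Real.rpow_le_one_of_one_le_of_nonpos hkl h0
        linarith
    have h6 : 0 ≤ Real.log (4 * (n : ℝ) + 2) ^ θ :=
      Real.rpow_nonneg (Real.log_nonneg (by linarith)) _
    have hlk0 : 0 ≤ Real.log ((k : ℝ) + 2) ^ θ :=
      Real.rpow_nonneg (Real.log_nonneg (by linarith [(Nat.cast_nonneg k : (0 : ℝ) ≤ k)])) _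
    have hC1 : C * (1 + Real.log (k + 2) ^ θ) ≤ b / 4 * Real.log n + max C 0 := by
      have e3 : C * (1 + Real.log (k + 2) ^ θ) ≤ max C 0 * (1 + Real.log (k + 2) ^ θ) :=
        mul_le_mul_of_nonneg_right (le_max_left _ _) (by linarith)
      have e4 : max C 0 * (1 + Real.log (k + 2) ^ θ) ≤
          max C 0 * (1 + (1 + Real.log (4 * n + 2) ^ θ)) :=
        mul_le_mul_of_nonneg_left (by linarith) (le_max_right _ _)
      have e5 : max C 0 * (1 + (1 + Real.log (4 * (n : ℝ) + 2) ^ θ)) =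
          max C 0 * (1 + Real.log (4 * (n : ℝ) + 2) ^ θ) + max C 0 := by ring
      linarith
    have hC2 : max C 0 ≤ b / 4 * Real.log n := by
      refine le_trans ?_ e1
      have h7 : 0 ≤ max C 0 := le_max_right _ _
      nlinarith
    have hlog2 : Real.log 2 ≤ 1 := by
      have := Real.log_two_lt_d9
      linarith
    have hexp : 2 * Real.exp (C * (1 + Real.log (k + 2) ^ θ)) ≤ (n : ℝ) ^ b := by
      have e3 : 2 * Real.exp (C * (1 + Real.log (k + 2) ^ θ)) =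
          Real.exp (Real.log 2 + C * (1 + Real.log (k + 2) ^ θ)) := by
        rw [Real.exp_add, Real.exp_log (by norm_num)]
      rw [e3, Real.rpow_def_of_pos hn0, Real.exp_le_exp]
      linarith
    have hone : 1 ≤ (n : ℝ) ^ (c / 2) := Real.one_le_rpow hn1' (by linarith)
    have hsq : (n : ℝ) ^ a = (n : ℝ) ^ (c / 2) * (n : ℝ) ^ b := by
      rw [← Real.rpow_add hn0]
      congr 1
      rw [hb]
      ring
    rw [hsq]
    have hE0 := Real.exp_pos (C * (1 + Real.log (k + 2) ^ θ))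
    calc (1 + (n : ℝ) ^ (c / 2)) * Real.exp (C * (1 + Real.log (k + 2) ^ θ))
        ≤ (2 * (n : ℝ) ^ (c / 2)) * Real.exp (C * (1 + Real.log (k + 2) ^ θ)) :=
          mul_le_mul_of_nonneg_right (by linarith) hE0.le
      _ = (n : ℝ) ^ (c / 2) * (2 * Real.exp (C * (1 + Real.log (k + 2) ^ θ))) := by ring
      _ ≤ (n : ℝ) ^ (c / 2) * (n : ℝ) ^ b := mul_le_mul_of_nonneg_left hexp (by linarith)
  · have hj64 : j ≤ 64 * n ^ 3 := by
      have h2 : k ^ 3 ≤ (4 * n) ^ 3 := Nat.pow_le_pow_left hk 3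
      have h3 : (4 * n) ^ 3 = 64 * n ^ 3 := by ring
      omega
    refine (hV j hj64).trans (le_of_eq ?_)
    rw [← Real.rpow_natCast, ← Real.rpow_mul hn0.le]
    congr 1
    push_cast
    ring

/-- CORN is CORL in dimension two. -/
theorem corN24 {ρ : Measure ℝ} {β : ℝ} (hC : CorL 2 ρ β) : CorN ρ β := hC

/-- PNTN. -/
theorem pntN24 {ρ : Measure ℝ} {β : ℝ} (hB : BudN ρ β) (hE : EnN ρ β) (hC : CorN ρ β) :
    PntN ρ β := by
  intro g M hg hM
  obtain ⟨Cb, hCb, hB'⟩ := hB M hM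
  obtain ⟨c₁, hc₁, hC'⟩ := hC g Cb hg hCb
  obtain ⟨a, ha0, ha8, ha1, ha2⟩ : ∃ a : ℝ, 0 < a ∧ a ≤ 1 / 8 ∧ a ≤ c₁ ∧ Cb * a ≤ c₁ := by
    refine ⟨min (1 / 8) (c₁ / (Cb + 1)), lt_min (by norm_num) (by positivity), min_le_left _ _,
      ?_, ?_⟩
    · refine (min_le_right _ _).trans (div_le_self hc₁.le (by linarith))
    · have h1 : Cb * min (1 / 8) (c₁ / (Cb + 1)) ≤ Cb * (c₁ / (Cb + 1)) :=
        mul_le_mul_of_nonneg_left (min_le_right _ _) hCb
      have h2 : Cb * (c₁ / (Cb + 1)) ≤ (Cb + 1) * (c₁ / (Cb + 1)) :=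
        mul_le_mul_of_nonneg_right (by linarith) (by positivity)
      have h3 : (Cb + 1) * (c₁ / (Cb + 1)) = c₁ := by field_simp
      linarith
  refine ⟨a, a / 16, ha0, ha8, by linarith, fun h δ hδ hgap hcurv => ?_⟩
  obtain ⟨n₁, hn₁⟩ := hC' h hgap
  obtain ⟨n₂, hn₂⟩ := hE h (a / 16) a (by linarith) (by linarith)
  obtain ⟨n₃, hn₃⟩ := hB' h δ a (a / 16) hδ ha0 ha8 (by linarith) (by linarith) hcurv
  refine ⟨max n₁ (max n₂ (max n₃ 1)), fun n hn r hr1 hr2 hLw hNb => ?_⟩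
  have k1 : n₁ ≤ n := (le_max_left _ _).trans hn
  have k2 : n₂ ≤ n := (le_max_left _ _).trans ((le_max_right _ _).trans hn)
  have k3 : n₃ ≤ n :=
    (le_max_left _ _).trans ((le_max_right _ _).trans ((le_max_right _ _).trans hn))
  have k4 : 1 ≤ n :=
    (le_max_right _ _).trans ((le_max_right _ _).trans ((le_max_right _ _).trans hn))
  have hn1 : (1 : ℝ) ≤ n := by exact_mod_cast k4
  have hlog : 0 ≤ Real.log n := Real.log_nonneg hn1
  have h64 : ∀ m : ℕ, m ≤ 4 * n → m ≤ 64 * n ^ 3 := fun m hm => by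
    have : n ≤ n ^ 3 := Nat.le_self_pow (by norm_num) n
    omega
  have hEn := hn₂ n k2 hLw
  have hBd := hn₃ n k3 r hr1 hr2 (fun m hm => hLw m (h64 m (by omega)))
    (fun m hm => hEn m (by omega)) hNb
  have hac : (n : ℝ) ^ a ≤ (n : ℝ) ^ c₁ := Real.rpow_le_rpow_of_exponent_le hn1 ha1
  have hac2 : (n : ℝ) ^ (a / 16) ≤ (n : ℝ) ^ c₁ :=
    Real.rpow_le_rpow_of_exponent_le hn1 (by linarith)
  refine hn₁ n k1 (fun k hk => ⟨(hLw k (h64 k hk)).trans hac2, (hEn k hk).trans hac⟩)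
    (bd_mono73 ?_ hBd)
  exact mul_le_mul_of_nonneg_right ha2 hlog

end Pool.Agent.W_7d29a1_PA
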