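import Pool.Agent.W_7d29a1_h46u.Defs

/-!
Theorem PLA, porosity: the points of a set in the plane which have a hole of the set next to them at
many scales fill a small area (helper8).
-/

set_option autoImplicit false

namespace Pool.Agent.W_7d29a1_PA.P8

open MeasureTheory Filter Topology Pool.Agent.W_7d29a1_h46 Pool.Agent.W_7d29a1_h46u

/-- The half open square. -/
def Bx (c : Fin 2 → ℝ) (s : ℝ) : Set (Fin 2 → ℝ) :=
  Set.pi Set.univ fun i => Set.Ico (c i) (c i + s)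

lemma mem_Bx {c x : Fin 2 → ℝ} {s : ℝ} : x ∈ Bx c s ↔ ∀ i, c i ≤ x i ∧ x i < c i + s := by
  simp [Bx, Set.mem_pi]

lemma vol_Bx (c : Fin 2 → ℝ) {s : ℝ} (hs : 0 ≤ s) : volume (Bx c s) = ENNReal.ofReal (s ^ 2) := by
  unfold Bx
  rw [Real.volume_pi_Ico]
  simp only [add_sub_cancel_left, Fin.prod_univ_two]
  rw [← ENNReal.ofReal_mul hs, sq]

/-- The corner of the small square. -/
def cr (c : Fin 2 → ℝ) (s : ℝ) {b : ℕ} (a : Fin 2 → Fin b) : Fin 2 → ℝ :=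
  fun i => c i + ((a i : ℕ) : ℝ) * s

lemma cover8 {b : ℕ} {c x : Fin 2 → ℝ} {s : ℝ} (hs : 0 < s) (hx : x ∈ Bx c (b * s)) :
    ∃ a : Fin 2 → Fin b, x ∈ Bx (cr c s a) s := by
  rw [mem_Bx] at hx
  have h1 : ∀ i, ⌊(x i - c i) / s⌋₊ < b := fun i => by
    have h2 : (x i - c i) / s < b := by
      rw [div_lt_iff₀ hs]
      linarith [(hx i).2]
    have h3 : 0 ≤ (x i - c i) / s := div_nonneg (by linarith [(hx i).1]) hs.le
    exact (Nat.floor_lt h3).2 h2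
  refine ⟨fun i => ⟨_, h1 i⟩, ?_⟩
  rw [mem_Bx]
  intro i
  have h3 : 0 ≤ (x i - c i) / s := div_nonneg (by linarith [(hx i).1]) hs.le
  have h4 := Nat.floor_le h3
  have h5 := Nat.lt_floor_add_one ((x i - c i) / s)
  rw [le_div_iff₀ hs] at h4
  rw [div_lt_iff₀ hs] at h5
  simp only [cr]
  constructor
  · linarith
  · linarith

/-- If one small square is free at every scale the measure decays geometrically. -/
lemma decay8 {b : ℕ} (hb : 1 ≤ b) (T : ℕ → Set (Fin 2 → ℝ)) (S : ℕ → ℝ) (hS0 : ∀ k, 0 < S k)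
    (hS : ∀ k, S (k + 1) = b * S k) (hT : ∀ k, T (k + 1) ⊆ T k)
    (hfree : ∀ (k : ℕ) (c : Fin 2 → ℝ), ∃ a : Fin 2 → Fin b,
      T (k + 1) ∩ Bx (cr c (S k) a) (S k) = ∅) (k : ℕ) (c : Fin 2 → ℝ) :
    volume (T k ∩ Bx c (S k)) ≤ ENNReal.ofReal ((1 - 1 / (b : ℝ) ^ 2) ^ k * S k ^ 2) := by
  induction k generalizing c with
  | zero =>
    rw [pow_zero, one_mul, ← vol_Bx c (hS0 0).le]
    exact measure_mono Set.inter_subset_right
  | succ k ih =>
    classical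
    obtain ⟨a₀, ha₀⟩ := hfree k c
    have hb' : (1 : ℝ) ≤ b := by exact_mod_cast hb
    have hq0 : (0 : ℝ) ≤ 1 - 1 / (b : ℝ) ^ 2 := by
      have : 1 / (b : ℝ) ^ 2 ≤ 1 := by
        rw [div_le_one (by positivity)]
        exact one_le_pow₀ hb'
      linarith
    set D : Finset (Fin 2 → Fin b) := Finset.univ.erase a₀ with hD
    have h1 : T (k + 1) ∩ Bx c (S (k + 1)) ⊆
        ⋃ a ∈ D, (T k ∩ Bx (cr c (S k) a) (S k)) := by
      rintro x ⟨hx1, hx2⟩
      rw [hS k] at hx2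
      obtain ⟨a, ha⟩ := cover8 (hS0 k) hx2
      simp only [Set.mem_iUnion]
      refine ⟨a, ?_, hT k hx1, ha⟩
      rw [hD, Finset.mem_erase]
      refine ⟨fun h => ?_, Finset.mem_univ _⟩
      have : x ∈ T (k + 1) ∩ Bx (cr c (S k) a₀) (S k) := ⟨hx1, h ▸ ha⟩
      rw [ha₀] at this
      exact this
    have hcard : (D.card : ℝ) = (b : ℝ) ^ 2 - 1 := by
      rw [hD, Finset.card_erase_of_mem (Finset.mem_univ _), Finset.card_univ, Fintype.card_fun,
        Fintype.card_fin, Fintype.card_fin, Nat.cast_sub (Nat.one_le_pow _ _ hb)]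
      push_cast
      ring
    have h2 : volume (T (k + 1) ∩ Bx c (S (k + 1))) ≤
        D.card • ENNReal.ofReal ((1 - 1 / (b : ℝ) ^ 2) ^ k * S k ^ 2) :=
      (measure_mono h1).trans ((measure_biUnion_finset_le _ _).trans
        (Finset.sum_le_card_nsmul _ _ _ fun a _ => ih _))
    refine h2.trans (le_of_eq ?_)
    rw [nsmul_eq_mul, ← ENNReal.ofReal_natCast, ← ENNReal.ofReal_mul (Nat.cast_nonneg _), hcard,
      hS k]
    congr 1
    have hb0 : (b : ℝ) ≠ 0 := by linarith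
    have e : (b : ℝ) ^ 2 - 1 = (1 - 1 / (b : ℝ) ^ 2) * (b : ℝ) ^ 2 := by
      field_simp
    rw [e]
    ring

/-- The norm in the plane from the coordinates. -/
lemma norm_le8 {y : Vec 2} {a : ℝ} (ha : 0 ≤ a) (h : ∀ i, |y i| ≤ a) : ‖y‖ ≤ 71 / 50 * a := by
  rw [EuclideanSpace.norm_eq, Real.sqrt_le_left (by positivity), Fin.sum_univ_two]
  have h0 := sq_le_sq' (by linarith [abs_nonneg (y 0), h 0]) (h 0)
  have h1 := sq_le_sq' (by linarith [abs_nonneg (y 1), h 1]) (h 1)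
  simp only [Real.norm_eq_abs]
  nlinarith [sq_nonneg a]

/-- The hole of a point contains a small square. -/
lemma hole8 {b : ℕ} (hb : 64 ≤ b) {G : Set (Vec 2)} {r : ℝ} (hr : 0 < r) (c : Fin 2 → ℝ)
    {B : Set (Vec 2)} (hB : ∀ h ∈ B, h ∈ G ∧ ∃ (j : Fin 2) (s : ℝ), (s = 1 ∨ s = -1) ∧
      ∀ g ∈ G, r / 9 < ‖g - h - (s * r) • ej j‖) :
    ∃ a : Fin 2 → Fin b, ∀ x : Vec 2, x ∈ B →
      (fun i => x i) ∉ Bx (cr c (5 / 64 * r) a) (5 / 64 * r) := by
  obtain ⟨S, hS⟩ : ∃ S : ℝ, S = 5 / 64 * r := ⟨_, rfl⟩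
  rw [← hS]
  have hS0 : 0 < S := by rw [hS]; positivity
  have hb' : (64 : ℝ) ≤ b := by exact_mod_cast hb
  by_cases hc : ∃ h ∈ B, ∀ i, c i + r ≤ h i ∧ h i < c i + b * S - r
  · obtain ⟨h, hhB, hh⟩ := hc
    obtain ⟨-, j, s, hs, hole⟩ := hB h hhB
    obtain ⟨y, hy⟩ : ∃ y : Vec 2, y = h + (s * r) • ej j := ⟨_, rfl⟩
    have hyi : ∀ i, |y i - h i| ≤ r := by
      intro i
      have e : y i - h i = (s * r) * (ej j : Vec 2) i := by
        rw [hy]
        simp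
      rw [e, abs_mul]
      have h1 : |s * r| = r := by
        rcases hs with hs | hs <;> rw [hs] <;> simp [abs_of_pos hr]
      have h2 : |(ej j : Vec 2) i| ≤ 1 := by
        unfold ej
        rw [PiLp.single_apply]
        split_ifs <;> simp
      rw [h1]
      nlinarith [abs_nonneg ((ej j : Vec 2) i)]
    have hyB : (fun i => y i) ∈ Bx c (b * S) := by
      rw [mem_Bx]
      intro i
      have h1 := abs_le.1 (hyi i)
      have h2 := hh i
      constructor <;> linarith [h1.1, h1.2, h2.1, h2.2]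
    obtain ⟨a, ha⟩ := cover8 hS0 hyB
    refine ⟨a, fun x hx hxa => ?_⟩
    rw [mem_Bx] at ha hxa
    have h3 : ‖x - y‖ ≤ 71 / 50 * S := by
      refine norm_le8 hS0.le fun i => ?_
      have h4 := ha i
      have h5 := hxa i
      rw [PiLp.sub_apply, abs_le]
      constructor <;> linarith [h4.1, h4.2, h5.1, h5.2]
    have h6 := hole x (hB x hx).1
    have h7 : x - h - (s * r) • ej j = x - y := by
      rw [hy]
      abel
    rw [h7] at h6
    rw [hS] at h3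
    linarith
  · push Not at hc
    have hb2 : b / 2 < b := by omega
    refine ⟨fun _ => ⟨b / 2, hb2⟩, fun x hx hxa => ?_⟩
    rw [mem_Bx] at hxa
    obtain ⟨i, hi⟩ := hc x hx
    have h1 := hxa i
    simp only [cr] at h1
    have h32 : (32 : ℝ) ≤ ((b / 2 : ℕ) : ℝ) := by
      exact_mod_cast (by omega : 32 ≤ b / 2)
    have h31 : ((b / 2 : ℕ) : ℝ) + 32 ≤ (b : ℝ) := by
      exact_mod_cast (by omega : b / 2 + 32 ≤ b)
    have h2 : 32 * S ≤ ((b / 2 : ℕ) : ℝ) * S := mul_le_mul_of_nonneg_right h32 hS0.le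
    have h3 : (((b / 2 : ℕ) : ℝ) + 32) * S ≤ b * S := mul_le_mul_of_nonneg_right h31 hS0.le
    have h4 := hi (by
      rw [hS] at h1 h2
      linarith [h1.1])
    rw [hS] at h1 h2 h3 h4
    linarith [h1.2]

/-- The points of `G` with a hole at each of the scales `b ^ k r`, `k < K`. -/
def PorS (G : Set (Vec 2)) (b : ℕ) (r : ℝ) (K : ℕ) : Set (Vec 2) :=
  {h | h ∈ G ∧ ∀ k < K, ∃ (j : Fin 2) (s : ℝ), (s = 1 ∨ s = -1) ∧
    ∀ g ∈ G, (b : ℝ) ^ k * r / 9 < ‖g - h - (s * ((b : ℝ) ^ k * r)) • ej j‖}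

/-- **Porosity.** -/
theorem por8 {b : ℕ} (hb : 64 ≤ b) (R : ℝ) (G : Set (Vec 2)) {r : ℝ} (hr : 0 < r) (K : ℕ)
    (hK : (b : ℝ) ^ K * r ≤ 1) :
    volume (PorS G b r K ∩ {h : Vec 2 | ‖h‖ ≤ R}) ≤
      ENNReal.ofReal ((2 * |R| + 1) ^ 2 * (1 - 1 / (b : ℝ) ^ 2) ^ K) := by
  have hb1 : 1 ≤ b := by omega
  have hb' : (64 : ℝ) ≤ b := by exact_mod_cast hb
  have hq0 : (0 : ℝ) ≤ 1 - 1 / (b : ℝ) ^ 2 := by
    have : 1 / (b : ℝ) ^ 2 ≤ 1 := by
      rw [div_le_one (by positivity)]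
      exact one_le_pow₀ (by linarith)
    linarith
  set e := MeasurableEquiv.toLp 2 (Fin 2 → ℝ) with he
  have hmp : MeasurePreserving e :=
    (EuclideanSpace.volume_preserving_symm_measurableEquiv_toLp (Fin 2)).symm
  set T : ℕ → Set (Fin 2 → ℝ) := fun k => e ⁻¹' PorS G b r k with hT
  set S : ℕ → ℝ := fun k => 5 / 64 * ((b : ℝ) ^ k * r) with hS
  have hS0 : ∀ k, 0 < S k := fun k => by
    simp only [hS]
    positivity
  have hSs : ∀ k, S (k + 1) = b * S k := fun k => by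
    simp only [hS]
    ring
  have hTd : ∀ k, T (k + 1) ⊆ T k := fun k x hx => ⟨hx.1, fun i hi => hx.2 i (by omega)⟩
  have hfree : ∀ (k : ℕ) (c : Fin 2 → ℝ), ∃ a : Fin 2 → Fin b,
      T (k + 1) ∩ Bx (cr c (S k) a) (S k) = ∅ := by
    intro k c
    obtain ⟨a, ha⟩ := hole8 hb (G := G) (r := (b : ℝ) ^ k * r) (by positivity) c
      (B := PorS G b r (k + 1)) fun h hh => ⟨hh.1, hh.2 k (Nat.lt_succ_self k)⟩
    refine ⟨a, Set.eq_empty_of_forall_notMem fun x hx => ?_⟩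
    exact ha (e x) hx.1 hx.2
  have hdec := decay8 hb1 T S hS0 hSs hTd hfree K
  -- the cover of the ball
  obtain ⟨N, hN⟩ : ∃ N : ℕ, N = ⌊2 * |R| / S K⌋₊ + 1 := ⟨_, rfl⟩
  have hN1 : 2 * |R| < N * S K := by
    have h1 := Nat.lt_floor_add_one (2 * |R| / S K)
    rw [div_lt_iff₀ (hS0 K)] at h1
    rw [hN]
    push_cast
    exact h1
  have hN2 : N * S K ≤ 2 * |R| + 1 := by
    have h1 := Nat.floor_le (div_nonneg (by positivity : 0 ≤ 2 * |R|) (hS0 K).le)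
    rw [le_div_iff₀ (hS0 K)] at h1
    have h2 : S K ≤ 1 := by
      simp only [hS]
      linarith
    rw [hN]
    push_cast
    linarith
  have hvol : volume (PorS G b r K ∩ {h : Vec 2 | ‖h‖ ≤ R}) =
      volume (e ⁻¹' (PorS G b r K ∩ {h : Vec 2 | ‖h‖ ≤ R})) :=
    (hmp.measure_preimage_equiv _).symm
  have hcov : e ⁻¹' (PorS G b r K ∩ {h : Vec 2 | ‖h‖ ≤ R}) ⊆
      ⋃ a : Fin 2 → Fin N, (T K ∩ Bx (cr (fun _ => -|R|) (S K) a) (S K)) := by
    rintro x ⟨hx1, hx2⟩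
    have hxi : ∀ i, |x i| ≤ |R| := fun i => by
      have h1 := PiLp.norm_apply_le (e x) i
      rw [Real.norm_eq_abs] at h1
      exact (h1.trans hx2).trans (le_abs_self R)
    have hxB : x ∈ Bx (fun _ => -|R|) (N * S K) := by
      rw [mem_Bx]
      intro i
      have h1 := abs_le.1 (hxi i)
      constructor <;> linarith [h1.1, h1.2]
    obtain ⟨a, ha⟩ := cover8 (hS0 K) hxB
    exact Set.mem_iUnion.2 ⟨a, hx1, ha⟩
  rw [hvol]
  refine (measure_mono hcov).trans ((measure_iUnion_le _).trans ?_)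
  rw [tsum_fintype]
  refine (Finset.sum_le_card_nsmul _ _ _ fun a _ => hdec _).trans ?_
  rw [Finset.card_univ, Fintype.card_fun, Fintype.card_fin, Fintype.card_fin, nsmul_eq_mul,
    ← ENNReal.ofReal_natCast, ← ENNReal.ofReal_mul (Nat.cast_nonneg _)]
  refine ENNReal.ofReal_le_ofReal ?_
  push_cast
  have h1 : (N * S K) ^ 2 ≤ (2 * |R| + 1) ^ 2 :=
    pow_le_pow_left₀ (mul_nonneg (Nat.cast_nonneg _) (hS0 K).le) hN2 2
  have h2 := mul_le_mul_of_nonneg_right h1 (pow_nonneg hq0 K)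
  have e1 : (N : ℝ) ^ 2 * ((1 - 1 / (b : ℝ) ^ 2) ^ K * S K ^ 2) =
      (N * S K) ^ 2 * (1 - 1 / (b : ℝ) ^ 2) ^ K := by ring
  rw [e1]
  exact h2

end Pool.Agent.W_7d29a1_PA.P8
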