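import Pool.Agent.W_7d29a1_PA.DefsPA
import Pool.Agent.W_7d29a1_PA.Por8

/-!
Theorem PLA, leaf POR (helper8).
-/

set_option autoImplicit false

namespace Pool.Agent.W_7d29a1_PA

open MeasureTheory Filter Topology Pool.Agent.W_7d29a1_h46 Pool.Agent.W_7d29a1_h46u

/-- **POR**: the points of `G` with a hole at every scale are rare. -/
theorem porP8 : PorP := by
  refine ⟨1 - 1 / (64 : ℝ) ^ 2, by norm_num, by norm_num, fun R hR =>
    ⟨(2 * |R| + 1) ^ 2, by positivity, fun G r K hr hK => ?_⟩⟩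
  have h1 := P8.por8 (b := 64) le_rfl R G hr K (by exact_mod_cast hK)
  push_cast at h1
  refine (measure_mono ?_).trans h1
  rintro h ⟨h2, h3, h4⟩
  refine ⟨⟨h2, fun k hk => ?_⟩, h3⟩
  have h5 := h4 k hk
  unfold Nb at h5
  push Not at h5
  obtain ⟨j, s, hs, h6⟩ := h5
  refine ⟨j, s, hs, fun g hg => ?_⟩
  have h7 := h6 g hg
  push_cast
  exact h7

end Pool.Agent.W_7d29a1_PA
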