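import Pool.Agent.W_7d29a1_PA.AllN18
import Pool.Agent.W_7d29a1_PA.PorP8
import Pool.Agent.W_7d29a1_PA.PntN24
import Pool.Agent.W_7d29a1_PA.BudN67
import Pool.Agent.W_7d29a1_PA.CorN43
import Pool.Agent.W_7d29a1_PA.VarA43
import Pool.Agent.W_7d29a1_PA.Let43
import Pool.Agent.W_7d29a1_SP.Curv13
import Pool.Agent.W_7d29a1_R34.Box34
import Pool.Agent.W_7d29a1_R34.Tail13
import Pool.Agent.W_7d29a1_Q29.Npf98
import Pool.Agent.W_7d29a1_NR.NrAll86
import Pool.Agent.W_7d29a1_NR.MonU44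
import Pool.Agent.W_7d29a1_WP.FinX98

/-!
**Theorem PLA**: in two transversal dimensions the variance of the logarithm of the partition
function is at least a power of `n` at all large `n`, at almost every tilt of very strong disorder:
assembly (helper43).
-/

namespace Pool.Agent.W_7d29a1_PA

open MeasureTheory ProbabilityTheory Filter Topology Pool.Agent.W_MP_7d29a1_pr
  Pool.Agent.W_7d29a1_h46 Pool.Agent.W_7d29a1_h46u Pool.Agent.W_7d29a1_D2.B35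
  Pool.Agent.W_7d29a1_Q29 Pool.Agent.W_7d29a1_R34 Pool.Agent.W_7d29a1_SP Pool.Agent.W_7d29a1_PL

variable {ρ : Measure ℝ} [IsProbabilityMeasure ρ] {β : ℝ}

/-- The theorem with the largest variance up to `n`, every law. -/
theorem allNU43 (hρ : EM ρ) (hnc : ∀ c : ℝ, ρ {c} ≠ 1) (hβ : 0 < β) : AllN ρ β :=
  allN18 porP8 (pntN24 (budN67 hρ (box34 (by norm_num) hρ β) (tail13 (by norm_num) hρ β)
      (npb98 (by norm_num) hρ hnc hβ))
    (enN24 hρ (Pool.Agent.W_7d29a1_NR.nrAll86 (by norm_num) hρ hnc hβ))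
    (corN43 hρ (Pool.Agent.W_7d29a1_WP.corAll98 (by norm_num) hρ hnc hβ))) (curv13 hρ)

/-- **Theorem PLA**, for every law with the monotonicity of the variance. -/
theorem mainPAM43 (hρ : EM ρ) (hnc : ∀ c : ℝ, ρ {c} ≠ 1) (hβ : 0 < β) {t : ℝ} (ht0 : 0 < t)
    (ht1 : t < 1) (hM : Pool.Agent.W_7d29a1_NR.MonP 2 ρ β t) : MainPA ρ β :=
  mainPA43 ht0 ht1 hM (allNU43 hρ hnc hβ)

/-- **Theorem PLA**, every law which is not a point mass and has all exponential moments. -/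
theorem mainPAU43 (hρ : EM ρ) (hnc : ∀ c : ℝ, ρ {c} ≠ 1) (hβ : 0 < β) : MainPA ρ β := by
  obtain ⟨t, ht0, ht1, hM⟩ :=
    Pool.Agent.W_7d29a1_NR.monU44 (d := 2) (ρ := ρ) (β := β) (by norm_num) hρ hnc hβ
  exact mainPAM43 hρ hnc hβ ht0 ht1 hM

variable {Ω : Type*} [MeasurableSpace Ω] {μ : Measure Ω} [IsProbabilityMeasure μ]
  {ω : ℕ × Site 2 → Ω → ℝ}

/-- **The fluctuation exponent of the problem is positive at almost every tilt of very strong
disorder**, in two transversal dimensions, every law. -/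
theorem clauseChi43 (hω : IID μ ρ ω) (hρ : EM ρ) (hnc : ∀ c : ℝ, ρ {c} ≠ 1)
    (hβ : 0 < β) : ∀ᵐ h : Vec 2, lamN ρ β h < annN ρ β h → 0 < chiT μ β ω h :=
  chiPos43 hω hρ (mainPAU43 hρ hnc hβ)

/-- The variance at all large times, in the letters of the problem, every law. -/
theorem clauseVar43 (hω : IID μ ρ ω) (hρ : EM ρ) (hnc : ∀ c : ℝ, ρ {c} ≠ 1)
    (hβ : 0 < β) : ∀ᵐ h : Vec 2, lamN ρ β h < annN ρ β h → ∃ c : ℝ, 0 < c ∧
      ∀ᶠ n : ℕ in atTop,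
        (n : ℝ) ^ c ≤ Var[fun x => Real.log (Zn β h (fun p => ω p x) n); μ] :=
  varPos43 hω hρ (mainPAU43 hρ hnc hβ)

/-- The same with the dimension as a variable. -/
theorem clauseChiD43 {d : ℕ} (hd : d = 2) {ω : ℕ × Site d → Ω → ℝ} (hω : IID μ ρ ω) (hρ : EM ρ)
    (hnc : ∀ c : ℝ, ρ {c} ≠ 1) (hβ : 0 < β) :
    ∀ᵐ h : Vec d, lamN ρ β h < annN ρ β h → 0 < chiT μ β ω h := by
  subst hd
  exact clauseChi43 hω hρ hnc hβ

/-- The same with the dimension as a variable. -/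
theorem clauseVarD43 {d : ℕ} (hd : d = 2) {ω : ℕ × Site d → Ω → ℝ} (hω : IID μ ρ ω) (hρ : EM ρ)
    (hnc : ∀ c : ℝ, ρ {c} ≠ 1) (hβ : 0 < β) :
    ∀ᵐ h : Vec d, lamN ρ β h < annN ρ β h → ∃ c : ℝ, 0 < c ∧ ∀ᶠ n : ℕ in atTop,
      (n : ℝ) ^ c ≤ Var[fun x => Real.log (Zn β h (fun p => ω p x) n); μ] := by
  subst hd
  exact clauseVar43 hω hρ hnc hβ

end Pool.Agent.W_7d29a1_PA
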