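import Pool.Agent.W_7d29a1_PA.AllN18
import Pool.Agent.W_7d29a1_PA.PorP8
import Pool.Agent.W_7d29a1_PA.PntN24
import Pool.Agent.W_7d29a1_PA.BudN67
import Pool.Agent.W_7d29a1_PA.VarA43
import Pool.Agent.W_7d29a1_NR.NrAll86
import Pool.Agent.W_7d29a1_WP.FinX98
import Pool.Agent.W_7d29a1_UC.LogB92
import Pool.Agent.W_7d29a1_SP.Curv13
import Pool.Agent.W_7d29a1_R34.Box34
import Pool.Agent.W_7d29a1_R34.Tail13
import Pool.Agent.W_7d29a1_Q29.Npf98

/-!
The power law for the variance at all large times: the final theorems (helper67).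
-/

namespace Pool.Agent.W_7d29a1_PA

open MeasureTheory ProbabilityTheory Filter Topology Pool.Agent.W_MP_7d29a1_pr
  Pool.Agent.W_7d29a1_h46 Pool.Agent.W_7d29a1_h46u Pool.Agent.W_7d29a1_D2.B35
  Pool.Agent.W_7d29a1_Q29 Pool.Agent.W_7d29a1_R34 Pool.Agent.W_7d29a1_SP Pool.Agent.W_7d29a1_PL

variable {ρ : Measure ℝ} [IsProbabilityMeasure ρ]

/-- The core without the lower bound of the fluctuations: at one tilt they beat every multiple of
the logarithm. -/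
theorem corN67 (hρ : EM ρ) {β : ℝ} (hC : CorP 2 ρ β) : CorN ρ β := by
  intro g C₀ hg hC₀
  obtain ⟨c, A₁, hc, H⟩ := hC g C₀ hg hC₀
  refine ⟨c, hc, fun h hgap => ?_⟩
  obtain ⟨n₀, hn₀⟩ := H h hgap
  have hV : VSD ρ β h := by
    show lam ρ β h < Real.log (Phi h) + Real.log (∫ t, Real.exp (β * t) ∂ρ)
    linarith
  have hlog := Pool.Agent.W_7d29a1_UC.logB92 (d := 2) (by norm_num) hρ β h hV (32 * |A₁|)
  have hm : Tendsto (fun n : ℕ => ⌊(n : ℝ) ^ (1 / 8 : ℝ)⌋₊) atTop atTop :=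
    tendsto_nat_floor_atTop.comp ((tendsto_rpow_atTop (by norm_num : (0 : ℝ) < 1 / 8)).comp
      tendsto_natCast_atTop_atTop)
  obtain ⟨n₁, hn₁⟩ := eventually_atTop.1 ((hm.eventually hlog).and
    (hm.eventually_ge_atTop 2))
  refine ⟨max n₀ (max n₁ 1), fun n hn hV' => ?_⟩
  have hn0 : n₀ ≤ n := (le_max_left _ _).trans hn
  have hn1 : n₁ ≤ n := (le_max_left _ _).trans ((le_max_right _ _).trans hn)
  have hn2 : 1 ≤ n := (le_max_right _ _).trans ((le_max_right _ _).trans hn)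
  refine hn₀ n hn0 hV' ?_
  obtain ⟨⟨k, hk, hk2⟩, hm2⟩ := hn₁ n hn1
  obtain ⟨m, hmdef⟩ : ∃ m, m = ⌊(n : ℝ) ^ (1 / 8 : ℝ)⌋₊ := ⟨_, rfl⟩
  rw [← hmdef] at hk hk2 hm2
  have hnr : (1 : ℝ) ≤ n := by exact_mod_cast hn2
  have hn00 : (0 : ℝ) < n := by linarith
  have hx0 : 0 ≤ (n : ℝ) ^ (1 / 8 : ℝ) := by positivity
  have hx8 : ((n : ℝ) ^ (1 / 8 : ℝ)) ^ 8 = n := by
    rw [← Real.rpow_natCast, ← Real.rpow_mul hn00.le]
    norm_num
  have hm8 : m ^ 8 ≤ n := by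
    have h1 : (m : ℝ) ≤ (n : ℝ) ^ (1 / 8 : ℝ) := by
      rw [hmdef]
      exact Nat.floor_le hx0
    have h2 : (m : ℝ) ^ 8 ≤ n := by
      rw [← hx8]
      exact pow_le_pow_left₀ (Nat.cast_nonneg m) h1 8
    exact_mod_cast h2
  refine ⟨k, (Nat.pow_le_pow_left hk 8).trans hm8, ?_⟩
  -- the fluctuation
  have hint := intX15 (ρ := ρ) (d := 2) (by norm_num) hρ β h k
  have h1 : ∫ η, |X β h η k - k * lam ρ β h| ∂(law 2 ρ) ≤ Fn ρ β h k + En ρ β h k := by
    have hE0 : 0 ≤ En ρ β h k := En_nonneg15 (by norm_num) hρ β h k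
    have h2 : ∀ η : Env 2, |X β h η k - k * lam ρ β h| ≤
        |X β h η k - A ρ β h k| + En ρ β h k := by
      intro η
      have h3 : X β h η k - k * lam ρ β h = (X β h η k - A ρ β h k) + -(En ρ β h k) := by
        unfold En
        ring
      rw [h3]
      refine (abs_add_le _ _).trans ?_
      rw [abs_neg, abs_of_nonneg hE0]
    have h4 := integral_mono_of_nonneg (μ := law 2 ρ)
      (Eventually.of_forall fun η => abs_nonneg (X β h η k - k * lam ρ β h))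
      (hint.abs.add (integrable_const (En ρ β h k))) (Eventually.of_forall h2)
    refine h4.trans (le_of_eq ?_)
    rw [integral_add' hint.abs (integrable_const _)]
    simp [Fn]
  have h2 : Fn ρ β h k + En ρ β h k ≤ 2 * fM ρ β h k := by
    unfold fM
    have := le_max_left (En ρ β h k) (Fn ρ β h k)
    have := le_max_right (En ρ β h k) (Fn ρ β h k)
    linarith
  have hm2' : (2 : ℝ) ≤ m := by exact_mod_cast hm2
  have hlogm : 0 < Real.log m := Real.log_pos (by linarith)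
  have h3 : Real.log n ≤ 16 * Real.log m := by
    have h4 : (n : ℝ) ^ (1 / 8 : ℝ) ≤ (m : ℝ) ^ 2 := by
      have h5 : (n : ℝ) ^ (1 / 8 : ℝ) < m + 1 := by
        rw [hmdef]
        exact Nat.lt_floor_add_one _
      nlinarith
    have h5 : (n : ℝ) ≤ (m : ℝ) ^ 16 := by
      calc (n : ℝ) = ((n : ℝ) ^ (1 / 8 : ℝ)) ^ 8 := hx8.symm
        _ ≤ ((m : ℝ) ^ 2) ^ 8 := pow_le_pow_left₀ hx0 h4 8
        _ = (m : ℝ) ^ 16 := by ring
    have h6 := Real.log_le_log hn00 h5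
    rw [Real.log_pow] at h6
    exact_mod_cast h6
  have h4 : A₁ * Real.log n ≤ |A₁| * (16 * Real.log m) := by
    have hl : 0 ≤ Real.log n := Real.log_nonneg hnr
    calc A₁ * Real.log n ≤ |A₁| * Real.log n :=
          mul_le_mul_of_nonneg_right (le_abs_self _) hl
      _ ≤ |A₁| * (16 * Real.log m) := mul_le_mul_of_nonneg_left h3 (abs_nonneg _)
  nlinarith

/-- The tilts of small variance have holes at every scale, every law. -/
theorem pntNAll67 (hρ : EM ρ) (hnc : ∀ c : ℝ, ρ {c} ≠ 1) {β : ℝ} (hβ : 0 < β) : PntN ρ β :=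
  pntN24 (budN67 hρ (box34 (by norm_num) hρ β) (tail13 (by norm_num) hρ β)
      (npb98 (by norm_num) hρ hnc hβ))
    (enN24 hρ (Pool.Agent.W_7d29a1_NR.nrAll86 (by norm_num) hρ hnc hβ))
    (corN67 hρ (Pool.Agent.W_7d29a1_WP.corAll98 (by norm_num) hρ hnc hβ))

/-- **Theorem PLA**, every law: `d = 2`, almost every tilt of very strong disorder, all large
times: the largest variance up to `n` is at least a power of `n`. -/
theorem allN67 (hρ : EM ρ) (hnc : ∀ c : ℝ, ρ {c} ≠ 1) {β : ℝ} (hβ : 0 < β) : AllN ρ β :=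
  allN18 porP8 (pntNAll67 hρ hnc hβ) (curv13 hρ)

/-- **Theorem PLA**, with the variance at `n` itself, from its monotonicity. -/
theorem mainPA67 (hρ : EM ρ) (hnc : ∀ c : ℝ, ρ {c} ≠ 1) {β : ℝ} (hβ : 0 < β) {t : ℝ}
    (ht0 : 0 < t) (ht1 : t < 1) (hM : Pool.Agent.W_7d29a1_NR.MonP 2 ρ β t) : MainPA ρ β :=
  mainPA43 ht0 ht1 hM (allN67 hρ hnc hβ)

/-- **Theorem PLA** for the laws of convex functions of a Gaussian. -/
theorem mainPAG67 (hG : GC ρ) (hρ : EM ρ) (hnc : ∀ c : ℝ, ρ {c} ≠ 1) {β : ℝ} (hβ : 0 < β) :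
    MainPA ρ β :=
  mainPA67 hρ hnc hβ (t := 2 / 3) (by norm_num) (by norm_num)
    (Pool.Agent.W_7d29a1_NR.monG43 (by norm_num) hρ hG hβ.le)

end Pool.Agent.W_7d29a1_PA
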