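import Pool.Agent.W_7d29a1_PA.DefsPA
import Pool.Agent.W_7d29a1_R34.Leak94
import Pool.Agent.W_7d29a1_PL.BudP67

/-!
The leak of the window at one time, from the neighbours at one scale (helper67, after `leak94`).
-/

namespace Pool.Agent.W_7d29a1_PA

open MeasureTheory ProbabilityTheory Filter Topology Pool.Agent.W_MP_7d29a1_pr
  Pool.Agent.W_7d29a1_h46 Pool.Agent.W_7d29a1_h46u Pool.Agent.W_7d29a1_D2.B35
  Pool.Agent.W_7d29a1_Q29 Pool.Agent.W_7d29a1_R34 Pool.Agent.W_7d29a1_SP Pool.Agent.W_7d29a1_PL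

variable {ρ : Measure ℝ} [IsProbabilityMeasure ρ] {β : ℝ}

/-- The mass outside a window, from the tilts at one scale. -/
theorem leakOne67 (hρ : EM ρ) (hBox : BoxR 2 ρ β) (hTail : TailR 2 ρ β) {K r1 w : ℝ}
    {h v : Vec 2} {n t k1 : ℕ} (htn : t ≤ n) (hK : 1 ≤ K) (hr1 : 0 < r1) (hw : 1 ≤ w)
    (hk1 : 2 * (t : ℝ) < 16 ^ k1 * w) (hVn : Va ρ β h n ≤ K) (hVt : Va ρ β h (n - t) ≤ K)
    (hden : ∀ (j : Fin 2) (s : ℝ), (s = 1 ∨ s = -1) →
      ∃ g : Vec 2, ‖g - h - (s * r1) • ej j‖ ≤ r1 / 9 ∧ Va ρ β g t ≤ K)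
    (hsd : ∀ j : Fin 2, A ρ β (h + (2 * r1) • ej j) t + A ρ β (h - (2 * r1) • ej j) t -
      2 * A ρ β h t ≤ r1 * w / 8)
    (hv : ∀ g : Vec 2, A ρ β h t + inner ℝ v (g - h) ≤ A ρ β g t) :
    ∫ η, (1 - ∑ y ∈ (boxF 2 t).filter (fun y => ∀ j, |(emb y - v) j| < w), Qt β h n t y η)
      ∂(law 2 ρ) ≤
      k1 * (3328 * K / (r1 * w) ^ 2 + 1536 * Real.sqrt (K * St ρ β h n t) / r1) := by
  classical
  have hd : 0 < 2 := by norm_num
  have hw0 : 0 < w := by linarith
  have hSt : 0 ≤ St ρ β h n t := by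
    unfold St
    exact integral_nonneg fun η => Finset.sum_nonneg fun y _ => sq_nonneg _
  obtain ⟨s, hs⟩ : ∃ s, s = Real.sqrt (K * St ρ β h n t) := ⟨_, rfl⟩
  have hs0 : 0 ≤ s := by rw [hs]; exact Real.sqrt_nonneg _
  rw [← hs]
  have iQ : ∀ y, Integrable (fun η => Qt β h n t y η) (law 2 ρ) := fun y =>
    Integrable.mono' (integrable_const (1 : ℝ)) (measurable_Qt94 β h n t y).aestronglyMeasurable
      (Eventually.of_forall fun η => by
        rw [Real.norm_eq_abs, abs_of_nonneg (Qt_nonneg94 β h n t y η)]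
        exact Qt_le_one94 hd β h htn y η)
  set Wd : ℕ → Finset (Site 2) := fun k =>
    (boxF 2 t).filter (fun y => ∀ j, |(emb y - v) j| < 16 ^ k * w) with hWd
  have hWd0 : (boxF 2 t).filter (fun y => ∀ j, |(emb y - v) j| < w) = Wd 0 := by
    simp only [hWd, pow_zero, one_mul]
  rw [hWd0]
  have i1 : ∀ T : Finset (Site 2), Integrable (fun η => ∑ y ∈ T, Qt β h n t y η) (law 2 ρ) :=
    fun T => integrable_finsetSum T fun y _ => iQ y
  have hfull : Wd k1 = boxF 2 t := by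
    simp only [hWd]
    rw [Finset.filter_eq_self]
    intro y hy j
    have h1 : (emb y - v) j = (y j : ℝ) - v j := by simp [emb]
    rw [h1]
    rw [mem_boxF] at hy
    have h2 : |(y j : ℝ)| ≤ t := by exact_mod_cast hy j
    have h3 := subabs94 hd hρ hv j
    have h4 := abs_sub (y j : ℝ) (v j)
    linarith
  have hmono : ∀ k, Wd k ⊆ Wd (k + 1) := by
    intro k y hy
    simp only [hWd, Finset.mem_filter] at hy ⊢
    refine ⟨hy.1, fun j => (hy.2 j).trans_le ?_⟩
    rw [pow_succ]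
    have : (0 : ℝ) < 16 ^ k * w := by positivity
    nlinarith
  obtain ⟨B, hB⟩ : ∃ B, B = 3328 * K / (r1 * w) ^ 2 + 1536 * s / r1 := ⟨_, rfl⟩
  rw [← hB]
  have hshell : ∀ k, ∫ η, ∑ y ∈ Wd (k + 1) \ Wd k, Qt β h n t y η ∂(law 2 ρ) ≤ B := by
    intro k
    have h16 : (1 : ℝ) ≤ 16 ^ k := one_le_pow₀ (by norm_num)
    have h160 : (0 : ℝ) < 16 ^ k := by positivity
    have hr : 0 < 16 ^ k * w := by positivity
    have hsd' : ∀ j : Fin 2, A ρ β (h + (2 * r1) • ej j) t +
        A ρ β (h - (2 * r1) • ej j) t - 2 * A ρ β h t ≤ r1 * (16 ^ k * w) / 8 := by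
      intro j
      refine (hsd j).trans ?_
      have h1 : w ≤ 16 ^ k * w := le_mul_of_one_le_left hw0.le h16
      have h2 := mul_le_mul_of_nonneg_left h1 hr1.le
      linarith
    have hfar : ∀ y ∈ Wd (k + 1) \ Wd k, ∃ i, 16 ^ k * w ≤ |emb y i - v i| := by
      intro y hy
      rw [Finset.mem_sdiff] at hy
      have h1 := hy.2
      simp only [hWd, Finset.mem_filter, not_and, not_forall, not_lt] at h1
      have h2 : y ∈ boxF 2 t := by
        have := hy.1
        simp only [hWd, Finset.mem_filter] at this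
        exact this.1
      obtain ⟨j, hj⟩ := h1 h2
      exact ⟨j, hj⟩
    have hsub : Wd (k + 1) \ Wd k ⊆ boxF 2 t := by
      intro y hy
      have := (Finset.mem_sdiff.1 hy).1
      simp only [hWd, Finset.mem_filter] at this
      exact this.1
    have hmain := shell94 hρ hBox hTail (K := K) (r1 := r1) (r := 16 ^ k * w)
      (h := h) (v := v) htn hK hr1 hr hVn hVt hden hsd' hv (Wd (k + 1) \ Wd k) hsub hfar
    refine hmain.trans ?_
    have hcard : ((Wd (k + 1) \ Wd k).card : ℝ) ≤ 9 * (16 ^ (k + 1) * w) ^ 2 := by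
      refine card94 (v := v) ?_ _ fun y hy => ?_
      · have : (1 : ℝ) ≤ 16 ^ (k + 1) := one_le_pow₀ (by norm_num)
        nlinarith
      · have := (Finset.mem_sdiff.1 hy).1
        simp only [hWd, Finset.mem_filter] at this
        exact this.2
    have hroot : Real.sqrt (K * (Wd (k + 1) \ Wd k).card * St ρ β h n t) ≤
        48 * 16 ^ k * w * s := by
      have h1 : K * (Wd (k + 1) \ Wd k).card * St ρ β h n t ≤
          (48 * 16 ^ k * w) ^ 2 * (K * St ρ β h n t) := by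
        have h2 : K * ((Wd (k + 1) \ Wd k).card : ℝ) * St ρ β h n t ≤
            K * (9 * (16 ^ (k + 1) * w) ^ 2) * St ρ β h n t :=
          mul_le_mul_of_nonneg_right (mul_le_mul_of_nonneg_left hcard (by linarith)) hSt
        refine h2.trans (le_of_eq ?_)
        rw [pow_succ]
        ring
      rw [hs, ← Real.sqrt_sq (show 0 ≤ 48 * 16 ^ k * w by positivity), ← Real.sqrt_mul
        (sq_nonneg _)]
      exact Real.sqrt_le_sqrt h1
    have e1 : 4 * (52 * K / (r1 * (16 ^ k * w) / 4) ^ 2) ≤ 3328 * K / (r1 * w) ^ 2 := by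
      have h1 : 4 * (52 * K / (r1 * (16 ^ k * w) / 4) ^ 2) =
          3328 * K / (r1 * w) ^ 2 / (16 ^ k) ^ 2 := by
        field_simp
        ring
      rw [h1]
      refine div_le_self (by positivity) ?_
      exact one_le_pow₀ h16
    have e2 : 4 * (2 / (r1 * (16 ^ k * w) / 4) * (48 * 16 ^ k * w * s)) = 1536 * s / r1 := by
      field_simp
      ring
    have h2 := mul_le_mul_of_nonneg_left hroot
      (show 0 ≤ 2 / (r1 * (16 ^ k * w) / 4) by positivity)
    rw [mul_add, hB, ← e2]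
    linarith
  -- telescoping
  have htel : ∀ k : ℕ, ∫ η, (∑ y ∈ Wd k, Qt β h n t y η - ∑ y ∈ Wd 0, Qt β h n t y η)
      ∂(law 2 ρ) ≤ k * B := by
    intro k
    induction k with
    | zero => simp
    | succ k ih =>
      have h2 := hshell k
      have h3 : ∀ η : Env 2, ∑ y ∈ Wd (k + 1), Qt β h n t y η - ∑ y ∈ Wd 0, Qt β h n t y η =
          (∑ y ∈ Wd k, Qt β h n t y η - ∑ y ∈ Wd 0, Qt β h n t y η) +
            ∑ y ∈ Wd (k + 1) \ Wd k, Qt β h n t y η := by
        intro η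
        have h4 := Finset.sum_sdiff (f := fun y => Qt β h n t y η) (hmono k)
        linarith
      simp only [h3]
      have j1 : Integrable (fun η => ∑ y ∈ Wd k, Qt β h n t y η - ∑ y ∈ Wd 0, Qt β h n t y η)
        (law 2 ρ) := (i1 (Wd k)).sub (i1 (Wd 0))
      rw [integral_add j1 (i1 _)]
      push_cast
      linarith
  have hfin := htel k1
  have h1 : ∀ η : Env 2, ∑ y ∈ Wd k1, Qt β h n t y η = 1 := fun η => by
    rw [hfull]
    exact sumQt_eq94 hd β h htn (Finset.Subset.refl _) η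
  simp only [h1] at hfin
  exact hfin

/-- The average over the times: few bad times. -/
lemma cnt67 {n : ℕ} (hn : 1000 ≤ n) {V Θ x Y : ℝ} (f S : ℕ → ℝ) (hS0 : ∀ t, 0 ≤ S t)
    (hSum : ∑ t ∈ Finset.Icc 1 n, S t ≤ Y) (hx0 : 0 < x) (hx : Y ≤ n / 200 * x) (hV : 0 ≤ V)
    (hΘ : 0 ≤ Θ)
    (hgood : ∀ t ∈ Finset.range n, n ≤ 10 * t → S t ≤ x → f t ≤ V + 1 / 8 * Θ)
    (hbad : ∀ t ∈ Finset.range n, f t ≤ Θ) :
    (∑ t ∈ Finset.range n, f t) / n ≤ V + 3 / 10 * Θ := by
  classical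
  have hnR : (1000 : ℝ) ≤ n := by exact_mod_cast hn
  have hn0 : (0 : ℝ) < n := by linarith
  obtain ⟨T₁, hT₁⟩ : ∃ T₁, T₁ = (Finset.range n).filter (fun t => 10 * t < n) := ⟨_, rfl⟩
  obtain ⟨T₂, hT₂⟩ : ∃ T₂, T₂ = (Finset.range n).filter
    (fun t => 1 ≤ t ∧ x < S t) := ⟨_, rfl⟩
  have hc1' : (T₁.card : ℝ) ≤ n / 10 + 1 := by
    have h1 : T₁ ⊆ Finset.range (n / 10 + 1) := by
      intro t ht
      rw [hT₁, Finset.mem_filter] at ht
      rw [Finset.mem_range]
      omega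
    have h2 := Finset.card_le_card h1
    rw [Finset.card_range] at h2
    have h3 : ((n / 10 : ℕ) : ℝ) ≤ (n : ℝ) / 10 := by
      have := @Nat.cast_div_le ℝ _ _ _ n 10
      simpa using this
    have h4 : (T₁.card : ℝ) ≤ ((n / 10 + 1 : ℕ) : ℝ) := by exact_mod_cast h2
    rw [Nat.cast_add, Nat.cast_one] at h4
    linarith
  have hc2' : (T₂.card : ℝ) ≤ n / 200 := by
    have h1 : T₂.card * x ≤ ∑ t ∈ T₂, S t := by
      rw [← nsmul_eq_mul]
      refine Finset.card_nsmul_le_sum _ _ _ fun t ht => ?_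
      rw [hT₂, Finset.mem_filter] at ht
      exact ht.2.2.le
    have h2 : ∑ t ∈ T₂, S t ≤ ∑ t ∈ Finset.Icc 1 n, S t := by
      refine Finset.sum_le_sum_of_subset_of_nonneg ?_ fun t _ _ => hS0 t
      intro t ht
      rw [hT₂, Finset.mem_filter, Finset.mem_range] at ht
      rw [Finset.mem_Icc]
      exact ⟨ht.2.1, ht.1.le⟩
    by_contra hcon
    push Not at hcon
    have h7 := mul_lt_mul_of_pos_right hcon hx0
    linarith
  obtain ⟨U, hU⟩ : ∃ U, U = V + 1 / 8 * Θ := ⟨_, rfl⟩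
  rw [← hU] at hgood
  have hsum : ∑ t ∈ Finset.range n, f t ≤
      ∑ t ∈ Finset.range n, (U + ((if t ∈ T₁ then Θ else 0) +
        (if t ∈ T₂ then Θ else 0))) := by
    refine Finset.sum_le_sum fun t ht => ?_
    have h1 : 0 ≤ U := by
      rw [hU]
      positivity
    by_cases a1 : t ∈ T₁
    · have := hbad t ht
      rw [if_pos a1]
      split_ifs <;> linarith
    · by_cases a2 : t ∈ T₂
      · have := hbad t ht
        rw [if_neg a1, if_pos a2]
        linarith
      · rw [if_neg a1, if_neg a2]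
        have b1 : n ≤ 10 * t := by
          by_contra hcon
          exact a1 (by rw [hT₁, Finset.mem_filter]; exact ⟨ht, not_le.1 hcon⟩)
        have b2 : S t ≤ x := by
          by_contra hcon
          refine a2 ?_
          rw [hT₂, Finset.mem_filter]
          exact ⟨ht, by omega, not_le.1 hcon⟩
        have := hgood t ht b1 b2
        linarith
  have hind : ∀ T : Finset ℕ, T ⊆ Finset.range n →
      ∑ t ∈ Finset.range n, (if t ∈ T then Θ else 0) = T.card * Θ := by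
    intro T hT
    rw [← Finset.sum_filter, Finset.sum_const, nsmul_eq_mul]
    congr 2
    congr 1
    ext t
    rw [Finset.mem_filter]
    exact ⟨fun h => h.2, fun h => ⟨hT h, h⟩⟩
  rw [Finset.sum_add_distrib, Finset.sum_add_distrib, Finset.sum_const, Finset.card_range,
    nsmul_eq_mul, hind T₁ (by rw [hT₁]; exact Finset.filter_subset _ _),
    hind T₂ (by rw [hT₂]; exact Finset.filter_subset _ _)] at hsum
  rw [div_le_iff₀ hn0]
  have h2 : (T₁.card : ℝ) * Θ ≤ (n / 10 + 1) * Θ := mul_le_mul_of_nonneg_right hc1' hΘ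
  have h3 : (T₂.card : ℝ) * Θ ≤ n / 200 * Θ := mul_le_mul_of_nonneg_right hc2' hΘ
  have h4 : (1000 : ℝ) * Θ ≤ n * Θ := mul_le_mul_of_nonneg_right hnR hΘ
  rw [hU] at hsum
  nlinarith

end Pool.Agent.W_7d29a1_PA
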