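import Pool.Agent.W_7d29a1_PA.DefsPA
import Pool.Agent.W_7d29a1_PL.CorL63

/-!
Theorem PLA: the leaves CORN and PNTN (helper63).
-/

set_option autoImplicit false

namespace Pool.Agent.W_7d29a1_PA

open MeasureTheory ProbabilityTheory Filter Topology Pool.Agent.W_MP_7d29a1_pr
  Pool.Agent.W_7d29a1_h46 Pool.Agent.W_7d29a1_h46u Pool.Agent.W_7d29a1_D2.B35
  Pool.Agent.W_7d29a1_Q29 Pool.Agent.W_7d29a1_R34 Pool.Agent.W_7d29a1_SP Pool.Agent.W_7d29a1_PL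

/-- CORN is the core at one scale in two dimensions. -/
theorem corN63 {ρ : Measure ℝ} {β : ℝ} (h : CorL 2 ρ β) : CorN ρ β := h

/-- CORN, over the leaves of PL. -/
theorem corNU63 {ρ : Measure ℝ} [IsProbabilityMeasure ρ] (hρ : EM ρ) {β : ℝ}
    (hLoc : LocE 2 ρ β) (hA : AddP 2 ρ β) (hC : ChpP 2 ρ β) (hS : SelP) : CorN ρ β :=
  corLU63 (by norm_num) hρ hLoc hA hC hS

/-- PNTN. -/
theorem pntN63 {ρ : Measure ℝ} {β : ℝ} (hB : BudN ρ β) (hE : EnN ρ β) (hC : CorN ρ β) :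
    PntN ρ β := by
  intro g M hg hM
  obtain ⟨C, hC0, hB'⟩ := hB M hM
  obtain ⟨c₁, hc₁, hC'⟩ := hC g C hg hC0
  obtain ⟨a, ha, ha8, hac, haC⟩ : ∃ a : ℝ, 0 < a ∧ a ≤ 1 / 8 ∧ a ≤ c₁ ∧ C * a ≤ c₁ := by
    refine ⟨min (1 / 8) (c₁ / (C + 1)), lt_min (by norm_num) (by positivity), min_le_left _ _,
      (min_le_right _ _).trans ?_, ?_⟩
    · exact div_le_self hc₁.le (by linarith)
    · have h1 : C * min (1 / 8) (c₁ / (C + 1)) ≤ C * (c₁ / (C + 1)) :=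
        mul_le_mul_of_nonneg_left (min_le_right _ _) hC0
      refine h1.trans ?_
      rw [mul_div_assoc', div_le_iff₀ (by linarith)]
      nlinarith
  refine ⟨a, a / 16, ha, ha8, by positivity, fun h δ hδ hgap hcurv => ?_⟩
  obtain ⟨N₁, hN₁⟩ := hB' h δ a (a / 16) hδ ha ha8 (by positivity) (by linarith) hcurv
  obtain ⟨N₂, hN₂⟩ := hE h (a / 16) a (by positivity) (by linarith)
  obtain ⟨N₃, hN₃⟩ := hC' h hgap
  refine ⟨max N₁ (max N₂ (max N₃ 1)), fun N hN r hr1 hr2 hL hNb => ?_⟩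
  have h1 : N₁ ≤ N := (le_max_left _ _).trans hN
  have h2 : N₂ ≤ N := (le_max_left _ _).trans ((le_max_right _ _).trans hN)
  have h3 : N₃ ≤ N := (le_max_left _ _).trans ((le_max_right _ _).trans
    ((le_max_right _ _).trans hN))
  have h4 : 1 ≤ N := (le_max_right _ _).trans ((le_max_right _ _).trans
    ((le_max_right _ _).trans hN))
  have hN1 : (1 : ℝ) ≤ N := by exact_mod_cast h4
  have hpow : 4 * N ≤ 64 * N ^ 3 := by
    have h5 : N ≤ N ^ 3 := Nat.le_self_pow (by norm_num) _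
    omega
  have hEn := hN₂ N h2 hL
  have hp1 : (N : ℝ) ^ (a / 16) ≤ (N : ℝ) ^ c₁ :=
    Real.rpow_le_rpow_of_exponent_le hN1 (by linarith)
  have hp2 : (N : ℝ) ^ a ≤ (N : ℝ) ^ c₁ := Real.rpow_le_rpow_of_exponent_le hN1 hac
  have hBd := hN₁ N h1 r hr1 hr2 (fun m hm => hL m (by omega)) (fun m hm => hEn m (by omega)) hNb
  refine hN₃ N h3 (fun k hk => ⟨(hL k (by omega)).trans hp1, (hEn k hk).trans hp2⟩) ?_
  intro I B θ D hBm hD hJ
  refine (hBd I B θ D hBm hD hJ).trans ?_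
  have h6 : C * a * Real.log N ≤ c₁ * Real.log N :=
    mul_le_mul_of_nonneg_right haC (Real.log_nonneg hN1)
  linarith

end Pool.Agent.W_7d29a1_PA
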