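import Pool.Agent.W_7d29a1_PA.DefsPA

/-!
Leaf POR: the points with a hole at every scale are rare (nested squares).
-/

set_option autoImplicit false

namespace Pool.Agent.W_7d29a1_PA.P66

open MeasureTheory ProbabilityTheory Filter Topology Pool.Agent.W_MP_7d29a1_pr
  Pool.Agent.W_7d29a1_h46 Pool.Agent.W_7d29a1_h46u

/-- The half open square of side `l` with the lower corner `a`. -/
def bx (a : Fin 2 → ℝ) (l : ℝ) : Set (Vec 2) := {h | ∀ i, a i ≤ h i ∧ h i < a i + l}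

lemma vol_bx (a : Fin 2 → ℝ) {l : ℝ} (hl : 0 ≤ l) : volume (bx a l) = ENNReal.ofReal (l ^ 2) := by
  have e : bx a l = (WithLp.ofLp : Vec 2 → Fin 2 → ℝ) ⁻¹'
      (Set.pi Set.univ fun i => Set.Ico (a i) (a i + l)) := by
    ext h
    simp only [bx, Set.mem_preimage, Set.mem_pi, Set.mem_univ, Set.mem_Ico, true_implies]
    rfl
  rw [e, (PiLp.volume_preserving_ofLp (Fin 2)).measure_preimage
    (MeasurableSet.univ_pi fun i => measurableSet_Ico).nullMeasurableSet, Real.volume_pi_Ico,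
    Fin.prod_univ_two, ← ENNReal.ofReal_mul (by linarith)]
  congr 1
  ring

lemma cov (n : ℕ) (a : Fin 2 → ℝ) {l : ℝ} (hl : 0 < l) {h : Vec 2} (hh : h ∈ bx a (n * l)) :
    ∃ u : Fin 2 → Fin n, h ∈ bx (fun i => a i + ((u i : ℕ) : ℝ) * l) l := by
  have key : ∀ i, ∃ u : Fin n, a i + ((u : ℕ) : ℝ) * l ≤ h i ∧
      h i < a i + ((u : ℕ) : ℝ) * l + l := by
    intro i
    obtain ⟨h1, h2⟩ := hh i
    have h3 : 0 ≤ (h i - a i) / l := div_nonneg (by linarith) hl.le
    have h4 : ⌊(h i - a i) / l⌋₊ < n := by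
      rw [Nat.floor_lt h3, div_lt_iff₀ hl]
      linarith
    refine ⟨⟨⌊(h i - a i) / l⌋₊, h4⟩, ?_, ?_⟩
    · have h5 := Nat.floor_le h3
      rw [le_div_iff₀ hl] at h5
      show a i + (⌊(h i - a i) / l⌋₊ : ℝ) * l ≤ h i
      linarith
    · have h5 := Nat.lt_floor_add_one ((h i - a i) / l)
      rw [div_lt_iff₀ hl] at h5
      show h i < a i + (⌊(h i - a i) / l⌋₊ : ℝ) * l + l
      linarith
  choose u hu using key
  exact ⟨u, hu⟩

/-- The points with a hole at the first `k` scales. -/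
def En (G : Set (Vec 2)) (r : ℝ) (k : ℕ) : Set (Vec 2) :=
  {h | h ∈ G ∧ ∀ i : ℕ, i < k → ¬ Nb G h (64 ^ i * r)}

/-- One of the sub squares is free. -/
lemma free66 (G : Set (Vec 2)) {r : ℝ} (hr : 0 < r) (k : ℕ) (a : Fin 2 → ℝ) {l : ℝ}
    (hl : l = 64 ^ k * r / 16) :
    ∃ u : Fin 2 → Fin 64, ∀ z ∈ En G r (k + 1), z ∉ bx (fun i => a i + ((u i : ℕ) : ℝ) * l) l := by
  have hl0 : 0 < l := by
    rw [hl]
    positivity
  have hrk : (64 : ℝ) ^ k * r = 16 * l := by
    rw [hl]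
    ring
  by_cases hM : ∃ h ∈ En G r (k + 1), ∀ i, a i + 16 * l ≤ h i ∧ h i < a i + 48 * l
  · obtain ⟨h, hh, hM⟩ := hM
    have h1 := hh.2 k (Nat.lt_succ_self k)
    rw [hrk] at h1
    unfold Nb at h1
    push Not at h1
    obtain ⟨j, s, hs, h1⟩ := h1
    obtain ⟨y, hy⟩ : ∃ y : Vec 2, y = h + (s * (16 * l)) • ej j := ⟨_, rfl⟩
    have hsl : |s * (16 * l)| = 16 * l := by
      rcases hs with rfl | rfl
      · rw [one_mul, abs_of_pos (by positivity)]
      · rw [neg_one_mul, abs_neg, abs_of_pos (by positivity)]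
    have hyi : ∀ i, |y i - h i| ≤ 16 * l := by
      intro i
      have h2 : y i - h i = (s * (16 * l)) * (ej j : Vec 2) i := by
        rw [hy]
        simp
      rw [h2, abs_mul, hsl]
      have h3 : |(ej j : Vec 2) i| ≤ 1 := by
        unfold ej
        rw [EuclideanSpace.single_apply]
        split_ifs <;> simp
      nlinarith
    have hyQ : y ∈ bx a ((64 : ℕ) * l) := by
      intro i
      have h2 := abs_le.1 (hyi i)
      have h3 := hM i
      push_cast
      constructor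
      · linarith
      · have h4 : y i - h i ≤ 16 * l := h2.2
        linarith
    obtain ⟨u, hu⟩ := cov 64 a hl0 hyQ
    refine ⟨u, fun z hz hzu => ?_⟩
    have h2 := h1 z hz.1
    have h3 : z - h - (s * (16 * l)) • ej j = z - y := by
      rw [hy]
      abel
    rw [h3] at h2
    have h4 : ‖z - y‖ ^ 2 ≤ 2 * l ^ 2 := by
      rw [EuclideanSpace.real_norm_sq_eq, Fin.sum_univ_two]
      have h5 : ∀ i : Fin 2, (z - y) i ^ 2 ≤ l ^ 2 := by
        intro i
        have h6 := hu i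
        have h7 := hzu i
        have h8 : (z - y) i = z i - y i := rfl
        rw [h8]
        refine sq_le_sq' ?_ ?_ <;> linarith [h6.1, h6.2, h7.1, h7.2]
      have h6 := h5 0
      have h7 := h5 1
      linarith
    have h5 : (16 * l / 9) ^ 2 < ‖z - y‖ ^ 2 := pow_lt_pow_left₀ h2 (by positivity) (by norm_num)
    nlinarith
  · push Not at hM
    refine ⟨fun _ => ⟨16, by norm_num⟩, fun z hz hzu => ?_⟩
    obtain ⟨i, hi⟩ := hM z hz
    have h1 := hzu i
    have h2 : a i + 16 * l ≤ z i := by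
      have := h1.1
      norm_num at this
      exact this
    have h3 : z i < a i + 16 * l + l := by
      have := h1.2
      norm_num at this
      exact this
    have h4 := hi h2
    linarith

/-- All the sub squares except one. -/
lemma sub66 (b : ℕ) {S T : Set (Vec 2)} (hTS : T ⊆ S) (B : ENNReal) (a : Fin 2 → ℝ) {l : ℝ}
    (hl : 0 < l) (u₀ : Fin 2 → Fin b)
    (h : ∀ z ∈ T, z ∉ bx (fun i => a i + ((u₀ i : ℕ) : ℝ) * l) l)
    (hB : ∀ u : Fin 2 → Fin b, volume (S ∩ bx (fun i => a i + ((u i : ℕ) : ℝ) * l) l) ≤ B) :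
    volume (T ∩ bx a (b * l)) ≤ ((b ^ 2 - 1 : ℕ) : ENNReal) * B := by
  classical
  have h1 : T ∩ bx a (b * l) ⊆ ⋃ u ∈ (Finset.univ.erase u₀ : Finset (Fin 2 → Fin b)),
      S ∩ bx (fun i => a i + ((u i : ℕ) : ℝ) * l) l := by
    rintro z ⟨hz, hzb⟩
    obtain ⟨u, hu⟩ := cov b a hl hzb
    have hne : u ≠ u₀ := by
      intro he
      rw [he] at hu
      exact h z hz hu
    have hmem : u ∈ (Finset.univ.erase u₀ : Finset (Fin 2 → Fin b)) :=
      Finset.mem_erase.2 ⟨hne, Finset.mem_univ u⟩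
    exact Set.mem_iUnion₂.2 ⟨u, hmem, hTS hz, hu⟩
  calc volume (T ∩ bx a (b * l))
      ≤ volume (⋃ u ∈ (Finset.univ.erase u₀ : Finset (Fin 2 → Fin b)),
        S ∩ bx (fun i => a i + ((u i : ℕ) : ℝ) * l) l) := measure_mono h1
    _ ≤ ∑ u ∈ (Finset.univ.erase u₀ : Finset (Fin 2 → Fin b)),
        volume (S ∩ bx (fun i => a i + ((u i : ℕ) : ℝ) * l) l) := measure_biUnion_finset_le _ _
    _ ≤ ∑ u ∈ (Finset.univ.erase u₀ : Finset (Fin 2 → Fin b)), B :=
        Finset.sum_le_sum fun u _ => hB u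
    _ = ((b ^ 2 - 1 : ℕ) : ENNReal) * B := by
        rw [Finset.sum_const, Finset.card_erase_of_mem (Finset.mem_univ _), Finset.card_univ,
          Fintype.card_fun, Fintype.card_fin, Fintype.card_fin, nsmul_eq_mul]

/-- Nested squares. -/
lemma nest66 (G : Set (Vec 2)) {r : ℝ} (hr : 0 < r) : ∀ (k : ℕ) (a : Fin 2 → ℝ),
    volume (En G r k ∩ bx a (64 ^ k * r / 16)) ≤
      ENNReal.ofReal ((4095 / 4096) ^ k * (64 ^ k * r / 16) ^ 2) := by
  intro k
  induction k with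
  | zero =>
    intro a
    refine (measure_mono Set.inter_subset_right).trans ?_
    rw [vol_bx a (by positivity)]
    simp
  | succ k ih =>
    intro a
    obtain ⟨l, hl⟩ : ∃ l : ℝ, l = 64 ^ k * r / 16 := ⟨_, rfl⟩
    have hl0 : 0 < l := by
      rw [hl]
      positivity
    have hL : (64 : ℝ) ^ (k + 1) * r / 16 = (64 : ℕ) * l := by
      rw [hl]
      push_cast
      ring
    obtain ⟨u₀, hu₀⟩ := free66 G hr k a hl
    rw [hL]
    have h2 := sub66 64 (S := En G r k) (T := En G r (k + 1))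
      (fun z hz => ⟨hz.1, fun i hi => hz.2 i (by omega)⟩)
      (ENNReal.ofReal ((4095 / 4096) ^ k * l ^ 2)) a hl0 u₀ hu₀ (fun u => by
        have := ih fun i => a i + ((u i : ℕ) : ℝ) * l
        rw [← hl] at this
        exact this)
    refine h2.trans (le_of_eq ?_)
    rw [← ENNReal.ofReal_natCast, ← ENNReal.ofReal_mul (Nat.cast_nonneg _)]
    congr 1
    rw [show ((64 ^ 2 - 1 : ℕ) : ℝ) = 4095 by norm_num]
    push_cast
    ring

end Pool.Agent.W_7d29a1_PA.P66

namespace Pool.Agent.W_7d29a1_PA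

open MeasureTheory Pool.Agent.W_7d29a1_h46 P66

/-- **POR.** -/
theorem por66 : PorP := by
  classical
  refine ⟨4095 / 4096, by norm_num, by norm_num, fun R hR =>
    ⟨(2 * R + 2) ^ 2, by positivity, fun G r K hr hK => ?_⟩⟩
  obtain ⟨l, hl⟩ : ∃ l : ℝ, l = 64 ^ K * r / 16 := ⟨_, rfl⟩
  have hl0 : 0 < l := by
    rw [hl]
    positivity
  have hl1 : l ≤ 1 := by
    rw [hl]
    linarith
  obtain ⟨n, hn⟩ : ∃ n : ℕ, n = ⌈2 * R / l⌉₊ + 1 := ⟨_, rfl⟩
  have hn1 : 2 * R < n * l := by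
    have h1 : 2 * R / l ≤ ⌈2 * R / l⌉₊ := Nat.le_ceil _
    rw [div_le_iff₀ hl0] at h1
    rw [hn]
    push_cast
    linarith
  have hn2 : n * l ≤ 2 * R + 2 := by
    have h1 : (⌈2 * R / l⌉₊ : ℝ) < 2 * R / l + 1 := Nat.ceil_lt_add_one (by positivity)
    have h2 : (⌈2 * R / l⌉₊ : ℝ) * l ≤ (2 * R / l + 1) * l :=
      mul_le_mul_of_nonneg_right h1.le hl0.le
    have h3 : (2 * R / l + 1) * l = 2 * R + l := by
      field_simp
    rw [hn]
    push_cast
    linarith
  have h1 : {h : Vec 2 | h ∈ G ∧ ‖h‖ ≤ R ∧ ∀ k : ℕ, k < K → ¬ Nb G h (64 ^ k * r)} ⊆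
      ⋃ u ∈ (Finset.univ : Finset (Fin 2 → Fin n)),
        En G r K ∩ bx (fun i => -R + ((u i : ℕ) : ℝ) * l) l := by
    rintro h ⟨hG, hRn, hk⟩
    have h2 : h ∈ bx (fun _ => -R) (n * l) := by
      intro i
      have h3 : |h i| ≤ R := by
        have h4 : ‖h i‖ ≤ ‖h‖ := PiLp.norm_apply_le h i
        rw [Real.norm_eq_abs] at h4
        exact h4.trans hRn
      have h4 := abs_le.1 h3
      exact ⟨h4.1, by linarith [h4.2]⟩
    obtain ⟨u, hu⟩ := cov n (fun _ => -R) hl0 h2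
    exact Set.mem_iUnion₂.2 ⟨u, Finset.mem_univ _, ⟨hG, hk⟩, hu⟩
  calc volume {h : Vec 2 | h ∈ G ∧ ‖h‖ ≤ R ∧ ∀ k : ℕ, k < K → ¬ Nb G h (64 ^ k * r)}
      ≤ volume (⋃ u ∈ (Finset.univ : Finset (Fin 2 → Fin n)),
        En G r K ∩ bx (fun i => -R + ((u i : ℕ) : ℝ) * l) l) := measure_mono h1
    _ ≤ ∑ u ∈ (Finset.univ : Finset (Fin 2 → Fin n)),
        volume (En G r K ∩ bx (fun i => -R + ((u i : ℕ) : ℝ) * l) l) :=
        measure_biUnion_finset_le _ _
    _ ≤ ∑ u ∈ (Finset.univ : Finset (Fin 2 → Fin n)),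
        ENNReal.ofReal ((4095 / 4096) ^ K * l ^ 2) := Finset.sum_le_sum fun u _ => by
          have := nest66 G hr K fun i => -R + ((u i : ℕ) : ℝ) * l
          rw [← hl] at this
          exact this
    _ = ENNReal.ofReal ((n * l) ^ 2 * (4095 / 4096) ^ K) := by
        rw [Finset.sum_const, Finset.card_univ, Fintype.card_fun, Fintype.card_fin,
          Fintype.card_fin, nsmul_eq_mul, ← ENNReal.ofReal_natCast,
          ← ENNReal.ofReal_mul (Nat.cast_nonneg _)]
        congr 1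
        push_cast
        ring
    _ ≤ ENNReal.ofReal ((2 * R + 2) ^ 2 * (4095 / 4096) ^ K) := by
        refine ENNReal.ofReal_le_ofReal ?_
        refine mul_le_mul_of_nonneg_right ?_ (by positivity)
        exact pow_le_pow_left₀ (by positivity) hn2 2

end Pool.Agent.W_7d29a1_PA
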