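import Mathlib

/-!
Porosity at many scales in the plane (pure): a bounded set with a hole of relative size `1 / 9`
near every point at `K` scales has a volume of at most `C (4095 / 4096) ^ K`.
-/

set_option autoImplicit false

namespace Pool.Agent.W_7d29a1_PA.Por79

open MeasureTheory

/-- The index of the cell of a point. -/
noncomputable def ix (l : ℝ) (x : EuclideanSpace ℝ (Fin 2)) : ℤ × ℤ := (⌊x 0 / l⌋, ⌊x 1 / l⌋)

/-- The parent. -/
def par (z : ℤ × ℤ) : ℤ × ℤ := (z.1 / 64, z.2 / 64)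

lemma floor64 (x l : ℝ) (hl : 0 < l) : ⌊x / (64 * l)⌋ = ⌊x / l⌋ / 64 := by
  rw [Int.floor_eq_iff]
  have h1 := Int.floor_le (x / l)
  have h2 := Int.lt_floor_add_one (x / l)
  set q := ⌊x / l⌋
  have h3 : 64 * (q / 64) ≤ q := by omega
  have h4 : q + 1 ≤ 64 * (q / 64) + 64 := by omega
  have h3' : (64 : ℝ) * ((q / 64 : ℤ) : ℝ) ≤ q := by exact_mod_cast h3
  have h4' : (q : ℝ) + 1 ≤ 64 * ((q / 64 : ℤ) : ℝ) + 64 := by exact_mod_cast h4
  have e : x / (64 * l) = x / l / 64 := by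
    field_simp
  rw [e]
  constructor
  · linarith
  · linarith

lemma ix_par (l : ℝ) (hl : 0 < l) (x : EuclideanSpace ℝ (Fin 2)) :
    ix (64 * l) x = par (ix l x) := by
  unfold ix par
  rw [floor64 _ _ hl, floor64 _ _ hl]

lemma coord_le (x y : EuclideanSpace ℝ (Fin 2)) (i : Fin 2) : |x i - y i| ≤ ‖x - y‖ := by
  have h := PiLp.norm_apply_le (x - y) i
  rw [Real.norm_eq_abs] at h
  exact h

lemma same_cell {l : ℝ} (hl : 0 < l) {x y : EuclideanSpace ℝ (Fin 2)} (h : ix l x = ix l y) :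
    ‖x - y‖ ≤ 2 * l := by
  have hc : ∀ a b : ℝ, ⌊a / l⌋ = ⌊b / l⌋ → |a - b| ≤ l := by
    intro a b hab
    have h1 := Int.floor_le (a / l)
    have h2 := Int.lt_floor_add_one (a / l)
    have h3 := Int.floor_le (b / l)
    have h4 := Int.lt_floor_add_one (b / l)
    rw [hab] at h1 h2
    have h5 : |a / l - b / l| ≤ 1 := by
      rw [abs_le]
      constructor <;> linarith
    have h6 : a / l - b / l = (a - b) / l := by ring
    rw [h6, abs_div, abs_of_pos hl, div_le_one hl] at h5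
    exact h5
  have h0 := hc (x 0) (y 0) (congrArg Prod.fst h)
  have h1 := hc (x 1) (y 1) (congrArg Prod.snd h)
  rw [EuclideanSpace.norm_eq, Real.sqrt_le_left (by linarith)]
  simp only [Fin.sum_univ_two, Real.norm_eq_abs]
  have e0 : (x - y) 0 = x 0 - y 0 := rfl
  have e1 : (x - y) 1 = x 1 - y 1 := rfl
  rw [e0, e1]
  have a0 : |x 0 - y 0| ^ 2 ≤ l ^ 2 := pow_le_pow_left₀ (abs_nonneg _) h0 2
  have a1 : |x 1 - y 1| ^ 2 ≤ l ^ 2 := pow_le_pow_left₀ (abs_nonneg _) h1 2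
  nlinarith

lemma near_ix {l : ℝ} (hl : 0 < l) {a b : ℝ} (h : |a - b| ≤ 20 * l) :
    ⌊b / l⌋ - 21 ≤ ⌊a / l⌋ ∧ ⌊a / l⌋ ≤ ⌊b / l⌋ + 21 := by
  have h1 := Int.floor_le (a / l)
  have h2 := Int.lt_floor_add_one (a / l)
  have h3 := Int.floor_le (b / l)
  have h4 := Int.lt_floor_add_one (b / l)
  have h5 : |a / l - b / l| ≤ 20 := by
    have h6 : a / l - b / l = (a - b) / l := by ring
    rw [h6, abs_div, abs_of_pos hl, div_le_iff₀ hl]
    exact h
  rw [abs_le] at h5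
  constructor
  · have h6 : ((⌊b / l⌋ - 21 : ℤ) : ℝ) < ((⌊a / l⌋ + 1 : ℤ) : ℝ) := by
      push_cast
      linarith
    have h7 : ⌊b / l⌋ - 21 < ⌊a / l⌋ + 1 := by exact_mod_cast h6
    omega
  · have h6 : ((⌊a / l⌋ : ℤ) : ℝ) < ((⌊b / l⌋ + 21 + 1 : ℤ) : ℝ) := by
      push_cast
      linarith
    have h7 : ⌊a / l⌋ < ⌊b / l⌋ + 21 + 1 := by exact_mod_cast h6
    omega

/-- One scale. -/
lemma step79 (P : Set (EuclideanSpace ℝ (Fin 2))) {l : ℝ} (hl : 0 < l)
    (hP : ∀ h ∈ P, ∃ z : EuclideanSpace ℝ (Fin 2), ‖z - h‖ ≤ 20 * l ∧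
      ∀ g ∈ P, 2 * l < ‖g - z‖) (hfin : (ix l '' P).Finite) :
    (ix l '' P).ncard ≤ 4095 * (ix (64 * l) '' P).ncard := by
  classical
  set J := hfin.toFinset with hJ
  have hJm : ∀ z, z ∈ J ↔ ∃ h ∈ P, ix l h = z := by
    intro z
    rw [hJ, Set.Finite.mem_toFinset]
    rfl
  have himg : ix (64 * l) '' P = ((J.image par : Finset (ℤ × ℤ)) : Set (ℤ × ℤ)) := by
    ext q
    simp only [Finset.coe_image, Set.mem_image, Finset.mem_coe]
    constructor
    · rintro ⟨h, h1, rfl⟩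
      exact ⟨ix l h, (hJm _).2 ⟨h, h1, rfl⟩, (ix_par l hl h).symm⟩
    · rintro ⟨z, hz, rfl⟩
      obtain ⟨h, h1, rfl⟩ := (hJm z).1 hz
      exact ⟨h, h1, ix_par l hl h⟩
  have hc1 : (ix l '' P).ncard = J.card := by
    rw [hJ, Set.ncard_eq_toFinset_card _ hfin]
  rw [hc1, himg, Set.ncard_coe_finset]
  refine Finset.card_le_mul_card_image J 4095 ?_
  intro q hq
  set F : Finset (ℤ × ℤ) := Finset.Ico (64 * q.1) (64 * q.1 + 64) ×ˢ
    Finset.Ico (64 * q.2) (64 * q.2 + 64) with hF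
  have hFc : F.card = 4096 := by
    rw [hF, Finset.card_product, Int.card_Ico, Int.card_Ico]
    have e1 : (64 * q.1 + 64 - 64 * q.1).toNat = 64 := by
      rw [add_sub_cancel_left]
      rfl
    have e2 : (64 * q.2 + 64 - 64 * q.2).toNat = 64 := by
      rw [add_sub_cancel_left]
      rfl
    rw [e1, e2]
  have hFm : ∀ z : ℤ × ℤ, par z = q → z ∈ F := by
    intro z hz
    have h1 : z.1 / 64 = q.1 := congrArg Prod.fst hz
    have h2 : z.2 / 64 = q.2 := congrArg Prod.snd hz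
    rw [hF, Finset.mem_product, Finset.mem_Ico, Finset.mem_Ico]
    omega
  obtain ⟨w, hwF, hwJ⟩ : ∃ w ∈ F, w ∉ J := by
    by_cases hcen : ((64 * q.1 + 32, 64 * q.2 + 32) : ℤ × ℤ) ∈ J
    · obtain ⟨h, hhP, hh⟩ := (hJm _).1 hcen
      obtain ⟨z, hz1, hz2⟩ := hP h hhP
      refine ⟨ix l z, ?_, ?_⟩
      · have a0 := near_ix hl ((coord_le z h 0).trans hz1)
        have a1 := near_ix hl ((coord_le z h 1).trans hz1)
        have b0 : ⌊h 0 / l⌋ = 64 * q.1 + 32 := congrArg Prod.fst hh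
        have b1 : ⌊h 1 / l⌋ = 64 * q.2 + 32 := congrArg Prod.snd hh
        rw [hF, Finset.mem_product, Finset.mem_Ico, Finset.mem_Ico]
        show (64 * q.1 ≤ ⌊z 0 / l⌋ ∧ ⌊z 0 / l⌋ < 64 * q.1 + 64) ∧
          (64 * q.2 ≤ ⌊z 1 / l⌋ ∧ ⌊z 1 / l⌋ < 64 * q.2 + 64)
        omega
      · intro hJz
        obtain ⟨g, hgP, hg⟩ := (hJm _).1 hJz
        have h1 := same_cell hl hg
        have h2 := hz2 g hgP
        linarith
    · refine ⟨_, ?_, hcen⟩
      rw [hF, Finset.mem_product, Finset.mem_Ico, Finset.mem_Ico]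
      show (64 * q.1 ≤ 64 * q.1 + 32 ∧ 64 * q.1 + 32 < 64 * q.1 + 64) ∧
        (64 * q.2 ≤ 64 * q.2 + 32 ∧ 64 * q.2 + 32 < 64 * q.2 + 64)
      omega
  have hsub : J.filter (fun z => par z = q) ⊆ F.erase w := by
    intro z hz
    rw [Finset.mem_filter] at hz
    rw [Finset.mem_erase]
    refine ⟨?_, hFm z hz.2⟩
    rintro rfl
    exact hwJ hz.1
  have h1 := Finset.card_le_card hsub
  rw [Finset.card_erase_of_mem hwF, hFc] at h1
  exact h1

lemma box79 {l R : ℝ} (hl : 0 < l) (hlR : l ≤ R) (P : Set (EuclideanSpace ℝ (Fin 2)))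
    (hR : ∀ h ∈ P, ‖h‖ ≤ R) :
    (ix l '' P).Finite ∧ ((ix l '' P).ncard : ℝ) ≤ (5 * R / l) ^ 2 := by
  classical
  set N : ℤ := ⌈R / l⌉ with hN
  have h1 : R / l ≤ N := Int.le_ceil _
  have h2 : (N : ℝ) < R / l + 1 := Int.ceil_lt_add_one _
  have h3 : 1 ≤ R / l := by
    rw [one_le_div hl]
    exact hlR
  set F : Finset (ℤ × ℤ) := Finset.Icc (-N) N ×ˢ Finset.Icc (-N) N with hF
  have hco : ∀ a : ℝ, |a| ≤ R → -N ≤ ⌊a / l⌋ ∧ ⌊a / l⌋ ≤ N := by
    intro a ha
    rw [abs_le] at ha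
    have h4 : -(R / l) ≤ a / l := by
      rw [← neg_div]
      exact div_le_div_of_nonneg_right ha.1 hl.le
    have h5 : a / l ≤ R / l := div_le_div_of_nonneg_right ha.2 hl.le
    constructor
    · rw [Int.le_floor]
      push_cast
      linarith
    · have h6 := Int.floor_le (a / l)
      have h7 : (⌊a / l⌋ : ℝ) ≤ (N : ℝ) := by linarith
      exact_mod_cast h7
  have hsub : ix l '' P ⊆ (F : Set (ℤ × ℤ)) := by
    rintro _ ⟨x, hx, rfl⟩
    have h4 : ∀ i, |x i| ≤ R := by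
      intro i
      have := PiLp.norm_apply_le x i
      rw [Real.norm_eq_abs] at this
      exact this.trans (hR x hx)
    rw [Finset.mem_coe, hF, Finset.mem_product, Finset.mem_Icc, Finset.mem_Icc]
    exact ⟨hco _ (h4 0), hco _ (h4 1)⟩
  have hfin : (ix l '' P).Finite := F.finite_toSet.subset hsub
  refine ⟨hfin, ?_⟩
  have h4 : (ix l '' P).ncard ≤ F.card := by
    have := Set.ncard_le_ncard hsub F.finite_toSet
    rwa [Set.ncard_coe_finset] at this
  have hN0 : 0 ≤ N := by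
    have : (0 : ℝ) ≤ (N : ℝ) := by linarith
    exact_mod_cast this
  have h5 : (F.card : ℝ) = (2 * N + 1) ^ 2 := by
    rw [hF, Finset.card_product, Int.card_Icc]
    have h6 : (((N + 1 - -N).toNat : ℕ) : ℤ) = 2 * N + 1 := by
      rw [Int.toNat_of_nonneg (by omega)]
      ring
    have h7 : (((N + 1 - -N).toNat : ℕ) : ℝ) = 2 * N + 1 := by exact_mod_cast h6
    push_cast
    rw [h7]
    ring
  have h6 : ((ix l '' P).ncard : ℝ) ≤ F.card := by exact_mod_cast h4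
  refine h6.trans ?_
  rw [h5]
  have hN0' : (0 : ℝ) ≤ (N : ℝ) := by exact_mod_cast hN0
  refine pow_le_pow_left₀ (by linarith) ?_ 2
  rw [mul_div_assoc]
  linarith

/-- Porosity at `K` scales. -/
theorem por79 : ∃ C : ℝ, 0 ≤ C ∧ ∀ (P : Set (EuclideanSpace ℝ (Fin 2))) (r R : ℝ) (K : ℕ),
    0 < r → 1 ≤ R → 64 ^ K * r ≤ 1 → (∀ h ∈ P, ‖h‖ ≤ R) →
    (∀ h ∈ P, ∀ k : ℕ, k < K → ∃ z : EuclideanSpace ℝ (Fin 2), ‖z - h‖ ≤ 64 ^ k * r ∧
      ∀ g ∈ P, 64 ^ k * r / 9 < ‖g - z‖) →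
    volume P ≤ ENNReal.ofReal (C * R ^ 2 * (4095 / 4096) ^ K) := by
  classical
  set V : ℝ := (volume (Metric.ball (0 : EuclideanSpace ℝ (Fin 2)) 1)).toReal with hV
  have hVf : volume (Metric.ball (0 : EuclideanSpace ℝ (Fin 2)) 1) ≠ ⊤ :=
    measure_ball_lt_top.ne
  have hV0 : 0 ≤ V := ENNReal.toReal_nonneg
  refine ⟨100 * V, by positivity, ?_⟩
  intro P r R K hr hR hK hPR hP
  set l : ℕ → ℝ := fun k => 64 ^ k * r / 20 with hl
  have hl0 : ∀ k, 0 < l k := fun k => by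
    show 0 < 64 ^ k * r / 20
    positivity
  have hlK : ∀ k, k ≤ K → l k ≤ R := by
    intro k hk
    have h1 : (64 : ℝ) ^ k ≤ 64 ^ K := pow_le_pow_right₀ (by norm_num) hk
    have h2 : (64 : ℝ) ^ k * r ≤ 64 ^ K * r := mul_le_mul_of_nonneg_right h1 hr.le
    show 64 ^ k * r / 20 ≤ R
    linarith
  have hls : ∀ k, l (k + 1) = 64 * l k := fun k => by
    show 64 ^ (k + 1) * r / 20 = 64 * (64 ^ k * r / 20)
    ring
  have hstep : ∀ k, k < K → (ix (l k) '' P).ncard ≤ 4095 * (ix (l (k + 1)) '' P).ncard := by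
    intro k hk
    rw [hls]
    refine step79 P (hl0 k) (fun h hh => ?_) (box79 (hl0 k) (hlK k hk.le) P hPR).1
    obtain ⟨z, hz1, hz2⟩ := hP h hh k hk
    refine ⟨z, ?_, fun g hg => ?_⟩
    · show ‖z - h‖ ≤ 20 * (64 ^ k * r / 20)
      linarith
    · have h1 := hz2 g hg
      have h2 : 0 < 64 ^ k * r := by positivity
      show 2 * (64 ^ k * r / 20) < ‖g - z‖
      linarith
  have hall : ∀ k, k ≤ K → (ix (l 0) '' P).ncard ≤ 4095 ^ k * (ix (l k) '' P).ncard := by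
    intro k
    induction k with
    | zero =>
      intro _
      simp
    | succ k ih =>
      intro hk
      refine (ih (by omega)).trans ?_
      rw [pow_succ, mul_assoc]
      exact Nat.mul_le_mul_left _ (hstep k (by omega))
  have h0 := hall K le_rfl
  have hb := box79 (hl0 K) (hlK K le_rfl) P hPR
  have h1 : ((ix (l 0) '' P).ncard : ℝ) ≤ 4095 ^ K * (5 * R / l K) ^ 2 := by
    have h2 : ((ix (l 0) '' P).ncard : ℝ) ≤ 4095 ^ K * ((ix (l K) '' P).ncard : ℝ) := by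
      exact_mod_cast h0
    exact h2.trans (mul_le_mul_of_nonneg_left hb.2 (by positivity))
  -- the covering
  have hfin0 := (box79 (hl0 0) (hlK 0 (Nat.zero_le _)) P hPR).1
  set J := hfin0.toFinset with hJ
  have hc : ∀ z ∈ J, ∃ x : EuclideanSpace ℝ (Fin 2), x ∈ P ∧ ix (l 0) x = z := by
    intro z hz
    rw [hJ, Set.Finite.mem_toFinset] at hz
    exact hz
  choose! c hc1 hc2 using hc
  have hcov : P ⊆ ⋃ z ∈ J, Metric.closedBall (c z) (2 * l 0) := by
    intro x hx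
    have hz : ix (l 0) x ∈ J := by
      rw [hJ, Set.Finite.mem_toFinset]
      exact ⟨x, hx, rfl⟩
    simp only [Set.mem_iUnion]
    refine ⟨_, hz, ?_⟩
    rw [Metric.mem_closedBall, dist_eq_norm]
    exact same_cell (hl0 0) (hc2 _ hz).symm
  have hball : ∀ z, volume (Metric.closedBall (c z) (2 * l 0)) =
      ENNReal.ofReal ((2 * l 0) ^ 2 * V) := by
    intro z
    rw [Measure.addHaar_closedBall _ _ (by have := hl0 0; linarith)]
    have e1 : Module.finrank ℝ (EuclideanSpace ℝ (Fin 2)) = 2 := by simp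
    rw [e1, ENNReal.ofReal_mul (by positivity), hV, ENNReal.ofReal_toReal hVf]
  calc volume P ≤ volume (⋃ z ∈ J, Metric.closedBall (c z) (2 * l 0)) := measure_mono hcov
    _ ≤ ∑ z ∈ J, volume (Metric.closedBall (c z) (2 * l 0)) := measure_biUnion_finset_le _ _
    _ = ∑ _z ∈ J, ENNReal.ofReal ((2 * l 0) ^ 2 * V) := Finset.sum_congr rfl fun z _ => hball z
    _ = ENNReal.ofReal (J.card * ((2 * l 0) ^ 2 * V)) := by
        rw [Finset.sum_const, nsmul_eq_mul, ENNReal.ofReal_mul (Nat.cast_nonneg _),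
          ENNReal.ofReal_natCast]
    _ ≤ ENNReal.ofReal (100 * V * R ^ 2 * (4095 / 4096) ^ K) := by
        refine ENNReal.ofReal_le_ofReal ?_
        have e1 : (J.card : ℝ) ≤ 4095 ^ K * (5 * R / l K) ^ 2 := by
          have e2 : (ix (l 0) '' P).ncard = J.card := by
            rw [hJ, Set.ncard_eq_toFinset_card _ hfin0]
          rw [← e2]
          exact h1
        have e3 : l K = 64 ^ K * l 0 := by
          show 64 ^ K * r / 20 = 64 ^ K * (64 ^ 0 * r / 20)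
          ring
        have e4 : 4095 ^ K * (5 * R / l K) ^ 2 * ((2 * l 0) ^ 2 * V) =
            100 * V * R ^ 2 * (4095 / 4096) ^ K := by
          have hl00 := (hl0 0).ne'
          rw [e3, div_pow (4095 : ℝ) 4096 K]
          have e5 : (4096 : ℝ) ^ K = (64 ^ K) ^ 2 := by
            rw [← pow_mul, mul_comm, pow_mul]
            norm_num
          rw [e5]
          field_simp
          ring
        rw [← e4]
        exact mul_le_mul_of_nonneg_right e1 (by positivity)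

end Pool.Agent.W_7d29a1_PA.Por79
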