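import Pool.Agent.W_7d29a1_h46u.Defs

/-!
The strip lemma (helper11): most points of a set of tilts have neighbours in the set in every
direction, at a distance between `r0` and `r1`, off a set of measure `O(r0 / r1)`.
-/

namespace Pool.Agent.W_7d29a1_PA

open MeasureTheory Filter Topology Set Pool.Agent.W_MP_7d29a1_pr Pool.Agent.W_7d29a1_h46
  Pool.Agent.W_7d29a1_h46u

namespace Strip11

/-- the points without a neighbour in the direction `s e_j` -/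
def Bad (G : Set (Vec 2)) (r0 r1 R : ℝ) (j : Fin 2) (s : ℝ) : Set (Vec 2) :=
  {h | h ∈ G ∧ ‖h‖ ≤ R ∧ ∀ g ∈ G, ∀ r' : ℝ, r0 ≤ r' → r' ≤ r1 →
    ¬ ‖g - h - (s * r') • ej j‖ ≤ r' / 9}

lemma norm_le2 (x : Vec 2) : ‖x‖ ≤ |x 0| + |x 1| := by
  rw [EuclideanSpace.norm_eq, Fin.sum_univ_two]
  refine Real.sqrt_le_iff.2 ⟨by positivity, ?_⟩
  rw [Real.norm_eq_abs, Real.norm_eq_abs]
  nlinarith [abs_nonneg (x 0), abs_nonneg (x 1), mul_nonneg (abs_nonneg (x 0)) (abs_nonneg (x 1))]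

lemma norm_le_other {x : Vec 2} {j : Fin 2} {a : ℝ} (hj : x j = 0)
    (hi : ∀ i, i ≠ j → |x i| ≤ a) : ‖x‖ ≤ a := by
  refine (norm_le2 x).trans ?_
  fin_cases j
  · have h1 : x 0 = 0 := hj
    have h2 := hi 1 (by decide)
    rw [h1, abs_zero, zero_add]
    exact h2
  · have h1 : x 1 = 0 := hj
    have h2 := hi 0 (by decide)
    rw [h1, abs_zero, add_zero]
    exact h2

lemma near {h g : Vec 2} {j : Fin 2} {s r' b : ℝ} (hr : g j - h j = s * r')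
    (hi : ∀ i, i ≠ j → |g i - h i| ≤ b) : ‖g - h - (s * r') • ej j‖ ≤ b := by
  refine norm_le_other (j := j) ?_ fun i hij => ?_
  · have e : (g - h - (s * r') • (ej j : Vec 2)) j = g j - h j - s * r' := by
      unfold ej
      simp
    rw [e, hr, sub_self]
  · have e : (g - h - (s * r') • (ej j : Vec 2)) i = g i - h i := by
      unfold ej
      simp [hij]
    rw [e]
    exact hi i hij

/-- Two points of the bad set in a thin rectangle. -/
lemma pair {G : Set (Vec 2)} {r0 r1 R : ℝ} {j : Fin 2} {s : ℝ} (hs : s = 1 ∨ s = -1)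
    {h g : Vec 2} (hh : h ∈ Bad G r0 r1 R j s) (hg : g ∈ Bad G r0 r1 R j s)
    (h1 : |g j - h j| ≤ r1) (h2 : ∀ i, i ≠ j → |g i - h i| ≤ r0 / 9) : |g j - h j| ≤ r0 := by
  by_contra hcon
  push Not at hcon
  have key : ∀ x y : Vec 2, x ∈ Bad G r0 r1 R j s → y ∈ G → s * (y j - x j) = |g j - h j| →
      (∀ i, i ≠ j → |y i - x i| ≤ r0 / 9) → False := by
    intro x y hx hy e hi
    refine hx.2.2 y hy |g j - h j| hcon.le h1 ?_
    have e2 : y j - x j = s * |g j - h j| := by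
      rw [← e]
      rcases hs with h | h <;> rw [h] <;> ring
    refine (near e2 hi).trans ?_
    linarith
  rcases le_total 0 (s * (g j - h j)) with h3 | h3
  · refine key h g hh hg.1 ?_ h2
    rcases hs with h | h
    · rw [h, one_mul] at h3 ⊢
      exact (abs_of_nonneg h3).symm
    · rw [h] at h3 ⊢
      rw [abs_of_nonpos (by linarith)]
      ring
  · refine key g h hg hh.1 ?_ fun i hij => by rw [abs_sub_comm]; exact h2 i hij
    rcases hs with h | h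
    · rw [h, one_mul] at h3
      rw [h, abs_of_nonpos h3]
      ring
    · rw [h] at h3 ⊢
      rw [abs_of_nonneg (by linarith)]
      ring

/-- a rectangle -/
lemma vol_box (a b : Fin 2 → ℝ) : volume {x : Vec 2 | ∀ i, a i ≤ x i ∧ x i ≤ b i} =
    ENNReal.ofReal (b 0 - a 0) * ENNReal.ofReal (b 1 - a 1) := by
  have h := (PiLp.volume_preserving_ofLp (Fin 2)).measure_preimage
    (s := Icc a b) measurableSet_Icc.nullMeasurableSet
  rw [Real.volume_Icc_pi, Fin.prod_univ_two] at h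
  rw [← h]
  congr 1
  ext x
  simp only [mem_ofPred_eq, mem_preimage, mem_Icc, Pi.le_def]
  exact forall_and

/-- the rectangle with the index `p` -/
def Q (j : Fin 2) (r0 r1 : ℝ) (p : ℤ × ℤ) : Set (Vec 2) :=
  {x | p.1 * r1 ≤ x j ∧ x j ≤ (p.1 + 1) * r1 ∧
    ∀ i, i ≠ j → p.2 * (r0 / 9) ≤ x i ∧ x i ≤ (p.2 + 1) * (r0 / 9)}

lemma vol_piece {G : Set (Vec 2)} {r0 r1 R : ℝ} (hr0 : 0 < r0) {j : Fin 2} {s : ℝ}
    (hs : s = 1 ∨ s = -1) (p : ℤ × ℤ) :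
    volume (Bad G r0 r1 R j s ∩ Q j r0 r1 p) ≤ ENNReal.ofReal (2 * r0 * (r0 / 9)) := by
  rcases (Bad G r0 r1 R j s ∩ Q j r0 r1 p).eq_empty_or_nonempty with he | ⟨h, hh, hq⟩
  · rw [he, measure_empty]
    exact bot_le
  obtain ⟨a, ha⟩ : ∃ a : Fin 2 → ℝ, a = fun i => if i = j then h j - r0 else p.2 * (r0 / 9) :=
    ⟨_, rfl⟩
  obtain ⟨b, hb⟩ : ∃ b : Fin 2 → ℝ, b = fun i => if i = j then h j + r0 else
    (p.2 + 1) * (r0 / 9) := ⟨_, rfl⟩
  have hsub : Bad G r0 r1 R j s ∩ Q j r0 r1 p ⊆ {x : Vec 2 | ∀ i, a i ≤ x i ∧ x i ≤ b i} := by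
    rintro g ⟨hg, hgq⟩ i
    have h1 : |g j - h j| ≤ r1 := by
      rw [abs_le]
      constructor
      · linarith [hgq.1, hq.2.1]
      · linarith [hgq.2.1, hq.1]
    have h2 : ∀ i, i ≠ j → |g i - h i| ≤ r0 / 9 := fun i hij => by
      have h3 := hgq.2.2 i hij
      have h4 := hq.2.2 i hij
      rw [abs_le]
      constructor
      · linarith [h3.1, h4.2]
      · linarith [h3.2, h4.1]
    have h5 := abs_le.1 (pair hs hh hg h1 h2)
    by_cases hij : i = j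
    · subst hij
      rw [ha, hb]
      simp only [if_true]
      constructor <;> linarith [h5.1, h5.2]
    · rw [ha, hb]
      simp only [if_neg hij]
      exact hgq.2.2 i hij
  refine (measure_mono hsub).trans ?_
  rw [vol_box]
  have e1 : b j - a j = 2 * r0 := by
    rw [ha, hb]
    simp only [if_true]
    ring
  have e2 : ∀ i, i ≠ j → b i - a i = r0 / 9 := fun i hij => by
    rw [ha, hb]
    simp only [if_neg hij]
    ring
  have h2r : 0 ≤ 2 * r0 := by linarith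
  have h9r : 0 ≤ r0 / 9 := by linarith
  fin_cases j
  · have e1' : b 0 - a 0 = 2 * r0 := e1
    rw [e1', e2 1 (by decide), ← ENNReal.ofReal_mul h2r]
  · have e1' : b 1 - a 1 = 2 * r0 := e1
    rw [e1', e2 0 (by decide), ← ENNReal.ofReal_mul h9r]
    refine ENNReal.ofReal_le_ofReal (le_of_eq (by ring))

lemma abs_le_norm (x : Vec 2) (i : Fin 2) : |x i| ≤ ‖x‖ := by
  have := PiLp.norm_apply_le x i
  rwa [Real.norm_eq_abs] at this

lemma cover_real {x c R : ℝ} (hc : 0 < c) (hx : |x| ≤ R) {P : ℤ} (hP : R / c + 1 ≤ P) :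
    ∃ p : ℤ, p ∈ Finset.Icc (-P) P ∧ p * c ≤ x ∧ x ≤ (p + 1) * c := by
  refine ⟨⌊x / c⌋, ?_, ?_, ?_⟩
  · have h1 := abs_le.1 hx
    have h2 : x / c ≤ R / c := div_le_div_of_nonneg_right h1.2 hc.le
    have h3 : -(R / c) ≤ x / c := by
      rw [← neg_div]
      exact div_le_div_of_nonneg_right h1.1 hc.le
    have h4 := Int.floor_le (x / c)
    have h5 := Int.lt_floor_add_one (x / c)
    rw [Finset.mem_Icc]
    constructor
    · have : (-P : ℝ) ≤ (⌊x / c⌋ : ℝ) := by linarith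
      exact_mod_cast this
    · have : (⌊x / c⌋ : ℝ) ≤ P := by linarith
      exact_mod_cast this
  · have := Int.floor_le (x / c)
    rwa [le_div_iff₀ hc] at this
  · have := Int.lt_floor_add_one (x / c)
    rw [div_lt_iff₀ hc] at this
    exact this.le

lemma vol_bad {G : Set (Vec 2)} {r0 r1 R : ℝ} (hr0 : 0 < r0) (h01 : r0 ≤ r1) (h1 : r1 ≤ 1)
    (hR : 0 ≤ R) {j : Fin 2} {s : ℝ} (hs : s = 1 ∨ s = -1) :
    volume (Bad G r0 r1 R j s) ≤ ENNReal.ofReal (40 * (R + 1) ^ 2 * (r0 / r1)) := by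
  have hr1 : 0 < r1 := by linarith
  have h9 : 0 < r0 / 9 := by linarith
  obtain ⟨P, hP⟩ : ∃ P : ℕ, P = ⌈R / r1 + 1⌉₊ := ⟨_, rfl⟩
  obtain ⟨N, hN⟩ : ∃ N : ℕ, N = ⌈R / (r0 / 9) + 1⌉₊ := ⟨_, rfl⟩
  have hP0 : 0 ≤ R / r1 + 1 := by positivity
  have hN0 : 0 ≤ R / (r0 / 9) + 1 := by positivity
  have hP1 : R / r1 + 1 ≤ (P : ℝ) := by rw [hP]; exact Nat.le_ceil _
  have hN1 : R / (r0 / 9) + 1 ≤ (N : ℝ) := by rw [hN]; exact Nat.le_ceil _
  have hP2 : (P : ℝ) ≤ R / r1 + 2 := by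
    have := (Nat.ceil_lt_add_one hP0).le
    rw [← hP] at this
    linarith
  have hN2 : (N : ℝ) ≤ R / (r0 / 9) + 2 := by
    have := (Nat.ceil_lt_add_one hN0).le
    rw [← hN] at this
    linarith
  obtain ⟨I, hI⟩ : ∃ I : Finset (ℤ × ℤ), I = Finset.Icc (-(P : ℤ)) P ×ˢ Finset.Icc (-(N : ℤ)) N :=
    ⟨_, rfl⟩
  have hcard : (I.card : ℝ) = (2 * P + 1) * (2 * N + 1) := by
    have e1 : (Finset.Icc (-(P : ℤ)) P).card = 2 * P + 1 := by
      rw [Int.card_Icc]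
      omega
    have e2 : (Finset.Icc (-(N : ℤ)) N).card = 2 * N + 1 := by
      rw [Int.card_Icc]
      omega
    rw [hI, Finset.card_product, e1, e2]
    push_cast
    ring
  have hcov : Bad G r0 r1 R j s ⊆ ⋃ p ∈ I, (Bad G r0 r1 R j s ∩ Q j r0 r1 p) := by
    intro x hx
    have hxR := hx.2.1
    obtain ⟨p, hp1, hp2, hp3⟩ := cover_real (c := r1) hr1 ((abs_le_norm x j).trans hxR)
      (P := (P : ℤ)) (by exact_mod_cast hP1)
    obtain ⟨i, hij⟩ : ∃ i : Fin 2, i ≠ j := ⟨1 - j, by fin_cases j <;> decide⟩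
    obtain ⟨q, hq1, hq2, hq3⟩ := cover_real (c := r0 / 9) h9 ((abs_le_norm x i).trans hxR)
      (P := (N : ℤ)) (by exact_mod_cast hN1)
    refine mem_iUnion₂.2 ⟨(p, q), ?_, hx, hp2, hp3, fun i' hi' => ?_⟩
    · rw [hI]
      exact Finset.mem_product.2 ⟨hp1, hq1⟩
    · have : i' = i := by
        fin_cases j <;> fin_cases i <;> fin_cases i' <;> simp_all
      rw [this]
      exact ⟨hq2, hq3⟩
  refine (measure_mono hcov).trans ((measure_biUnion_finset_le I _).trans ?_)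
  refine (Finset.sum_le_sum fun p _ => vol_piece hr0 hs p).trans ?_
  rw [Finset.sum_const, nsmul_eq_mul, ← ENNReal.ofReal_natCast,
    ← ENNReal.ofReal_mul (Nat.cast_nonneg _)]
  refine ENNReal.ofReal_le_ofReal ?_
  rw [hcard]
  have k1 : (2 * (P : ℝ) + 1) ≤ 5 * (R + 1) / r1 := by
    rw [le_div_iff₀ hr1]
    have h2 : (P : ℝ) * r1 ≤ R + 2 * r1 := by
      calc (P : ℝ) * r1 ≤ (R / r1 + 2) * r1 := mul_le_mul_of_nonneg_right hP2 hr1.le
        _ = R + 2 * r1 := by field_simp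
    nlinarith
  have k2 : (2 * (N : ℝ) + 1) ≤ 18 * (R + 1) / r0 := by
    rw [le_div_iff₀ hr0]
    have h2 : (N : ℝ) * r0 ≤ 9 * R + 2 * r0 := by
      calc (N : ℝ) * r0 ≤ (R / (r0 / 9) + 2) * r0 := mul_le_mul_of_nonneg_right hN2 hr0.le
        _ = 9 * R + 2 * r0 := by field_simp
    nlinarith
  calc (2 * (P : ℝ) + 1) * (2 * N + 1) * (2 * r0 * (r0 / 9))
      ≤ (5 * (R + 1) / r1) * (18 * (R + 1) / r0) * (2 * r0 * (r0 / 9)) := by
        refine mul_le_mul_of_nonneg_right ?_ (by positivity)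
        exact mul_le_mul k1 k2 (by positivity) (by positivity)
    _ = 20 * (R + 1) ^ 2 * (r0 / r1) := by
        field_simp
        ring
    _ ≤ _ := by
        have : 0 ≤ (R + 1) ^ 2 * (r0 / r1) := by positivity
        nlinarith

end Strip11

open Strip11 in
/-- **The strip lemma.** -/
theorem strip11 (G : Set (Vec 2)) {r0 r1 R : ℝ} (hr0 : 0 < r0) (h01 : r0 ≤ r1) (h1 : r1 ≤ 1)
    (hR : 0 ≤ R) : volume {h : Vec 2 | h ∈ G ∧ ‖h‖ ≤ R ∧ ∃ (j : Fin 2) (s : ℝ),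
      (s = 1 ∨ s = -1) ∧ ∀ g ∈ G, ∀ r' : ℝ, r0 ≤ r' → r' ≤ r1 →
        ¬ ‖g - h - (s * r') • ej j‖ ≤ r' / 9} ≤ ENNReal.ofReal (160 * (R + 1) ^ 2 * (r0 / r1)) := by
  have hr1 : 0 < r1 := by linarith
  have hsub : {h : Vec 2 | h ∈ G ∧ ‖h‖ ≤ R ∧ ∃ (j : Fin 2) (s : ℝ),
      (s = 1 ∨ s = -1) ∧ ∀ g ∈ G, ∀ r' : ℝ, r0 ≤ r' → r' ≤ r1 →
        ¬ ‖g - h - (s * r') • ej j‖ ≤ r' / 9} ⊆
      (Bad G r0 r1 R 0 1 ∪ Bad G r0 r1 R 0 (-1)) ∪
        (Bad G r0 r1 R 1 1 ∪ Bad G r0 r1 R 1 (-1)) := by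
    rintro h ⟨hG, hh, j, s, hs, H⟩
    have hmem : h ∈ Bad G r0 r1 R j s := ⟨hG, hh, H⟩
    rcases hs with hs | hs <;> fin_cases j <;> rw [hs] at hmem
    · exact Or.inl (Or.inl hmem)
    · exact Or.inr (Or.inl hmem)
    · exact Or.inl (Or.inr hmem)
    · exact Or.inr (Or.inr hmem)
  have b : ∀ (j : Fin 2) (s : ℝ), (s = 1 ∨ s = -1) → volume (Bad G r0 r1 R j s) ≤
      ENNReal.ofReal (40 * (R + 1) ^ 2 * (r0 / r1)) := fun j s hs => vol_bad hr0 h01 h1 hR hs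
  refine (measure_mono hsub).trans ((measure_union_le _ _).trans
    ((add_le_add (measure_union_le _ _) (measure_union_le _ _)).trans ?_))
  refine (add_le_add (add_le_add (b 0 1 (Or.inl rfl)) (b 0 (-1) (Or.inr rfl)))
    (add_le_add (b 1 1 (Or.inl rfl)) (b 1 (-1) (Or.inr rfl)))).trans ?_
  have hp : 0 ≤ 40 * (R + 1) ^ 2 * (r0 / r1) := by positivity
  rw [← ENNReal.ofReal_add hp hp, ← ENNReal.ofReal_add (by linarith) (by linarith)]
  refine ENNReal.ofReal_le_ofReal (le_of_eq (by ring))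

/-- **Almost every point has its neighbours**: Borel and Cantelli. -/
theorem aeStrip11 (G : ℕ → Set (Vec 2)) (r0 r1 : ℕ → ℝ) (hr0 : ∀ n, 0 < r0 n)
    (h01 : ∀ n, r0 n ≤ r1 n) (h1 : ∀ n, r1 n ≤ 1) (hsum : Summable fun n => r0 n / r1 n) :
    ∀ᵐ h : Vec 2, ∀ᶠ n : ℕ in atTop, h ∈ G n → ∀ (j : Fin 2) (s : ℝ), (s = 1 ∨ s = -1) →
      ∃ g ∈ G n, ∃ r' : ℝ, r0 n ≤ r' ∧ r' ≤ r1 n ∧ ‖g - h - (s * r') • ej j‖ ≤ r' / 9 := by
  have key : ∀ R : ℕ, ∀ᵐ h : Vec 2, ∀ᶠ n : ℕ in atTop, h ∉ {h : Vec 2 | h ∈ G n ∧ ‖h‖ ≤ R ∧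
      ∃ (j : Fin 2) (s : ℝ), (s = 1 ∨ s = -1) ∧ ∀ g ∈ G n, ∀ r' : ℝ, r0 n ≤ r' → r' ≤ r1 n →
        ¬ ‖g - h - (s * r') • ej j‖ ≤ r' / 9} := by
    intro R
    refine ae_eventually_notMem ?_
    have h2 : Summable fun n => 160 * ((R : ℝ) + 1) ^ 2 * (r0 n / r1 n) := hsum.mul_left _
    refine ne_top_of_le_ne_top (h2.tsum_ofReal_ne_top) (ENNReal.tsum_le_tsum fun n => ?_)
    exact strip11 (G n) (hr0 n) (h01 n) (h1 n) (Nat.cast_nonneg R)
  filter_upwards [ae_all_iff.2 key] with h hh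
  obtain ⟨R, hR⟩ := exists_nat_ge ‖h‖
  filter_upwards [hh R] with n hn hG j s hs
  by_contra hcon
  push Not at hcon
  exact hn ⟨hG, hR, j, s, hs, fun g hg r' h3 h4 h5 => absurd h5 (not_le.2 (hcon g hg r' h3 h4))⟩

end Pool.Agent.W_7d29a1_PA
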